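import Mathlib

/-!
QF-3a. The real inequalities behind the induction. `Phi k r L ρ = (3ρ/k)(L + log₂(k r/ρ))`,
`Gam L ρ = 4 + log₂ L + 2 log₂ ρ`, `s0 L = log₂(2L/(2L-1))`. Everything is elementary; `log₂` is
`Real.logb 2`; use `Real.add_one_le_exp`/`Real.log_le_sub_one_of_pos` and
`1/ln 2 ≤ 1.4427` (`Real.log_two_gt_d9 : 0.6931471803 < Real.log 2`).

PROOFS.
* `s0_pos`: `2L/(2L-1) > 1`. `s0_le`: `log₂(2L/(2L-1)) ≤ 1/2`: `2L/(2L-1) ≤ 20/19 ≤ √2`, or
  `log₂ y ≤ (y - 1)/ln 2 = 1/((2L-1) ln 2) ≤ 1/(19·0.69) ≤ 1/2`.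
* `phi_two_mul`: `log₂(k r/(2ρ)) = log₂(k r/ρ) - 1`.
* `phi_ge`: `ρ ≤ k r` gives `log₂(k r/ρ) ≥ 0`, so `Phi ≥ 3ρL/k ≥ ρ·30/k`.
* `phi_sub`: for `1 ≤ ρ'`, `2L ρ' ≤ (2L-1) ρ`, `ρ ≤ k r`: with `x = log₂(k r/ρ) ≥ 0`,
  `log₂(k r/ρ') = x + log₂(ρ/ρ')`, `ρ' log₂(ρ/ρ') ≤ ρ' (ρ/ρ' - 1)/ln 2 = (ρ-ρ')/ln 2`, so
  `Phi ρ - Phi ρ' ≥ (3/k)(ρ-ρ')(L - 1/ln 2) ≥ (3/k)(ρ/(2L))(L - 1.4427) ≥ ρ/k` as `L ≥ 10`.
* `gam_sub`: `Gam ρ - Gam ρ' = 2 log₂(ρ/ρ') ≥ 2 s0` since `ρ/ρ' ≥ 2L/(2L-1)`.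
-/

set_option autoImplicit false

namespace QSys

noncomputable def Phi (k r L : ℕ) (x : ℝ) : ℝ := 3 * x / k * (L + Real.logb 2 (k * r / x))

noncomputable def Gam (L : ℕ) (x : ℝ) : ℝ := 4 + Real.logb 2 L + 2 * Real.logb 2 x

noncomputable def s0 (L : ℕ) : ℝ := Real.logb 2 (2 * L / (2 * L - 1))

private theorem ana_ln : (0.69:ℝ) < Real.log 2 := by
  have := Real.log_two_gt_d9
  linarith

private theorem ana_logb_le (z : ℝ) (hz : 0 < z) : Real.logb 2 z ≤ (z - 1) / Real.log 2 := by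
  have hl : 0 < Real.log 2 := by linarith [ana_ln]
  rw [Real.logb]
  exact div_le_div_of_nonneg_right (Real.log_le_sub_one_of_pos hz) hl.le

private theorem ana_L (L : ℕ) (hL : 10 ≤ L) : (10:ℝ) ≤ L := by exact_mod_cast hL

theorem s0_pos (L : ℕ) (hL : 10 ≤ L) : 0 < s0 L := by
  have h := ana_L L hL
  unfold s0
  apply Real.logb_pos (by norm_num)
  rw [lt_div_iff₀ (by linarith)]
  linarith

theorem s0_le (L : ℕ) (hL : 10 ≤ L) : s0 L ≤ 1 / 2 := by
  have h := ana_L L hL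
  unfold s0
  have h1 : (0:ℝ) < 2 * L - 1 := by linarith
  refine (ana_logb_le _ (by positivity)).trans ?_
  have hl := ana_ln
  rw [div_le_iff₀ (by linarith)]
  have h2 : 2 * (L:ℝ) / (2 * L - 1) - 1 = 1 / (2 * L - 1) := by
    field_simp
    ring
  rw [h2, div_le_iff₀ h1]
  nlinarith

theorem logb_L_ge (L : ℕ) (hL : 10 ≤ L) : 3 ≤ Real.logb 2 L := by
  have h := ana_L L hL
  rw [Real.le_logb_iff_rpow_le (by norm_num) (by linarith)]
  norm_num
  linarith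

theorem phi_two_mul (k r L : ℕ) (hk : 1 ≤ k) (hr : 1 ≤ r) (x : ℝ) (hx : 0 < x) :
    Phi k r L (2 * x) / 2 = Phi k r L x - 3 * x / k := by
  have hk0 : (0:ℝ) < k := by exact_mod_cast hk
  have hr0 : (0:ℝ) < r := by exact_mod_cast hr
  have h1 : Real.logb 2 ((k:ℝ) * r / (2 * x)) = Real.logb 2 ((k:ℝ) * r / x) - 1 := by
    have h2 : (k:ℝ) * r / (2 * x) = (k:ℝ) * r / x / 2 := by
      field_simp
    rw [h2, Real.logb_div (by positivity) (by norm_num), Real.logb_self_eq_one (by norm_num)]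
  unfold Phi
  rw [h1]
  field_simp
  ring

theorem phi_ge (k r L : ℕ) (hk : 1 ≤ k) (hL : 10 ≤ L) (x : ℝ) (hx : 0 < x) (hxr : x ≤ k * r) :
    30 * x / k ≤ Phi k r L x := by
  have hk0 : (0:ℝ) < k := by exact_mod_cast hk
  have h := ana_L L hL
  have h1 : 0 ≤ Real.logb 2 ((k:ℝ) * r / x) := by
    apply Real.logb_nonneg (by norm_num)
    rw [le_div_iff₀ hx]
    linarith
  unfold Phi
  have h2 : 30 * x / k = 3 * x / k * 10 := by ring
  rw [h2]
  apply mul_le_mul_of_nonneg_left _ (by positivity)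
  linarith

theorem phi_le (k r L : ℕ) (hk : 1 ≤ k) (hr : 1 ≤ r) (hkr : k * r ≤ 2 ^ L) (x : ℝ) (hx : 1 ≤ x) :
    Phi k r L x ≤ 6 * L * x / k := by
  have hk0 : (0:ℝ) < k := by exact_mod_cast hk
  have hr0 : (0:ℝ) < r := by exact_mod_cast hr
  have hx0 : (0:ℝ) < x := by linarith
  have h1 : Real.logb 2 ((k:ℝ) * r / x) ≤ L := by
    rw [Real.logb_le_iff_le_rpow (by norm_num) (by positivity), Real.rpow_natCast]
    have h2 : (k:ℝ) * r / x ≤ (k:ℝ) * r := div_le_self (by positivity) hx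
    have h3 : (k:ℝ) * r ≤ 2 ^ L := by exact_mod_cast hkr
    linarith
  unfold Phi
  have h2 : 6 * (L:ℝ) * x / k = 3 * x / k * (2 * L) := by ring
  rw [h2]
  apply mul_le_mul_of_nonneg_left _ (by positivity)
  linarith

theorem phi_sub (k r L : ℕ) (hk : 1 ≤ k) (hr : 1 ≤ r) (hL : 10 ≤ L) (x y : ℝ) (hy : 1 ≤ y)
    (hyx : 2 * L * y ≤ (2 * L - 1) * x) (hxr : x ≤ k * r) :
    x / k ≤ Phi k r L x - Phi k r L y := by
  have hk0 : (0:ℝ) < k := by exact_mod_cast hk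
  have hr0 : (0:ℝ) < r := by exact_mod_cast hr
  have h := ana_L L hL
  have hln := ana_ln
  have hln0 : 0 < Real.log 2 := by linarith
  have hy0 : (0:ℝ) < y := by linarith
  have hx0 : 0 < x := by
    by_contra hcon
    push Not at hcon
    have : (2 * (L:ℝ) - 1) * x ≤ 0 := mul_nonpos_of_nonneg_of_nonpos (by linarith) hcon
    have : 0 < 2 * (L:ℝ) * y := by positivity
    linarith
  have hX : 0 ≤ Real.logb 2 ((k:ℝ) * r / x) := by
    apply Real.logb_nonneg (by norm_num)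
    rw [le_div_iff₀ hx0]
    linarith
  have hxy : x / (2 * L) ≤ x - y := by
    rw [div_le_iff₀ (by linarith)]
    nlinarith
  have hxy0 : 0 ≤ x - y := le_trans (by positivity) hxy
  have hlog : Real.logb 2 ((k:ℝ) * r / y) = Real.logb 2 ((k:ℝ) * r / x) + Real.logb 2 (x / y) := by
    rw [← Real.logb_mul (by positivity) (by positivity)]
    congr 1
    field_simp
  have hlt : y * Real.logb 2 (x / y) ≤ (x - y) / Real.log 2 := by
    have h1 := ana_logb_le (x / y) (by positivity)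
    have h2 : y * ((x / y - 1) / Real.log 2) = (x - y) / Real.log 2 := by
      field_simp
    rw [← h2]
    exact mul_le_mul_of_nonneg_left h1 hy0.le
  have hinv : (x - y) / Real.log 2 ≤ (x - y) * 1.45 := by
    rw [div_le_iff₀ hln0]
    have : (1:ℝ) ≤ 1.45 * Real.log 2 := by linarith
    nlinarith
  have e1 : Phi k r L x - Phi k r L y =
      3 / k * ((x - y) * L + (x - y) * Real.logb 2 ((k:ℝ) * r / x) - y * Real.logb 2 (x / y)) := by
    unfold Phi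
    rw [hlog]
    field_simp
    ring
  have e2 : x / k = 3 / k * (x / 3) := by
    field_simp
  rw [e1, e2]
  apply mul_le_mul_of_nonneg_left _ (by positivity)
  have h3 : 0 ≤ (x - y) * Real.logb 2 ((k:ℝ) * r / x) := mul_nonneg hxy0 hX
  have h4 : x / (2 * L) * (L - 1.45) ≤ (x - y) * (L - 1.45) :=
    mul_le_mul_of_nonneg_right hxy (by linarith)
  have h5 : x / 3 ≤ x / (2 * L) * (L - 1.45) := by
    have h6 : x / (2 * L) * (L - 1.45) = x * ((L - 1.45) / (2 * L)) := by ring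
    rw [h6, div_eq_mul_inv]
    apply mul_le_mul_of_nonneg_left _ hx0.le
    rw [le_div_iff₀ (by linarith)]
    linarith
  nlinarith

theorem gam_sub (L : ℕ) (hL : 10 ≤ L) (x y : ℝ) (hy : 1 ≤ y)
    (hyx : 2 * L * y ≤ (2 * L - 1) * x) : 2 * s0 L ≤ Gam L x - Gam L y := by
  have h := ana_L L hL
  have hy0 : (0:ℝ) < y := by linarith
  have hx0 : 0 < x := by
    by_contra hcon
    push Not at hcon
    have : (2 * (L:ℝ) - 1) * x ≤ 0 := mul_nonpos_of_nonneg_of_nonpos (by linarith) hcon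
    have : 0 < 2 * (L:ℝ) * y := by positivity
    linarith
  have h1 : (0:ℝ) < 2 * L - 1 := by linarith
  have h2 : s0 L ≤ Real.logb 2 (x / y) := by
    unfold s0
    apply Real.logb_le_logb_of_le (by norm_num) (by positivity)
    rw [div_le_div_iff₀ h1 hy0]
    linarith
  rw [Real.logb_div hx0.ne' hy0.ne'] at h2
  unfold Gam
  linarith

end QSys
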