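import Pool.Agent.Lib.MP_c77682_nt.Ana

/-!
QF-3b. The four step inequalities; use the lemmas of `Ana.lean`.

* `stepI0, stepI1, stepII0, stepII1`: add up, as in the paper:
  (I1) `s0 + Phi ρ' + (c+ρ)/k + Gam ρ' + E ≤ Phi ρ + c/k + Gam ρ + E - s0` from `phi_sub`, `gam_sub`;
  (I0) `s0 + (c+ρ)/k ≤ Phi ρ + c/k + Gam ρ` from `phi_ge`, `Gam ≥ 4`;
  (II0) `(1/2)(log₂(2L) + [Phi(2ρ)+c/k+Gam(2ρ)+E] + (c+2ρ)/k) ≤ Phi ρ + c/k + Gam ρ + E - s0`:
     `Phi(2ρ)/2 = Phi ρ - 3ρ/k`, `Gam(2ρ)/2 = 3 + (1/2)log₂L + log₂ρ`, `(1/2)log₂(2L) = 1/2 + (1/2)log₂L`,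
     so the left side is `Phi ρ - 2ρ/k + c/k + 3.5 + log₂L + log₂ρ + E/2`, and the right side exceeds it by
     `1/2 + log₂ρ + 2ρ/k + E/2 - s0 ≥ 0` (`s0 ≤ 1/2`, `E ≥ 0`, `ρ ≥ 1`);
  (II1) with `1 ≤ t`, `2Lt ≤ ρ`, `k r ≤ 2^L`:
     `Phi t/2 ≤ 3tL/k ≤ 1.5ρ/k` (`log₂(k r/t) ≤ L`), `log₂ t ≤ log₂ρ - 1 - log₂L`; the left side
     `(1/2)(log₂(2L) + [Phi(2ρ)+c/k+Gam(2ρ)+E] + [Phi t+(c+2ρ)/k+Gam t+E])` is
     `≤ Phi ρ + c/k - 0.5ρ/k + 4.5 + (1/2)log₂L + 2log₂ρ + E`, and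
     `Gam ρ - (4.5 + (1/2)log₂L + 2log₂ρ) = (1/2)log₂L - 1/2 ≥ (1/2)·3 - 1/2 = 1 ≥ s0` (`L ≥ 10 ≥ 2^3`).
-/

set_option autoImplicit false
namespace QSys

theorem stepI0 (k r L : ℕ) (hk : 1 ≤ k) (hr : 1 ≤ r) (hL : 10 ≤ L) (x c : ℝ) (hx : 1 ≤ x)
    (hxr : x ≤ k * r) : s0 L + (c + x) / k ≤ Phi k r L x + c / k + Gam L x := by
  have hk0 : (0:ℝ) < k := by exact_mod_cast hk
  have h1 := phi_ge k r L hk hL x (by linarith) hxr
  have h2 := s0_le L hL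
  have h3 := logb_L_ge L hL
  have h4 : 0 ≤ Real.logb 2 x := Real.logb_nonneg (by norm_num) hx
  have h5 : 0 ≤ x / k := by positivity
  have h6 : 30 * x / k = 30 * (x / k) := by ring
  have h7 : (c + x) / k = c / k + x / k := by ring
  unfold Gam
  linarith

theorem stepI1 (k r L : ℕ) (hk : 1 ≤ k) (hr : 1 ≤ r) (hL : 10 ≤ L) (x y c E : ℝ) (hy : 1 ≤ y)
    (hyx : 2 * L * y ≤ (2 * L - 1) * x) (hxr : x ≤ k * r) :
    s0 L + (Phi k r L y + (c + x) / k + Gam L y + E) ≤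
      Phi k r L x + c / k + Gam L x + (E - s0 L) := by
  have h1 := phi_sub k r L hk hr hL x y hy hyx hxr
  have h2 := gam_sub L hL x y hy hyx
  have h7 : (c + x) / k = c / k + x / k := by ring
  linarith

theorem stepII0 (k r L : ℕ) (hk : 1 ≤ k) (hr : 1 ≤ r) (hL : 10 ≤ L) (x c E : ℝ) (hx : 1 ≤ x)
    (hE : 0 ≤ E) (hxr : 2 * x ≤ k * r) :
    Real.logb 2 (2 * L) + (Phi k r L (2 * x) + c / k + Gam L (2 * x) + E) + (c + 2 * x) / k ≤
      2 * (Phi k r L x + c / k + Gam L x + (E - s0 L)) := by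
  have hk0 : (0:ℝ) < k := by exact_mod_cast hk
  have hL0 : (0:ℝ) < L := by
    have : 0 < L := by omega
    exact_mod_cast this
  have h1 := phi_two_mul k r L hk hr x (by linarith)
  have h2 := s0_le L hL
  have h4 : 0 ≤ Real.logb 2 x := Real.logb_nonneg (by norm_num) hx
  have h5 : 0 ≤ x / k := by positivity
  have h6 : 3 * x / k = 3 * (x / k) := by ring
  have h7 : (c + 2 * x) / k = c / k + 2 * (x / k) := by ring
  have h8 : Real.logb 2 (2 * (L:ℝ)) = 1 + Real.logb 2 L := by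
    rw [Real.logb_mul (by norm_num) hL0.ne', Real.logb_self_eq_one (by norm_num)]
  have h9 : Real.logb 2 (2 * x) = 1 + Real.logb 2 x := by
    rw [Real.logb_mul (by norm_num) (by linarith), Real.logb_self_eq_one (by norm_num)]
  unfold Gam
  rw [h8, h9]
  linarith

theorem stepII1 (k r L : ℕ) (hk : 1 ≤ k) (hr : 1 ≤ r) (hL : 10 ≤ L) (hkr : k * r ≤ 2 ^ L)
    (x y c E : ℝ) (hy : 1 ≤ y) (hyx : 2 * L * y ≤ x) (hxr : 2 * x ≤ k * r) :
    Real.logb 2 (2 * L) + (Phi k r L (2 * x) + c / k + Gam L (2 * x) + E) +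
      (Phi k r L y + (c + 2 * x) / k + Gam L y + E) ≤
      2 * (Phi k r L x + c / k + Gam L x + (E - s0 L)) := by
  have hk0 : (0:ℝ) < k := by exact_mod_cast hk
  have hL0 : (0:ℝ) < L := by
    have : 0 < L := by omega
    exact_mod_cast this
  have hL1 : (10:ℝ) ≤ L := by exact_mod_cast hL
  have hx : 1 ≤ x := by nlinarith
  have h1 := phi_two_mul k r L hk hr x (by linarith)
  have h2 := s0_le L hL
  have h3 := logb_L_ge L hL
  have h4 : 0 ≤ Real.logb 2 x := Real.logb_nonneg (by norm_num) hx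
  have h5 : 0 ≤ x / k := by positivity
  have h6 : 3 * x / k = 3 * (x / k) := by ring
  have h7 : (c + 2 * x) / k = c / k + 2 * (x / k) := by ring
  have h8 : Real.logb 2 (2 * (L:ℝ)) = 1 + Real.logb 2 L := by
    rw [Real.logb_mul (by norm_num) hL0.ne', Real.logb_self_eq_one (by norm_num)]
  have h9 : Real.logb 2 (2 * x) = 1 + Real.logb 2 x := by
    rw [Real.logb_mul (by norm_num) (by linarith), Real.logb_self_eq_one (by norm_num)]
  have h10 := phi_le k r L hk hr hkr y hy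
  have h11 : 6 * (L:ℝ) * y / k ≤ 3 * (x / k) := by
    have : 6 * (L:ℝ) * y / k = 3 * ((2 * L * y) / k) := by ring
    rw [this]
    have : (2 * (L:ℝ) * y) / k ≤ x / k := by
      apply div_le_div_of_nonneg_right hyx hk0.le
    linarith
  have h12 : Real.logb 2 y ≤ Real.logb 2 x - 1 - Real.logb 2 L := by
    have : Real.logb 2 (2 * L * y) ≤ Real.logb 2 x :=
      Real.logb_le_logb_of_le (by norm_num) (by positivity) hyx
    rw [Real.logb_mul (by positivity) (by linarith), h8] at this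
    linarith
  unfold Gam
  rw [h8, h9]
  linarith
end QSys
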