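import Mathlib

section

section

/-!
QF-14. Factorisation of a quadratic map through an injective linear map.

PROOF. For every `x` there is a unique `z` with `β z = g (α x)`; put `g' x = z`. Then
`β (g' (a • x)) = g (α (a • x)) = (a*a) • g (α x) = β ((a*a) • g' x)`, so `g' (a • x) = (a*a) • g' x` by injectivity.
For the companion: for every `x, y` the element `polar g (α x) (α y) = g (α (x+y)) - g (α x) - g (α y)` is
`β (g' (x+y) - g' x - g' y)`, and `(x, y) ↦ g' (x+y) - g' x - g' y` is bilinear because its image under the injective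
linear map `β` is. `QuadraticMap.ofPolar` is convenient (needs: homogeneity, additivity of the polar form in the
first variable, homogeneity in the first variable).
`β` is injective because `det β ≠ 0` over a domain (`LinearMap.ker_eq_bot_of_...`; or
`Matrix`/`LinearMap.toMatrix'` and `Matrix.eq_zero_of_mulVec_eq_zero`).
-/

set_option autoImplicit false

namespace QSys

theorem inj_of_det (p : ℕ) [Fact p.Prime] {r : ℕ} (β : (Fin r → ℤ_[p]) →ₗ[ℤ_[p]] (Fin r → ℤ_[p]))
    (hβ : LinearMap.det β ≠ 0) : Function.Injective β := by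
  rw [injective_iff_map_eq_zero]
  intro x hx
  have h1 : (LinearMap.toMatrix' β).det ≠ 0 := by
    rw [LinearMap.det_toMatrix']
    exact hβ
  apply Matrix.eq_zero_of_mulVec_eq_zero h1
  rw [← Matrix.toLin'_apply, Matrix.toLin'_toMatrix', hx]

theorem factor (p : ℕ) [Fact p.Prime] {n r : ℕ}
    (g : QuadraticMap ℤ_[p] (Fin n → ℤ_[p]) (Fin r → ℤ_[p]))
    (α : (Fin n → ℤ_[p]) →ₗ[ℤ_[p]] (Fin n → ℤ_[p])) (β : (Fin r → ℤ_[p]) →ₗ[ℤ_[p]] (Fin r → ℤ_[p]))
    (hβ : Function.Injective β) (h : ∀ x, g (α x) ∈ LinearMap.range β) :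
    ∃ g' : QuadraticMap ℤ_[p] (Fin n → ℤ_[p]) (Fin r → ℤ_[p]), ∀ x, β (g' x) = g (α x) := by
  choose f hf using h
  have hpol : ∀ x y, β (QuadraticMap.polar f x y) = QuadraticMap.polar g (α x) (α y) := by
    intro x y
    simp only [QuadraticMap.polar, map_sub, hf, map_add]
  refine ⟨QuadraticMap.ofPolar f ?_ ?_ ?_, ?_⟩
  · intro a x
    apply hβ
    rw [hf, α.map_smul, QuadraticMap.map_smul, β.map_smul, hf]
  · intro x x' y
    apply hβ
    rw [hpol, map_add, map_add, hpol, hpol, QuadraticMap.polar_add_left]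
  · intro a x y
    apply hβ
    rw [hpol, map_smul, map_smul, hpol, QuadraticMap.polar_smul_left]
  · intro x
    exact hf x

end QSys
end

section

/-!
QF-9. Hensel's lemma for a system of quadratic forms over `ℤ_[p]`.

PROOF. Successive approximation. For every `m ≥ 1` and every `x` with `x ≡ x0 mod p` (every coordinate) and
`p^m ∣ g x k` for all `k` there is `x'` with `x' ≡ x mod p^m` and `p^(m+1) ∣ g x' k` for all `k`: write
`g x = p^m • w`, choose `y` with `p ∣ polar g x0 y k + w k` (`hs` for `-w`) and `x' = x + p^m • y`. Then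
`g x' = g x + p^(2m) • g y + p^m • polar g x y`, and `polar g x y = polar g x0 y + p • polar g z y` where
`x = x0 + p • z`. Iterating from `x0` gives a Cauchy sequence; the limit exists by
`IsAdicComplete` of `ℤ_[p]`, and an element of `ℤ_[p]` divisible by all `p^m` is `0`.
-/

set_option autoImplicit false

namespace QSys

theorem smod_iff (p : ℕ) [Fact p.Prime] (a b : ℤ_[p]) (m : ℕ) :
    a ≡ b [SMOD (IsLocalRing.maximalIdeal ℤ_[p]) ^ m • (⊤ : Submodule ℤ_[p] ℤ_[p])] ↔
      (p : ℤ_[p]) ^ m ∣ a - b := by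
  rw [SModEq.sub_mem, PadicInt.maximalIdeal_eq_span_p, Ideal.span_singleton_pow]
  simp only [smul_eq_mul, Ideal.mul_top]
  exact Ideal.mem_span_singleton

theorem exists_limit (p : ℕ) [Fact p.Prime] (f : ℕ → ℤ_[p])
    (hf : ∀ m, (p : ℤ_[p]) ^ m ∣ f (m + 1) - f m) :
    ∃ L : ℤ_[p], ∀ m, (p : ℤ_[p]) ^ m ∣ L - f m := by
  have h1 : ∀ m k : ℕ, (p : ℤ_[p]) ^ m ∣ f (m + k) - f m := by
    intro m k
    induction k with
    | zero => simp
    | succ k ih =>
      have h2 : (p : ℤ_[p]) ^ m ∣ f (m + k + 1) - f (m + k) :=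
        (pow_dvd_pow _ (Nat.le_add_right m k)).trans (hf (m + k))
      have h3 := dvd_add h2 ih
      rw [sub_add_sub_cancel] at h3
      exact h3
  obtain ⟨L, hL⟩ := IsPrecomplete.prec' (I := IsLocalRing.maximalIdeal ℤ_[p]) (M := ℤ_[p]) f (by
    intro m n hmn
    rw [smod_iff]
    obtain ⟨k, rfl⟩ := Nat.exists_eq_add_of_le hmn
    rw [← neg_sub]
    exact (dvd_neg).2 (h1 m k))
  refine ⟨L, fun m => ?_⟩
  have h4 := hL m
  rw [smod_iff] at h4
  rw [← neg_sub]
  exact (dvd_neg).2 h4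

theorem eq_zero_of_dvd (p : ℕ) [Fact p.Prime] (a : ℤ_[p]) (h : ∀ m : ℕ, (p : ℤ_[p]) ^ m ∣ a) : a = 0 := by
  apply IsHausdorff.haus' (I := IsLocalRing.maximalIdeal ℤ_[p]) (M := ℤ_[p]) a
  intro m
  rw [smod_iff, sub_zero]
  exact h m

theorem map_add_pow {p : ℕ} [Fact p.Prime] {n r : ℕ}
    (g : QuadraticMap ℤ_[p] (Fin n → ℤ_[p]) (Fin r → ℤ_[p])) (x y : Fin n → ℤ_[p]) (c : ℤ_[p])
    (k : Fin r) :
    g (x + c • y) k = g x k + c * c * g y k + c * QuadraticMap.polar g x y k := by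
  have h1 : g (x + c • y) = g x + g (c • y) + QuadraticMap.polar g x (c • y) := by
    rw [QuadraticMap.polar]; abel
  rw [h1, QuadraticMap.map_smul, QuadraticMap.polar_smul_right]
  simp only [Pi.add_apply, Pi.smul_apply, smul_eq_mul]

theorem step (p : ℕ) [Fact p.Prime] {n r : ℕ}
    (g : QuadraticMap ℤ_[p] (Fin n → ℤ_[p]) (Fin r → ℤ_[p])) (x0 : Fin n → ℤ_[p])
    (hs : ∀ w : Fin r → ℤ_[p], ∃ y : Fin n → ℤ_[p], ∀ k, (p : ℤ_[p]) ∣ QuadraticMap.polar g x0 y k - w k)
    (m : ℕ) (x : Fin n → ℤ_[p]) :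
    ∃ x' : Fin n → ℤ_[p], (∀ i, (p : ℤ_[p]) ∣ x i - x0 i) → (∀ k, (p : ℤ_[p]) ^ (m + 1) ∣ g x k) →
      (∀ i, (p : ℤ_[p]) ^ (m + 1) ∣ x' i - x i) ∧ (∀ k, (p : ℤ_[p]) ^ (m + 2) ∣ g x' k) := by
  by_cases hx : (∀ i, (p : ℤ_[p]) ∣ x i - x0 i) ∧ (∀ k, (p : ℤ_[p]) ^ (m + 1) ∣ g x k)
  · obtain ⟨h1, h2⟩ := hx
    choose z hz using h1
    choose w hw using h2
    obtain ⟨y, hy⟩ := hs (fun k => - w k)
    refine ⟨x + (p : ℤ_[p]) ^ (m + 1) • y, fun _ _ => ⟨fun i => ?_, fun k => ?_⟩⟩
    · simp only [Pi.add_apply, Pi.smul_apply, smul_eq_mul, add_sub_cancel_left]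
      exact dvd_mul_right _ _
    · rw [map_add_pow]
      have hxz : x = x0 + (p : ℤ_[p]) • (fun i => z i) := by
        funext i
        simp only [Pi.add_apply, Pi.smul_apply, smul_eq_mul]
        rw [← hz i]; ring
      have h3 : QuadraticMap.polar g x y k
          = QuadraticMap.polar g x0 y k + (p : ℤ_[p]) * QuadraticMap.polar g (fun i => z i) y k := by
        conv_lhs => rw [hxz]
        rw [QuadraticMap.polar_add_left, QuadraticMap.polar_smul_left]
        simp only [Pi.add_apply, Pi.smul_apply, smul_eq_mul]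
      obtain ⟨u, hu⟩ := hy k
      have h4 : QuadraticMap.polar g x0 y k = (p : ℤ_[p]) * u - w k := by
        rw [← hu]; ring
      rw [hw k, h3, h4]
      refine ⟨(p : ℤ_[p]) ^ m * g y k + u + QuadraticMap.polar g (fun i => z i) y k, ?_⟩
      ring
  · exact ⟨x, fun h1 h2 => absurd ⟨h1, h2⟩ hx⟩

theorem hensel (p : ℕ) [Fact p.Prime] {n r : ℕ}
    (g : QuadraticMap ℤ_[p] (Fin n → ℤ_[p]) (Fin r → ℤ_[p])) (x0 : Fin n → ℤ_[p])
    (h0 : ∀ k, (p : ℤ_[p]) ∣ g x0 k)
    (hs : ∀ w : Fin r → ℤ_[p], ∃ y : Fin n → ℤ_[p], ∀ k, (p : ℤ_[p]) ∣ QuadraticMap.polar g x0 y k - w k) :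
    ∃ x : Fin n → ℤ_[p], (∀ i, (p : ℤ_[p]) ∣ x i - x0 i) ∧ g x = 0 := by
  choose F hF using step p g x0 hs
  let f : ℕ → (Fin n → ℤ_[p]) := fun m => Nat.rec x0 (fun j y => F j y) m
  have f0 : f 0 = x0 := rfl
  have fs : ∀ m, f (m + 1) = F m (f m) := fun m => rfl
  have key : ∀ m, (∀ i, (p : ℤ_[p]) ∣ f m i - x0 i) ∧ (∀ k, (p : ℤ_[p]) ^ (m + 1) ∣ g (f m) k) := by
    intro m
    induction m with
    | zero =>
      refine ⟨fun i => ?_, fun k => ?_⟩
      · rw [f0]; simp
      · rw [f0, zero_add, pow_one]; exact h0 k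
    | succ m ih =>
      obtain ⟨h1, h2⟩ := hF m (f m) ih.1 ih.2
      refine ⟨fun i => ?_, fun k => ?_⟩
      · have h3 : (p : ℤ_[p]) ∣ F m (f m) i - f m i := (dvd_pow_self _ (Nat.succ_ne_zero m)).trans (h1 i)
        have h4 := dvd_add h3 (ih.1 i)
        rw [sub_add_sub_cancel] at h4
        rw [fs]; exact h4
      · rw [fs]; exact h2 k
  have hcau : ∀ i m, (p : ℤ_[p]) ^ m ∣ f (m + 1) i - f m i := by
    intro i m
    have h1 := (hF m (f m) (key m).1 (key m).2).1 i
    rw [fs]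
    exact (pow_dvd_pow _ (Nat.le_succ m)).trans h1
  have hlim : ∀ i, ∃ L : ℤ_[p], ∀ m, (p : ℤ_[p]) ^ m ∣ L - f m i :=
    fun i => exists_limit p (fun m => f m i) (hcau i)
  choose L hL using hlim
  refine ⟨L, fun i => ?_, ?_⟩
  · have h1 := hL i 1
    rw [pow_one] at h1
    have h2 := dvd_add h1 ((key 1).1 i)
    rw [sub_add_sub_cancel] at h2
    exact h2
  · funext k
    rw [Pi.zero_apply]
    apply eq_zero_of_dvd p
    intro m
    have h3 : ∀ i, ∃ y, L i - f m i = (p : ℤ_[p]) ^ m * y := fun i => hL i m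
    choose y hy using h3
    have h4 : L = f m + (p : ℤ_[p]) ^ m • (fun i => y i) := by
      funext i
      simp only [Pi.add_apply, Pi.smul_apply, smul_eq_mul]
      rw [← hy i]; ring
    rw [h4, map_add_pow]
    obtain ⟨v, hv⟩ := (key m).2 k
    rw [hv]
    refine ⟨(p : ℤ_[p]) * v + (p : ℤ_[p]) ^ m * g (fun i => y i) k
      + QuadraticMap.polar g (f m) (fun i => y i) k, ?_⟩
    ring

end QSys
end

section

/-!
QF-11. Reduction modulo `p` of a quadratic map over `ℤ_[p]`.

PROOF. `redv` is surjective (`PadicInt.toZMod` is surjective: `ZMod.intCast` of a lift, or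
`ZMod.ringHom_surjective`) and `redv p x = redv p x'` iff `p ∣ x i - x' i` for all `i`
(`PadicInt.ker_toZMod`, `PadicInt.maximalIdeal_eq_span_p`). Put `s` a right inverse of `redv`
(`Function.surjInv`), `gb x = redv p (g (s x))` and `Bb x y = redv p (polar g (s x) (s y))`. If
`x' = x + p • z` then `g x' = g x + p^2 • g z + p • polar g x z`, so `redv p (g x') = redv p (g x)`, and
`polar g x' y = polar g x y + p • polar g z y`. Hence `gb (redv p x) = redv p (g x)` for all `x`, similarly for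
`Bb`, and additivity and homogeneity of `Bb` follow from the bilinearity of `polar g` (`QuadraticMap.polarBilin`)
and surjectivity of `redv` (and of `toZMod` for the scalars); use `LinearMap.mk₂`.
`ker_redv` : see above. -/

set_option autoImplicit false

namespace QSys

/-- Reduction of a vector modulo `p`. -/
noncomputable def redv (p : ℕ) [Fact p.Prime] {n : ℕ} (x : Fin n → ℤ_[p]) : Fin n → ZMod p :=
  fun i => PadicInt.toZMod (x i)

theorem redv_add (p : ℕ) [Fact p.Prime] {n : ℕ} (x y : Fin n → ℤ_[p]) :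
    redv p (x + y) = redv p x + redv p y := by
  funext i
  simp [redv]

theorem redv_smul (p : ℕ) [Fact p.Prime] {n : ℕ} (a : ℤ_[p]) (x : Fin n → ℤ_[p]) :
    redv p (a • x) = (PadicInt.toZMod a) • redv p x := by
  funext i
  simp [redv]

theorem redv_surj (p : ℕ) [Fact p.Prime] {n : ℕ} : Function.Surjective (redv p (n := n)) := by
  intro y
  have h : ∀ i, ∃ a : ℤ_[p], PadicInt.toZMod a = y i := fun i =>
    ZMod.ringHom_surjective (PadicInt.toZMod : ℤ_[p] →+* ZMod p) (y i)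
  choose x hx using h
  exact ⟨x, funext hx⟩

theorem redv_eq_iff (p : ℕ) [Fact p.Prime] {n : ℕ} (x y : Fin n → ℤ_[p]) :
    redv p x = redv p y ↔ ∀ i, (p : ℤ_[p]) ∣ x i - y i := by
  rw [funext_iff]
  refine forall_congr' fun i => ?_
  simp only [redv]
  rw [← sub_eq_zero, ← map_sub, ← RingHom.mem_ker, PadicInt.ker_toZMod,
    PadicInt.maximalIdeal_eq_span_p, Ideal.mem_span_singleton]

private theorem redv_p_smul (p : ℕ) [Fact p.Prime] {n : ℕ} (x : Fin n → ℤ_[p]) :
    redv p ((p : ℤ_[p]) • x) = 0 := by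
  rw [redv_smul, map_natCast, CharP.cast_eq_zero, zero_smul]

private theorem exists_eq_add (p : ℕ) [Fact p.Prime] {n : ℕ} {x y : Fin n → ℤ_[p]}
    (h : redv p x = redv p y) : ∃ z, x = y + (p : ℤ_[p]) • z := by
  rw [redv_eq_iff] at h
  choose z hz using h
  refine ⟨z, ?_⟩
  funext i
  have := hz i
  simp only [Pi.add_apply, Pi.smul_apply, smul_eq_mul]
  rw [← this]
  ring

private theorem redv_g (p : ℕ) [Fact p.Prime] {n r : ℕ}
    (g : QuadraticMap ℤ_[p] (Fin n → ℤ_[p]) (Fin r → ℤ_[p])) {x y : Fin n → ℤ_[p]}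
    (h : redv p x = redv p y) : redv p (g x) = redv p (g y) := by
  obtain ⟨z, rfl⟩ := exists_eq_add p h
  rw [QuadraticMap.map_add (⇑g), QuadraticMap.map_smul, QuadraticMap.polar_smul_right, redv_add,
    redv_add, redv_p_smul, mul_smul, redv_p_smul, add_zero, add_zero]

private theorem redv_polar_left (p : ℕ) [Fact p.Prime] {n r : ℕ}
    (g : QuadraticMap ℤ_[p] (Fin n → ℤ_[p]) (Fin r → ℤ_[p])) {x x' : Fin n → ℤ_[p]}
    (y : Fin n → ℤ_[p]) (h : redv p x = redv p x') :
    redv p (QuadraticMap.polar g x y) = redv p (QuadraticMap.polar g x' y) := by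
  obtain ⟨z, rfl⟩ := exists_eq_add p h
  rw [QuadraticMap.polar_add_left, QuadraticMap.polar_smul_left, redv_add, redv_p_smul, add_zero]

private theorem redv_polar_right (p : ℕ) [Fact p.Prime] {n r : ℕ}
    (g : QuadraticMap ℤ_[p] (Fin n → ℤ_[p]) (Fin r → ℤ_[p])) (x : Fin n → ℤ_[p])
    {y y' : Fin n → ℤ_[p]} (h : redv p y = redv p y') :
    redv p (QuadraticMap.polar g x y) = redv p (QuadraticMap.polar g x y') := by
  rw [QuadraticMap.polar_comm g x y, QuadraticMap.polar_comm g x y']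
  exact redv_polar_left p g x h

theorem exists_red (p : ℕ) [Fact p.Prime] {n r : ℕ}
    (g : QuadraticMap ℤ_[p] (Fin n → ℤ_[p]) (Fin r → ℤ_[p])) :
    ∃ (gb : (Fin n → ZMod p) → (Fin r → ZMod p))
      (Bb : (Fin n → ZMod p) →ₗ[ZMod p] (Fin n → ZMod p) →ₗ[ZMod p] (Fin r → ZMod p)),
      (∀ x y, gb (x + y) = gb x + gb y + Bb x y) ∧
      (∀ x, gb (redv p x) = redv p (g x)) ∧
      (∀ x y, Bb (redv p x) (redv p y) = redv p (QuadraticMap.polar g x y)) := by
  obtain ⟨s, hs⟩ : ∃ s : (Fin n → ZMod p) → (Fin n → ℤ_[p]), ∀ x, redv p (s x) = x :=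
    ⟨Function.surjInv (redv_surj p), Function.surjInv_eq (redv_surj p)⟩
  have hsc : ∀ c : ZMod p, ∃ a : ℤ_[p], PadicInt.toZMod a = c :=
    ZMod.ringHom_surjective (PadicInt.toZMod : ℤ_[p] →+* ZMod p)
  let Bb : (Fin n → ZMod p) →ₗ[ZMod p] (Fin n → ZMod p) →ₗ[ZMod p] (Fin r → ZMod p) :=
    LinearMap.mk₂ (ZMod p) (fun x y => redv p (QuadraticMap.polar g (s x) (s y)))
      (by
        intro x x' y
        have h : redv p (s (x + x')) = redv p (s x + s x') := by
          rw [redv_add, hs, hs, hs]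
        rw [redv_polar_left p g (s y) h, QuadraticMap.polar_add_left, redv_add])
      (by
        intro c x y
        obtain ⟨a, rfl⟩ := hsc c
        have h : redv p (s ((PadicInt.toZMod a : ZMod p) • x)) = redv p (a • s x) := by
          rw [redv_smul, hs, hs]
        rw [redv_polar_left p g (s y) h, QuadraticMap.polar_smul_left, redv_smul])
      (by
        intro x y y'
        have h : redv p (s (y + y')) = redv p (s y + s y') := by
          rw [redv_add, hs, hs, hs]
        rw [redv_polar_right p g (s x) h, QuadraticMap.polar_add_right, redv_add])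
      (by
        intro c x y
        obtain ⟨a, rfl⟩ := hsc c
        have h : redv p (s ((PadicInt.toZMod a : ZMod p) • y)) = redv p (a • s y) := by
          rw [redv_smul, hs, hs]
        rw [redv_polar_right p g (s x) h, QuadraticMap.polar_smul_right, redv_smul])
  have hBb : ∀ x y, Bb x y = redv p (QuadraticMap.polar g (s x) (s y)) := fun x y => rfl
  refine ⟨fun x => redv p (g (s x)), Bb, ?_, ?_, ?_⟩
  · intro x y
    have h : redv p (s (x + y)) = redv p (s x + s y) := by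
      rw [redv_add, hs, hs, hs]
    simp only
    rw [redv_g p g h, QuadraticMap.map_add (⇑g), redv_add, redv_add, hBb]
  · intro x
    exact redv_g p g (hs _)
  · intro x y
    rw [hBb, redv_polar_left p g _ (hs (redv p x)), redv_polar_right p g _ (hs (redv p y))]

end QSys
end

section

/-!
QF-12. Smith normal form over `ℤ_[p]`, sorted.

PROOF. `N = range φ` has rank `n` because `φ` is injective (`det φ ≠ 0`, `LinearMap.det_ne_zero...`, or work over
`ℤ_[p]` a domain). `Submodule.smithNormalForm` (over the PID `ℤ_[p]`) gives bases `bM` of `M = Fin n → ℤ_[p]`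
and `bN` of `N` with `bN i = a' i • bM i` (after identifying the index types; both have `n` elements), `a' i ≠ 0`,
`a' i = unit * p^(e i)` (`PadicInt.unitCoeff_spec`). So `x ∈ N ↔ ∀ i, a' i ∣ bM.repr x i ↔ ∀ i, p^(e i) ∣ bM.repr x i`.
`φ` is the composition of the isomorphism `M ≃ N` (`x ↦ φ x`) and the inclusion, so
`det φ = unit * ∏ a' i`: let `D : M → M` be the linear map with `D (bM i) = a' i • bM i`, then `range D = range φ`,
both injective, so `φ = D ∘ θ` with `θ` an automorphism, `det φ = det D * det θ`, `det θ` a unit,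
`det D = ∏ a' i` (`LinearMap.toMatrix` diagonal, `Matrix.det_diagonal`). The valuation is `∑ e i`
(`PadicInt.valuation_mul`, `Finset.prod` induction). Finally reorder the basis by `Tuple.sort e`
(`Basis.reindex`, `Tuple.monotone_sort`): the sum is unchanged.
-/

set_option autoImplicit false

open Module

namespace QSys

theorem val_unit (p : ℕ) [Fact p.Prime] {x : ℤ_[p]} (hx : IsUnit x) : x.valuation = 0 := by
  obtain ⟨y, hy⟩ := hx.exists_right_inv
  have hx0 : x ≠ 0 := by rintro rfl; simp at hy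
  have hy0 : y ≠ 0 := by rintro rfl; simp at hy
  have h := congrArg PadicInt.valuation hy
  rw [PadicInt.valuation_mul hx0 hy0, PadicInt.valuation_one] at h
  omega

theorem val_prod (p : ℕ) [Fact p.Prime] {ι : Type*} (s : Finset ι) (c : ι → ℤ_[p])
    (hc : ∀ i ∈ s, c i ≠ 0) : (∏ i ∈ s, c i).valuation = ∑ i ∈ s, (c i).valuation := by
  classical
  induction s using Finset.induction_on with
  | empty => simp
  | insert a s ha ih =>
    rw [Finset.prod_insert ha, Finset.sum_insert ha, PadicInt.valuation_mul, ih]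
    · intro i hi
      exact hc i (Finset.mem_insert_of_mem hi)
    · exact hc a (Finset.mem_insert_self _ _)
    · rw [Finset.prod_ne_zero_iff]
      intro i hi
      exact hc i (Finset.mem_insert_of_mem hi)

theorem smith_aux (p : ℕ) [Fact p.Prime] {n : ℕ} (φ : (Fin n → ℤ_[p]) →ₗ[ℤ_[p]] (Fin n → ℤ_[p]))
    (hφ : LinearMap.det φ ≠ 0) :
    ∃ (b : Basis (Fin n) ℤ_[p] (Fin n → ℤ_[p])) (c : Fin n → ℤ_[p]), (∀ i, c i ≠ 0) ∧
      (∀ x, x ∈ LinearMap.range φ ↔ ∀ i, c i ∣ b.repr x i) ∧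
      (LinearMap.det φ).valuation = ∑ i, (c i).valuation := by
  classical
  have hker : LinearMap.ker φ = ⊥ := by
    by_contra h
    exact hφ (LinearMap.det_eq_zero_iff_ker_ne_bot.mpr h)
  have hinj : Function.Injective φ := LinearMap.ker_eq_bot.mp hker
  have hrank := LinearMap.finrank_range_of_inj hinj
  obtain ⟨b, c, ab, hab⟩ := Submodule.exists_smith_normal_form_of_rank_eq
    (N := LinearMap.range φ) (Pi.basisFun ℤ_[p] (Fin n)) hrank
  have hc : ∀ i, c i ≠ 0 := by
    intro i hi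
    have h := hab i
    rw [hi, zero_smul] at h
    exact ab.ne_zero i (Subtype.coe_injective (by simpa using h))
  let e1 : (Fin n → ℤ_[p]) ≃ₗ[ℤ_[p]] LinearMap.range φ := LinearEquiv.ofInjective φ hinj
  let e2 : (Fin n → ℤ_[p]) ≃ₗ[ℤ_[p]] LinearMap.range φ := b.equiv ab (Equiv.refl _)
  let θ : (Fin n → ℤ_[p]) ≃ₗ[ℤ_[p]] (Fin n → ℤ_[p]) := e1.trans e2.symm
  let D : (Fin n → ℤ_[p]) →ₗ[ℤ_[p]] (Fin n → ℤ_[p]) :=
    (Submodule.subtype (LinearMap.range φ)).comp e2.toLinearMap
  have hDb : ∀ i, D (b i) = c i • b i := by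
    intro i
    have h1 : D (b i) = ((e2 (b i) : LinearMap.range φ) : Fin n → ℤ_[p]) := rfl
    have h2 : e2 (b i) = ab i := by
      simp [e2]
    rw [h1, h2, hab i]
  have hφD : φ = D ∘ₗ θ.toLinearMap := by
    apply LinearMap.ext
    intro x
    have h1 : (D ∘ₗ θ.toLinearMap) x = ((e2 (e2.symm (e1 x)) : LinearMap.range φ) : Fin n → ℤ_[p]) := rfl
    rw [h1, LinearEquiv.apply_symm_apply]
    rfl
  have hDmat : LinearMap.toMatrix b b D = Matrix.diagonal c := by
    ext i j
    rw [LinearMap.toMatrix_apply, hDb, map_smul, Basis.repr_self]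
    by_cases hij : i = j
    · subst hij
      simp
    · rw [Matrix.diagonal_apply_ne _ hij]
      simp [Finsupp.single_apply, Ne.symm hij]
  have hdetD : LinearMap.det D = ∏ i, c i := by
    rw [← LinearMap.det_toMatrix b, hDmat, Matrix.det_diagonal]
  have hDrepr : ∀ y i, b.repr (D y) i = c i * b.repr y i := by
    intro y i
    have h := LinearMap.toMatrix_mulVec_repr b b D y
    rw [hDmat] at h
    have h' := congrFun h i
    rw [Matrix.mulVec_diagonal] at h'
    exact h'.symm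
  refine ⟨b, c, hc, ?_, ?_⟩
  · intro x
    constructor
    · rintro ⟨y, rfl⟩ i
      rw [hφD]
      have h1 : (D ∘ₗ θ.toLinearMap) y = D (θ y) := rfl
      rw [h1, hDrepr]
      exact Dvd.intro _ rfl
    · intro h
      choose q hq using h
      have hx : x = D (∑ i, q i • b i) := by
        rw [map_sum]
        have h1 : ∀ i, D (q i • b i) = b.repr x i • b i := by
          intro i
          rw [map_smul, hDb, smul_smul, hq i, mul_comm]
        simp_rw [h1]
        exact (b.sum_repr x).symm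
      refine ⟨θ.symm (∑ i, q i • b i), ?_⟩
      rw [hφD]
      have h1 : (D ∘ₗ θ.toLinearMap) (θ.symm (∑ i, q i • b i)) = D (θ (θ.symm (∑ i, q i • b i))) := rfl
      rw [h1, LinearEquiv.apply_symm_apply]
      exact hx.symm
  · have hdet : LinearMap.det φ = LinearMap.det D * LinearMap.det θ.toLinearMap := by
      conv_lhs => rw [hφD]
      exact LinearMap.det_comp _ _
    have hu : IsUnit (LinearMap.det θ.toLinearMap) := θ.isUnit_det'
    have hp0 : (∏ i, c i) ≠ 0 := by
      rw [Finset.prod_ne_zero_iff]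
      intro i _
      exact hc i
    rw [hdet, hdetD, PadicInt.valuation_mul hp0 hu.ne_zero, val_unit p hu, add_zero,
      val_prod p _ _ (fun i _ => hc i)]

theorem smith (p : ℕ) [Fact p.Prime] {n : ℕ} (φ : (Fin n → ℤ_[p]) →ₗ[ℤ_[p]] (Fin n → ℤ_[p]))
    (hφ : LinearMap.det φ ≠ 0) :
    ∃ (u : Basis (Fin n) ℤ_[p] (Fin n → ℤ_[p])) (a : Fin n → ℕ), Monotone a ∧
      (∀ x, x ∈ LinearMap.range φ ↔ ∀ i, (p : ℤ_[p]) ^ (a i) ∣ u.repr x i) ∧
      (LinearMap.det φ).valuation = ∑ i, a i := by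
  classical
  obtain ⟨b, c, hc, hmem, hdet⟩ := smith_aux p φ hφ
  set v : Fin n → ℕ := fun i => (c i).valuation with hv
  let σ := Tuple.sort v
  refine ⟨b.reindex σ.symm, v ∘ σ, Tuple.monotone_sort v, ?_, ?_⟩
  · intro x
    rw [hmem x]
    have key : ∀ i (z : ℤ_[p]), c i ∣ z ↔ (p : ℤ_[p]) ^ (v i) ∣ z := by
      intro i z
      have h1 := PadicInt.unitCoeff_spec (hc i)
      conv_lhs => rw [h1]
      exact Units.mul_left_dvd
    constructor
    · intro h i
      have h1 := (key _ _).mp (h (σ i))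
      simpa using h1
    · intro h i
      have h1 := h (σ.symm i)
      rw [key]
      simpa using h1
  · rw [hdet]
    exact (Equiv.sum_comp σ v).symm

end QSys
end

section

/-!
QF-15. The energy of a triple is bounded (Lemma 6 of the paper).

PROOF. If `r = 0` then `det ψ = 1` and everything is `0 ≤ ...`. Let `r ≥ 1` (and `K ≥ 1`; if `K = 0` the left side
is `0`). Take `u`, `a` from `smith` for `φ` and `t`, `b` from `smith` for `ψ`.
CLAIM: for `j < r`: `b j ≤ 2 * a (K * j) + m` (`K * j < K * r`). Suppose not, `A = a (K * j)`, `2A + m < b j`. Let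
`θ : (Fin (K * j + 1) → ℤ_[p]) → (Fin (K * r) → ℤ_[p])` be the linear map `c ↦ ∑ i, c i • u i` (the first `K j + 1` basis
vectors, `Fin.castLE`), injective, and `h c = fun i : Fin j => t.repr (f (θ c)) i` (quadratic:
`f.comp θ` followed by the linear map, `LinearMap.compQuadraticMap`). By `hP` there is `c ≠ 0` with `h c = 0`. Dividing
`c` by the largest power of `p` dividing all its coordinates (`h (p • c') = p^2 • h c'`) we may assume that some
`c i` is not divisible by `p`. Let `x = θ c`; some coordinate of `x` is not divisible by `p` (otherwise `x = p • x'`,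
`u.repr x = p • u.repr x'`, so all `c i` are divisible by `p`). `p^A • x` has `u`-coordinates `p^A c i` for `i ≤ K j`
and `0` otherwise, and `a i ≤ A` for `i ≤ K j` (monotone), so `p^A • x ∈ range φ`: `p^A • x = φ z`. Then
`p^(2A) • f x = f (φ z) = ψ (g z) ∈ range ψ`, so `p^(b i) ∣ p^(2A) * t.repr (f x) i` for all `i`; for `i ≥ j` we have
`b i ≥ b j ≥ 2A + m`, so `p^m ∣ t.repr (f x) i`; for `i < j` it is `0`. So all `t`-coordinates of `f x` are divisible by
`p^m`, hence `f x = p^m • w` and `p^m ∣ f x k` for all `k`: contradiction with `hm`.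
SUM: `K * ∑_j b j ≤ 2 * ∑_j K * a (K j) + K * r * m` and `K * a (K j) ≤ ∑_{i = K j}^{K j + K - 1} a i` (monotone), sum
over `j`: `∑_j K * a (K j) ≤ ∑_i a i` (`finProdFinEquiv`, or `Finset.sum_range` and `Finset.sum_range` block induction).
-/

set_option autoImplicit false

namespace QSys

theorem BoundE_primitive (p : ℕ) [Fact p.Prime] {k : ℕ} (c : Fin k → ℤ_[p]) (hc : c ≠ 0) :
    ∃ (e : ℕ) (c' : Fin k → ℤ_[p]), c = (p : ℤ_[p]) ^ e • c' ∧ ∃ i, ¬ (p : ℤ_[p]) ∣ c' i := by
  classical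
  obtain ⟨i0, hi0⟩ : ∃ i, c i ≠ 0 := by
    by_contra hcon
    push Not at hcon
    exact hc (funext hcon)
  have hbd : ∀ e : ℕ, (p : ℤ_[p]) ^ e ∣ c i0 → e ≤ (c i0).valuation := by
    intro e he
    obtain ⟨w, hw⟩ := he
    have hw0 : w ≠ 0 := by
      rintro rfl
      exact hi0 (by rw [hw, mul_zero])
    have hp0 : ((p : ℤ_[p])) ^ e ≠ 0 := by
      apply pow_ne_zero
      exact_mod_cast (Fact.out : p.Prime).ne_zero
    rw [hw, PadicInt.valuation_p_pow_mul _ _ hw0]
    exact Nat.le_add_right _ _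
  let P : ℕ → Prop := fun e => ∀ i, (p : ℤ_[p]) ^ e ∣ c i
  have hP0 : P 0 := fun i => by simp
  let e := Nat.findGreatest P (c i0).valuation
  have he : P e := Nat.findGreatest_spec (P := P) (Nat.zero_le _) hP0
  choose c' hc' using he
  refine ⟨e, c', funext fun i => by simpa using hc' i, ?_⟩
  by_contra hcon
  push Not at hcon
  have hP1 : P (e + 1) := by
    intro i
    rw [hc' i, pow_succ]
    exact mul_dvd_mul_left _ (hcon i)
  have h1 : e + 1 ≤ (c i0).valuation := hbd _ (hP1 i0)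
  have h2 : e + 1 ≤ e := Nat.le_findGreatest h1 hP1
  omega

theorem BoundE_sum (K r : ℕ) (a : Fin (K * r) → ℕ) (ha : Monotone a) (hK : 0 < K) :
    ∑ j : Fin r, K * a ⟨K * j, Nat.mul_lt_mul_of_pos_left j.2 hK⟩ ≤ ∑ i, a i := by
  classical
  let a' : ℕ → ℕ := fun i => if h : i < K * r then a ⟨i, h⟩ else 0
  have key : ∀ s ≤ r, ∑ j ∈ Finset.range s, K * a' (K * j) ≤ ∑ i ∈ Finset.range (K * s), a' i := by
    intro s
    induction s with
    | zero => intro _; simp
    | succ s ih =>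
      intro hs
      have h1 := ih (by omega)
      rw [Finset.sum_range_succ, Nat.mul_succ, Finset.sum_range_add]
      refine add_le_add h1 ?_
      have h2 : ∀ x ∈ Finset.range K, a' (K * s) ≤ a' (K * s + x) := by
        intro x hx
        rw [Finset.mem_range] at hx
        have hlt : K * s + x < K * r := by
          calc K * s + x < K * s + K := by omega
            _ = K * (s + 1) := by ring
            _ ≤ K * r := Nat.mul_le_mul_left _ hs
        have hlt' : K * s < K * r := by omega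
        simp only [a', dif_pos hlt, dif_pos hlt']
        apply ha
        simp
      calc K * a' (K * s) = ∑ x ∈ Finset.range K, a' (K * s) := by simp
        _ ≤ _ := Finset.sum_le_sum h2
  have h3 := key r le_rfl
  rw [Finset.sum_range, Finset.sum_range] at h3
  have h4 : ∑ i : Fin (K * r), a' i = ∑ i, a i := by
    apply Finset.sum_congr rfl
    intro i _
    simp only [a', dif_pos i.2]
  have h5 : ∑ j : Fin r, K * a' (K * j) = ∑ j : Fin r, K * a ⟨K * j, Nat.mul_lt_mul_of_pos_left j.2 hK⟩ := by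
    apply Finset.sum_congr rfl
    intro j _
    have : K * (j : ℕ) < K * r := Nat.mul_lt_mul_of_pos_left j.2 hK
    simp only [a', dif_pos this]
  rw [h4, h5] at h3
  exact h3

theorem BoundE_claim (p : ℕ) [Fact p.Prime] (K r m : ℕ) (hK : 0 < K)
    (f : QuadraticMap ℤ_[p] (Fin (K * r) → ℤ_[p]) (Fin r → ℤ_[p]))
    (hm : ∀ x : Fin (K * r) → ℤ_[p], (∃ i, ¬ (p : ℤ_[p]) ∣ x i) → ∃ k, ¬ (p : ℤ_[p]) ^ m ∣ f x k)
    (hP : ∀ j < r, ∀ h : QuadraticMap ℤ_[p] (Fin (K * j + 1) → ℤ_[p]) (Fin j → ℤ_[p]),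
      ∃ x, x ≠ 0 ∧ h x = 0)
    (φ : (Fin (K * r) → ℤ_[p]) →ₗ[ℤ_[p]] (Fin (K * r) → ℤ_[p]))
    (ψ : (Fin r → ℤ_[p]) →ₗ[ℤ_[p]] (Fin r → ℤ_[p]))
    (g : QuadraticMap ℤ_[p] (Fin (K * r) → ℤ_[p]) (Fin r → ℤ_[p]))
    (h : ∀ x, ψ (g x) = f (φ x))
    (u : Module.Basis (Fin (K * r)) ℤ_[p] (Fin (K * r) → ℤ_[p])) (a : Fin (K * r) → ℕ) (ha : Monotone a)
    (hu : ∀ x, x ∈ LinearMap.range φ ↔ ∀ i, (p : ℤ_[p]) ^ (a i) ∣ u.repr x i)
    (t : Module.Basis (Fin r) ℤ_[p] (Fin r → ℤ_[p])) (b : Fin r → ℕ) (hb : Monotone b)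
    (ht : ∀ x, x ∈ LinearMap.range ψ ↔ ∀ i, (p : ℤ_[p]) ^ (b i) ∣ t.repr x i)
    (j : Fin r) : b j ≤ 2 * a ⟨K * j, Nat.mul_lt_mul_of_pos_left j.2 hK⟩ + m := by
  classical
  by_contra hcon
  push Not at hcon
  have hlt : K * (j : ℕ) < K * r := Nat.mul_lt_mul_of_pos_left j.2 hK
  set A := a ⟨K * j, hlt⟩ with hA
  let θ : (Fin (K * j + 1) → ℤ_[p]) →ₗ[ℤ_[p]] (Fin (K * r) → ℤ_[p]) :=
    u.equivFun.symm.toLinearMap ∘ₗ
      (LinearMap.pi fun i : Fin (K * r) => if h : (i : ℕ) < K * j + 1 then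
        (LinearMap.proj (⟨i, h⟩ : Fin (K * j + 1)) : (Fin (K * j + 1) → ℤ_[p]) →ₗ[ℤ_[p]] ℤ_[p]) else 0)
  have hθ1 : ∀ (c : Fin (K * j + 1) → ℤ_[p]) (i : Fin (K * r)) (hi : (i : ℕ) < K * j + 1),
      u.repr (θ c) i = c ⟨i, hi⟩ := by
    intro c i hi
    rw [← Module.Basis.equivFun_apply]
    simp only [θ, LinearMap.comp_apply, LinearEquiv.coe_coe, LinearEquiv.apply_symm_apply, LinearMap.pi_apply,
      dif_pos hi, LinearMap.proj_apply]
  have hθ2 : ∀ (c : Fin (K * j + 1) → ℤ_[p]) (i : Fin (K * r)) (hi : ¬ (i : ℕ) < K * j + 1),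
      u.repr (θ c) i = 0 := by
    intro c i hi
    rw [← Module.Basis.equivFun_apply]
    simp only [θ, LinearMap.comp_apply, LinearEquiv.coe_coe, LinearEquiv.apply_symm_apply, LinearMap.pi_apply,
      dif_neg hi, LinearMap.zero_apply]
  let L : (Fin r → ℤ_[p]) →ₗ[ℤ_[p]] (Fin (j : ℕ) → ℤ_[p]) :=
    LinearMap.pi fun i : Fin (j : ℕ) => t.coord (Fin.castLE j.2.le i)
  let q : QuadraticMap ℤ_[p] (Fin (K * j + 1) → ℤ_[p]) (Fin (j : ℕ) → ℤ_[p]) := L.compQuadraticMap (f.comp θ)
  have hq : ∀ c i, q c i = t.repr (f (θ c)) (Fin.castLE j.2.le i) := by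
    intro c i
    simp [q, L]
  obtain ⟨c0, hc0, hqc0⟩ := hP j j.2 q
  obtain ⟨e, c, hce, i1, hi1⟩ := BoundE_primitive p c0 hc0
  have hp0 : (p : ℤ_[p]) ≠ 0 := by exact_mod_cast (Fact.out : p.Prime).ne_zero
  have hqc : ∀ i, q c i = 0 := by
    intro i
    have h1 : ((p : ℤ_[p]) ^ e * (p : ℤ_[p]) ^ e) • q c = 0 := by
      rw [← QuadraticMap.map_smul, ← hce, hqc0]
    have h2 := congrFun h1 i
    simp only [Pi.smul_apply, smul_eq_mul, Pi.zero_apply, mul_eq_zero, pow_eq_zero_iff'] at h2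
    rcases h2 with h2 | h2
    · rcases h2 with h2 | h2 <;> exact absurd h2.1 hp0
    · exact h2
  -- some coordinate of x is not divisible by p
  have hx : ∃ i, ¬ (p : ℤ_[p]) ∣ (θ c) i := by
    by_contra hx
    push Not at hx
    choose x' hx' using hx
    have hx2 : θ c = (p : ℤ_[p]) • x' := by
      funext i
      simpa using hx' i
    apply hi1
    have hi1lt : (i1 : ℕ) < K * r := by
      have := i1.2
      omega
    have h3 := hθ1 c ⟨i1, hi1lt⟩ i1.2
    rw [hx2, map_smul, Finsupp.smul_apply, smul_eq_mul] at h3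
    exact ⟨_, h3.symm⟩
  obtain ⟨k, hk⟩ := hm _ hx
  apply hk
  -- p^A x ∈ range φ
  have hAx : (p : ℤ_[p]) ^ A • θ c ∈ LinearMap.range φ := by
    rw [hu]
    intro i
    rw [map_smul, Finsupp.smul_apply, smul_eq_mul]
    by_cases hi : (i : ℕ) < K * j + 1
    · have h4 : a i ≤ A := by
        apply ha
        rw [Fin.le_def]
        show (i : ℕ) ≤ K * j
        omega
      exact Dvd.dvd.mul_right (pow_dvd_pow _ h4) _
    · rw [hθ2 c i hi, mul_zero]
      exact dvd_zero _
  obtain ⟨z, hz⟩ := hAx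
  have hz2 : ((p : ℤ_[p]) ^ A * (p : ℤ_[p]) ^ A) • f (θ c) ∈ LinearMap.range ψ := by
    refine ⟨g z, ?_⟩
    rw [h z, hz, QuadraticMap.map_smul]
  rw [ht] at hz2
  have hdiv : ∀ i, (p : ℤ_[p]) ^ m ∣ t.repr (f (θ c)) i := by
    intro i
    by_cases hi : (i : ℕ) < j
    · have h5 := hqc ⟨i, hi⟩
      rw [hq] at h5
      have h6 : (Fin.castLE j.2.le ⟨(i : ℕ), hi⟩ : Fin r) = i := by
        ext
        simp
      rw [h6] at h5
      rw [h5]
      exact dvd_zero _
    · have h5 := hz2 i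
      rw [map_smul, Finsupp.smul_apply, smul_eq_mul, ← pow_add] at h5
      have h6 : A + A + m ≤ b i := by
        have h7 : b j ≤ b i := by
          apply hb
          rw [Fin.le_def]
          omega
        omega
      have h8 : (p : ℤ_[p]) ^ (A + A + m) ∣ (p : ℤ_[p]) ^ (A + A) * t.repr (f (θ c)) i :=
        (pow_dvd_pow _ h6).trans h5
      rw [pow_add _ (A + A) m] at h8
      exact (mul_dvd_mul_iff_left (pow_ne_zero _ hp0)).1 h8
  choose w hw using hdiv
  have hfw : f (θ c) = (p : ℤ_[p]) ^ m • ∑ i, w i • t i := by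
    conv_lhs => rw [← t.sum_repr (f (θ c))]
    rw [Finset.smul_sum]
    apply Finset.sum_congr rfl
    intro i _
    rw [hw i, mul_smul]
  rw [hfw, Pi.smul_apply, smul_eq_mul]
  exact Dvd.intro _ rfl

theorem bound_energy (p : ℕ) [Fact p.Prime] (K r m : ℕ)
    (f : QuadraticMap ℤ_[p] (Fin (K * r) → ℤ_[p]) (Fin r → ℤ_[p]))
    (hm : ∀ x : Fin (K * r) → ℤ_[p], (∃ i, ¬ (p : ℤ_[p]) ∣ x i) → ∃ k, ¬ (p : ℤ_[p]) ^ m ∣ f x k)
    (hP : ∀ j < r, ∀ h : QuadraticMap ℤ_[p] (Fin (K * j + 1) → ℤ_[p]) (Fin j → ℤ_[p]),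
      ∃ x, x ≠ 0 ∧ h x = 0)
    (φ : (Fin (K * r) → ℤ_[p]) →ₗ[ℤ_[p]] (Fin (K * r) → ℤ_[p]))
    (ψ : (Fin r → ℤ_[p]) →ₗ[ℤ_[p]] (Fin r → ℤ_[p]))
    (g : QuadraticMap ℤ_[p] (Fin (K * r) → ℤ_[p]) (Fin r → ℤ_[p]))
    (hφ : LinearMap.det φ ≠ 0) (hψ : LinearMap.det ψ ≠ 0) (h : ∀ x, ψ (g x) = f (φ x)) :
    K * (LinearMap.det ψ).valuation ≤ 2 * (LinearMap.det φ).valuation + K * r * m := by
  rcases Nat.eq_zero_or_pos K with hK | hK
  · subst hK
    simp
  obtain ⟨u, a, ha, hu, hdu⟩ := smith p φ hφ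
  obtain ⟨t, b, hb, ht, hdt⟩ := smith p ψ hψ
  have hcl := BoundE_claim p K r m hK f hm hP φ ψ g h u a ha hu t b hb ht
  have hsum := BoundE_sum K r a ha hK
  rw [hdu, hdt]
  calc K * ∑ i, b i = ∑ j, K * b j := by rw [Finset.mul_sum]
    _ ≤ ∑ j : Fin r, K * (2 * a ⟨K * j, Nat.mul_lt_mul_of_pos_left j.2 hK⟩ + m) :=
      Finset.sum_le_sum fun j _ => Nat.mul_le_mul_left _ (hcl j)
    _ = 2 * ∑ j : Fin r, K * a ⟨K * j, Nat.mul_lt_mul_of_pos_left j.2 hK⟩ + K * r * m := by
      rw [Finset.mul_sum]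
      simp only [mul_add, Finset.sum_add_distrib, Finset.sum_const, Finset.card_univ, Fintype.card_fin, smul_eq_mul]
      congr 1
      · apply Finset.sum_congr rfl
        intro j _
        ring
      · ring
    _ ≤ 2 * ∑ i, a i + K * r * m := by
      have := Nat.mul_le_mul_left 2 hsum
      omega

end QSys
end

section

/-!
QF-13. For a subspace `U` of `F_p^n` there is an endomorphism of `ℤ_p^n` whose image is the full preimage of `U`;
the valuation of its determinant is the codimension of `U`.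
-/

set_option autoImplicit false

open Module

namespace QSys

private theorem exists_adapted {K : Type} [Field K] {n : ℕ} (U : Submodule K (Fin n → K)) :
    ∃ (e : Basis (Fin n) K (Fin n → K)) (S : Finset (Fin n)),
      S.card + finrank K U = n ∧ ∀ v, v ∈ U ↔ ∀ j ∈ S, e.repr v j = 0 := by
  classical
  obtain ⟨U', hU⟩ := Submodule.exists_isCompl U
  let b1 := finBasis K U
  let b2 := finBasis K U'
  have hd : finrank K U + finrank K U' = n := by
    rw [Submodule.finrank_add_eq_of_isCompl hU, finrank_fin_fun]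
  let b := (b1.prod b2).map (Submodule.prodEquivOfIsCompl U U' hU)
  let σ : Fin (finrank K U) ⊕ Fin (finrank K U') ≃ Fin n := finSumFinEquiv.trans (finCongr hd)
  have hrepr : ∀ v i, b.repr v i = (b1.prod b2).repr
      ((Submodule.prodEquivOfIsCompl U U' hU).symm v) i := fun v i => rfl
  have hU0 : ∀ v, v ∈ U ↔ ∀ i, b.repr v (Sum.inr i) = 0 := by
    intro v
    simp only [hrepr, Basis.prod_repr_inr]
    constructor
    · intro hv i
      have := Submodule.prodEquivOfIsCompl_symm_apply_left U U' hU ⟨v, hv⟩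
      have h2 : (Submodule.prodEquivOfIsCompl U U' hU).symm v = (⟨v, hv⟩, 0) := this
      rw [h2]
      simp
    · intro h
      have h2 : ((Submodule.prodEquivOfIsCompl U U' hU).symm v).2 = 0 := by
        apply b2.repr.injective
        ext i
        rw [h i]
        simp
      have h3 : v = Submodule.prodEquivOfIsCompl U U' hU
          ((Submodule.prodEquivOfIsCompl U U' hU).symm v) :=
        ((Submodule.prodEquivOfIsCompl U U' hU).apply_symm_apply v).symm
      rw [h3, Submodule.coe_prodEquivOfIsCompl', h2]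
      simp
  have hinj : Function.Injective (fun i : Fin (finrank K U') => σ (Sum.inr i)) := by
    intro i j h
    exact Sum.inr_injective (σ.injective h)
  refine ⟨b.reindex σ, Finset.univ.image (fun i : Fin (finrank K U') => σ (Sum.inr i)), ?_, ?_⟩
  · rw [Finset.card_image_of_injective _ hinj, Finset.card_univ, Fintype.card_fin]
    omega
  · intro v
    rw [hU0]
    simp only [Basis.repr_reindex_apply]
    constructor
    · intro h j hj
      simp only [Finset.mem_image, Finset.mem_univ, true_and] at hj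
      obtain ⟨i, rfl⟩ := hj
      rw [Equiv.symm_apply_apply]
      exact h i
    · intro h i
      have := h (σ (Sum.inr i)) (by simp)
      rw [Equiv.symm_apply_apply] at this
      exact this

theorem exists_lift_sub (p : ℕ) [Fact p.Prime] {n : ℕ} (U : Submodule (ZMod p) (Fin n → ZMod p)) :
    ∃ α : (Fin n → ℤ_[p]) →ₗ[ℤ_[p]] (Fin n → ℤ_[p]), LinearMap.det α ≠ 0 ∧
      (∀ x, x ∈ LinearMap.range α ↔ redv p x ∈ U) ∧
      (LinearMap.det α).valuation + finrank (ZMod p) U = n := by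
  classical
  obtain ⟨e, S, hS, hU⟩ := exists_adapted U
  have hE : ∀ j, ∃ E : Fin n → ℤ_[p], redv p E = e j := fun j => redv_surj p (e j)
  choose E hE using hE
  let M : Matrix (Fin n) (Fin n) ℤ_[p] := Matrix.of fun i j => E j i
  have hp0 : (p : ℤ_[p]) ≠ 0 := by exact_mod_cast (Fact.out : p.Prime).ne_zero
  -- the determinant of `M` is a unit
  have hMdet : IsUnit M.det := by
    have h1 : PadicInt.toZMod M.det = ((PadicInt.toZMod (p := p)).mapMatrix M).det :=
      RingHom.map_det _ _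
    have h2 : (PadicInt.toZMod (p := p)).mapMatrix M = (Pi.basisFun (ZMod p) (Fin n)).toMatrix e := by
      ext i j
      simp only [RingHom.mapMatrix_apply, Matrix.map_apply, M, Matrix.of_apply, Basis.toMatrix_apply,
        Pi.basisFun_repr]
      rw [← hE j]
      rfl
    have h3 : ((Pi.basisFun (ZMod p) (Fin n)).toMatrix e).det ≠ 0 := by
      have h4 := (Pi.basisFun (ZMod p) (Fin n)).toMatrix_mul_toMatrix_flip e
      intro h5
      have h6 := congrArg Matrix.det h4
      rw [Matrix.det_mul, h5, zero_mul, Matrix.det_one] at h6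
      exact zero_ne_one h6
    rw [h2] at h1
    by_contra hnu
    have h4 : M.det ∈ IsLocalRing.maximalIdeal ℤ_[p] := hnu
    rw [← PadicInt.ker_toZMod, RingHom.mem_ker] at h4
    exact h3 (h1.symm.trans h4)
  let d : Fin n → ℤ_[p] := fun j => if j ∈ S then (p : ℤ_[p]) else 1
  have hred : ∀ c : Fin n → ℤ_[p], ∀ j, e.repr (redv p (M.mulVec c)) j = PadicInt.toZMod (c j) := by
    intro c j
    have h1 : M.mulVec c = ∑ j, c j • E j := by
      funext i
      simp only [Matrix.mulVec, dotProduct, M, Matrix.of_apply, Finset.sum_apply, Pi.smul_apply,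
        smul_eq_mul]
      exact Finset.sum_congr rfl fun j _ => mul_comm _ _
    have h2 : redv p (M.mulVec c) = ∑ j, (PadicInt.toZMod (c j)) • e j := by
      rw [h1]
      have h3 : ∀ s : Finset (Fin n), redv p (∑ j ∈ s, c j • E j) =
          ∑ j ∈ s, (PadicInt.toZMod (c j)) • e j := by
        intro s
        induction s using Finset.induction_on with
        | empty =>
          simp only [Finset.sum_empty]
          funext i
          simp [redv]
        | insert a s ha ih =>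
          rw [Finset.sum_insert ha, Finset.sum_insert ha, redv_add, redv_smul, hE, ih]
      exact h3 Finset.univ
    rw [h2]
    rw [Basis.repr_sum_self]
  have hdet : LinearMap.det (Matrix.toLin' (M * Matrix.diagonal d)) =
      M.det * (p : ℤ_[p]) ^ S.card := by
    rw [LinearMap.det_toLin', Matrix.det_mul, Matrix.det_diagonal]
    congr 1
    simp only [d]
    rw [Finset.prod_ite, Finset.prod_const_one, mul_one, Finset.prod_const]
    congr 2
    ext j
    simp
  refine ⟨Matrix.toLin' (M * Matrix.diagonal d), ?_, ?_, ?_⟩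
  · rw [hdet]
    exact mul_ne_zero hMdet.ne_zero (pow_ne_zero _ hp0)
  · intro x
    have hker : ∀ a : ℤ_[p], PadicInt.toZMod a = 0 ↔ (p : ℤ_[p]) ∣ a := by
      intro a
      rw [← RingHom.mem_ker, PadicInt.ker_toZMod, PadicInt.maximalIdeal_eq_span_p,
        Ideal.mem_span_singleton]
    constructor
    · rintro ⟨y, rfl⟩
      rw [Matrix.toLin'_apply, ← Matrix.mulVec_mulVec, hU]
      intro j hj
      rw [hred, Matrix.mulVec_diagonal]
      simp only [d, if_pos hj, map_mul, map_natCast, CharP.cast_eq_zero, zero_mul]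
    · intro hx
      obtain ⟨c, rfl⟩ : ∃ c, M.mulVec c = x := by
        refine ⟨M⁻¹.mulVec x, ?_⟩
        rw [Matrix.mulVec_mulVec, Matrix.mul_nonsing_inv _ hMdet, Matrix.one_mulVec]
      rw [hU] at hx
      have hy : ∀ j, ∃ y : ℤ_[p], c j = d j * y := by
        intro j
        by_cases hj : j ∈ S
        · have h1 := hx j hj
          rw [hred, hker] at h1
          obtain ⟨y, hy⟩ := h1
          exact ⟨y, by simp only [d, if_pos hj]; exact hy⟩
        · exact ⟨c j, by simp [d, hj]⟩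
      choose y hy using hy
      refine ⟨y, ?_⟩
      rw [Matrix.toLin'_apply, ← Matrix.mulVec_mulVec]
      congr 1
      funext j
      rw [Matrix.mulVec_diagonal, hy j]
  · have h1 : (M.det).valuation = 0 := by
      obtain ⟨u, hu⟩ := hMdet
      have h2 : ((u : ℤ_[p]) * ((u⁻¹ : ℤ_[p]ˣ) : ℤ_[p])).valuation = 0 := by
        rw [Units.mul_inv, PadicInt.valuation_one]
      rw [PadicInt.valuation_mul u.ne_zero u⁻¹.ne_zero] at h2
      rw [← hu]
      omega
    rw [hdet, PadicInt.valuation_mul hMdet.ne_zero (pow_ne_zero _ hp0), h1, PadicInt.valuation_pow,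
      PadicInt.valuation_p, mul_one, zero_add]
    exact hS

end QSys
end

section

/-!
Theorem B1: the energy `n * v(det ψ) - 2 * r * v(det φ)` of a triple is bounded (`BoundE.lean` with `K` replaced by `n / r`).
-/

set_option autoImplicit false

namespace QSys

theorem BoundE2_lt (n r : ℕ) (hn : 0 < n) (j : Fin r) : n * (j : ℕ) / r < n := by
  have hr : 0 < r := lt_of_le_of_lt (Nat.zero_le _) j.2
  rw [Nat.div_lt_iff_lt_mul hr]
  exact Nat.mul_lt_mul_of_pos_left j.2 hn

theorem BoundE2_sum (n r : ℕ) (a : Fin n → ℕ) (ha : Monotone a) (hn : 0 < n) :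
    n * ∑ j : Fin r, a ⟨n * j / r, BoundE2_lt n r hn j⟩ ≤ r * ∑ i, a i := by
  classical
  rcases Nat.eq_zero_or_pos r with hr | hr
  · subst hr
    simp
  let a' : ℕ → ℕ := fun i => if h : i < n then a ⟨i, h⟩ else 0
  have hmono : ∀ i j, i ≤ j → j < n → a' i ≤ a' j := by
    intro i j hij hj
    have hi : i < n := lt_of_le_of_lt hij hj
    simp only [a', dif_pos hi, dif_pos hj]
    exact ha hij
  -- both sides are sums over `N < n * r`
  have h1 : ∑ N ∈ Finset.range (n * r), a' (N / r) = r * ∑ i ∈ Finset.range n, a' i := by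
    have key : ∀ s, ∑ N ∈ Finset.range (s * r), a' (N / r) = r * ∑ i ∈ Finset.range s, a' i := by
      intro s
      induction s with
      | zero => simp
      | succ s ih =>
        rw [Nat.succ_mul, Finset.sum_range_add, ih, Finset.sum_range_succ, Nat.mul_add]
        congr 1
        rw [Finset.sum_congr rfl (g := fun _ => a' s)]
        · rw [Finset.sum_const, Finset.card_range, smul_eq_mul]
        · intro x hx
          rw [Finset.mem_range] at hx
          congr 1
          rw [Nat.mul_comm s r, Nat.mul_add_div hr, Nat.div_eq_of_lt hx, Nat.add_zero]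
    exact key n
  have h2 : n * ∑ j ∈ Finset.range r, a' (n * j / r) ≤ ∑ N ∈ Finset.range (n * r), a' (N / r) := by
    have key : ∀ s ≤ r, n * ∑ j ∈ Finset.range s, a' (n * j / r) ≤
        ∑ N ∈ Finset.range (n * s), a' (N / r) := by
      intro s
      induction s with
      | zero => intro _; simp
      | succ s ih =>
        intro hs
        have h3 := ih (by omega)
        rw [Finset.sum_range_succ, Nat.mul_add, Nat.mul_succ, Finset.sum_range_add]
        refine add_le_add h3 ?_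
        have h4 : ∀ x ∈ Finset.range n, a' (n * s / r) ≤ a' ((n * s + x) / r) := by
          intro x hx
          rw [Finset.mem_range] at hx
          apply hmono
          · exact Nat.div_le_div_right (by omega)
          · rw [Nat.div_lt_iff_lt_mul hr]
            calc n * s + x < n * s + n := by omega
              _ = n * (s + 1) := by ring
              _ ≤ n * r := Nat.mul_le_mul_left _ hs
        calc n * a' (n * s / r) = ∑ x ∈ Finset.range n, a' (n * s / r) := by simp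
          _ ≤ _ := Finset.sum_le_sum h4
    exact key r le_rfl
  have h5 : ∑ i ∈ Finset.range n, a' i = ∑ i, a i := by
    rw [Finset.sum_range]
    apply Finset.sum_congr rfl
    intro i _
    simp only [a', dif_pos i.2]
  have h6 : ∑ j ∈ Finset.range r, a' (n * j / r) =
      ∑ j : Fin r, a ⟨n * j / r, BoundE2_lt n r hn j⟩ := by
    rw [Finset.sum_range]
    apply Finset.sum_congr rfl
    intro j _
    simp only [a', dif_pos (BoundE2_lt n r hn j)]
  rw [h1, h5, h6] at h2
  exact h2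

theorem BoundE2_claim (p : ℕ) [Fact p.Prime] (n r m : ℕ) (hn : 0 < n)
    (f : QuadraticMap ℤ_[p] (Fin n → ℤ_[p]) (Fin r → ℤ_[p]))
    (hm : ∀ x : Fin n → ℤ_[p], (∃ i, ¬ (p : ℤ_[p]) ∣ x i) → ∃ k, ¬ (p : ℤ_[p]) ^ m ∣ f x k)
    (hP : ∀ j < r, ∀ h : QuadraticMap ℤ_[p] (Fin (n * j / r + 1) → ℤ_[p]) (Fin j → ℤ_[p]),
      ∃ x, x ≠ 0 ∧ h x = 0)
    (φ : (Fin n → ℤ_[p]) →ₗ[ℤ_[p]] (Fin n → ℤ_[p]))
    (ψ : (Fin r → ℤ_[p]) →ₗ[ℤ_[p]] (Fin r → ℤ_[p]))
    (g : QuadraticMap ℤ_[p] (Fin n → ℤ_[p]) (Fin r → ℤ_[p]))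
    (h : ∀ x, ψ (g x) = f (φ x))
    (u : Module.Basis (Fin n) ℤ_[p] (Fin n → ℤ_[p])) (a : Fin n → ℕ) (ha : Monotone a)
    (hu : ∀ x, x ∈ LinearMap.range φ ↔ ∀ i, (p : ℤ_[p]) ^ (a i) ∣ u.repr x i)
    (t : Module.Basis (Fin r) ℤ_[p] (Fin r → ℤ_[p])) (b : Fin r → ℕ) (hb : Monotone b)
    (ht : ∀ x, x ∈ LinearMap.range ψ ↔ ∀ i, (p : ℤ_[p]) ^ (b i) ∣ t.repr x i)
    (j : Fin r) : b j ≤ 2 * a ⟨n * j / r, BoundE2_lt n r hn j⟩ + m := by
  classical
  by_contra hcon
  push Not at hcon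
  have hlt : n * (j : ℕ) / r < n := BoundE2_lt n r hn j
  set A := a ⟨n * j / r, hlt⟩ with hA
  let θ : (Fin (n * j / r + 1) → ℤ_[p]) →ₗ[ℤ_[p]] (Fin n → ℤ_[p]) :=
    u.equivFun.symm.toLinearMap ∘ₗ
      (LinearMap.pi fun i : Fin n => if h : (i : ℕ) < n * j / r + 1 then
        (LinearMap.proj (⟨i, h⟩ : Fin (n * j / r + 1)) : (Fin (n * j / r + 1) → ℤ_[p]) →ₗ[ℤ_[p]] ℤ_[p]) else 0)
  have hθ1 : ∀ (c : Fin (n * j / r + 1) → ℤ_[p]) (i : Fin n) (hi : (i : ℕ) < n * j / r + 1),
      u.repr (θ c) i = c ⟨i, hi⟩ := by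
    intro c i hi
    rw [← Module.Basis.equivFun_apply]
    simp only [θ, LinearMap.comp_apply, LinearEquiv.coe_coe, LinearEquiv.apply_symm_apply, LinearMap.pi_apply,
      dif_pos hi, LinearMap.proj_apply]
  have hθ2 : ∀ (c : Fin (n * j / r + 1) → ℤ_[p]) (i : Fin n) (hi : ¬ (i : ℕ) < n * j / r + 1),
      u.repr (θ c) i = 0 := by
    intro c i hi
    rw [← Module.Basis.equivFun_apply]
    simp only [θ, LinearMap.comp_apply, LinearEquiv.coe_coe, LinearEquiv.apply_symm_apply, LinearMap.pi_apply,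
      dif_neg hi, LinearMap.zero_apply]
  let L : (Fin r → ℤ_[p]) →ₗ[ℤ_[p]] (Fin (j : ℕ) → ℤ_[p]) :=
    LinearMap.pi fun i : Fin (j : ℕ) => t.coord (Fin.castLE j.2.le i)
  let q : QuadraticMap ℤ_[p] (Fin (n * j / r + 1) → ℤ_[p]) (Fin (j : ℕ) → ℤ_[p]) := L.compQuadraticMap (f.comp θ)
  have hq : ∀ c i, q c i = t.repr (f (θ c)) (Fin.castLE j.2.le i) := by
    intro c i
    simp [q, L]
  obtain ⟨c0, hc0, hqc0⟩ := hP j j.2 q
  obtain ⟨e, c, hce, i1, hi1⟩ := BoundE_primitive p c0 hc0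
  have hp0 : (p : ℤ_[p]) ≠ 0 := by exact_mod_cast (Fact.out : p.Prime).ne_zero
  have hqc : ∀ i, q c i = 0 := by
    intro i
    have h1 : ((p : ℤ_[p]) ^ e * (p : ℤ_[p]) ^ e) • q c = 0 := by
      rw [← QuadraticMap.map_smul, ← hce, hqc0]
    have h2 := congrFun h1 i
    simp only [Pi.smul_apply, smul_eq_mul, Pi.zero_apply, mul_eq_zero, pow_eq_zero_iff'] at h2
    rcases h2 with h2 | h2
    · rcases h2 with h2 | h2 <;> exact absurd h2.1 hp0
    · exact h2
  -- some coordinate of x is not divisible by p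
  have hx : ∃ i, ¬ (p : ℤ_[p]) ∣ (θ c) i := by
    by_contra hx
    push Not at hx
    choose x' hx' using hx
    have hx2 : θ c = (p : ℤ_[p]) • x' := by
      funext i
      simpa using hx' i
    apply hi1
    have hi1lt : (i1 : ℕ) < n := by
      have := i1.2
      omega
    have h3 := hθ1 c ⟨i1, hi1lt⟩ i1.2
    rw [hx2, map_smul, Finsupp.smul_apply, smul_eq_mul] at h3
    exact ⟨_, h3.symm⟩
  obtain ⟨k, hk⟩ := hm _ hx
  apply hk
  -- p^A x ∈ range φ
  have hAx : (p : ℤ_[p]) ^ A • θ c ∈ LinearMap.range φ := by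
    rw [hu]
    intro i
    rw [map_smul, Finsupp.smul_apply, smul_eq_mul]
    by_cases hi : (i : ℕ) < n * j / r + 1
    · have h4 : a i ≤ A := by
        apply ha
        rw [Fin.le_def]
        show (i : ℕ) ≤ n * j / r
        omega
      exact Dvd.dvd.mul_right (pow_dvd_pow _ h4) _
    · rw [hθ2 c i hi, mul_zero]
      exact dvd_zero _
  obtain ⟨z, hz⟩ := hAx
  have hz2 : ((p : ℤ_[p]) ^ A * (p : ℤ_[p]) ^ A) • f (θ c) ∈ LinearMap.range ψ := by
    refine ⟨g z, ?_⟩
    rw [h z, hz, QuadraticMap.map_smul]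
  rw [ht] at hz2
  have hdiv : ∀ i, (p : ℤ_[p]) ^ m ∣ t.repr (f (θ c)) i := by
    intro i
    by_cases hi : (i : ℕ) < j
    · have h5 := hqc ⟨i, hi⟩
      rw [hq] at h5
      have h6 : (Fin.castLE j.2.le ⟨(i : ℕ), hi⟩ : Fin r) = i := by
        ext
        simp
      rw [h6] at h5
      rw [h5]
      exact dvd_zero _
    · have h5 := hz2 i
      rw [map_smul, Finsupp.smul_apply, smul_eq_mul, ← pow_add] at h5
      have h6 : A + A + m ≤ b i := by
        have h7 : b j ≤ b i := by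
          apply hb
          rw [Fin.le_def]
          omega
        omega
      have h8 : (p : ℤ_[p]) ^ (A + A + m) ∣ (p : ℤ_[p]) ^ (A + A) * t.repr (f (θ c)) i :=
        (pow_dvd_pow _ h6).trans h5
      rw [pow_add _ (A + A) m] at h8
      exact (mul_dvd_mul_iff_left (pow_ne_zero _ hp0)).1 h8
  choose w hw using hdiv
  have hfw : f (θ c) = (p : ℤ_[p]) ^ m • ∑ i, w i • t i := by
    conv_lhs => rw [← t.sum_repr (f (θ c))]
    rw [Finset.smul_sum]
    apply Finset.sum_congr rfl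
    intro i _
    rw [hw i, mul_smul]
  rw [hfw, Pi.smul_apply, smul_eq_mul]
  exact Dvd.intro _ rfl

theorem bound_energy2 (p : ℕ) [Fact p.Prime] (n r m : ℕ) (hn : 0 < n)
    (f : QuadraticMap ℤ_[p] (Fin n → ℤ_[p]) (Fin r → ℤ_[p]))
    (hm : ∀ x : Fin n → ℤ_[p], (∃ i, ¬ (p : ℤ_[p]) ∣ x i) → ∃ k, ¬ (p : ℤ_[p]) ^ m ∣ f x k)
    (hP : ∀ j < r, ∀ h : QuadraticMap ℤ_[p] (Fin (n * j / r + 1) → ℤ_[p]) (Fin j → ℤ_[p]),
      ∃ x, x ≠ 0 ∧ h x = 0)
    (φ : (Fin n → ℤ_[p]) →ₗ[ℤ_[p]] (Fin n → ℤ_[p]))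
    (ψ : (Fin r → ℤ_[p]) →ₗ[ℤ_[p]] (Fin r → ℤ_[p]))
    (g : QuadraticMap ℤ_[p] (Fin n → ℤ_[p]) (Fin r → ℤ_[p]))
    (hφ : LinearMap.det φ ≠ 0) (hψ : LinearMap.det ψ ≠ 0) (h : ∀ x, ψ (g x) = f (φ x)) :
    n * (LinearMap.det ψ).valuation ≤ 2 * r * (LinearMap.det φ).valuation + n * r * m := by
  obtain ⟨u, a, ha, hu, hdu⟩ := smith p φ hφ
  obtain ⟨t, b, hb, ht, hdt⟩ := smith p ψ hψ
  have hcl := BoundE2_claim p n r m hn f hm hP φ ψ g h u a ha hu t b hb ht
  have hsum := BoundE2_sum n r a ha hn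
  rw [hdu, hdt]
  calc n * ∑ i, b i ≤ n * ∑ j : Fin r, (2 * a ⟨n * j / r, BoundE2_lt n r hn j⟩ + m) :=
      Nat.mul_le_mul_left _ (Finset.sum_le_sum fun j _ => hcl j)
    _ = 2 * (n * ∑ j : Fin r, a ⟨n * j / r, BoundE2_lt n r hn j⟩) + n * r * m := by
      rw [Finset.sum_add_distrib, ← Finset.mul_sum, Finset.sum_const, Finset.card_univ,
        Fintype.card_fin, smul_eq_mul]
      ring
    _ ≤ 2 * (r * ∑ i, a i) + n * r * m := by
      have := Nat.mul_le_mul_left 2 hsum
      omega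
    _ = _ := by ring

end QSys
end

section

/-!
Theorem B1: a triple of maximal energy is stable (`StarMax.lean` with general weights).

PROOF. Take `α` from `exists_lift_sub` for `U` and `β` for `Q`. For every `x`, `redv p (α x) ∈ U`, so
`redv p (g (α x)) = gb (redv p (α x)) ∈ Q` and `g (α x) ∈ range β`. `factor` gives `g'` with `β (g' x) = g (α x)`. Then
`(φ ∘ α, ψ ∘ β, g')` satisfies `ψ (β (g' x)) = ψ (g (α x)) = f (φ (α x))`, determinants multiply
(`LinearMap.det_comp`), valuations add (`PadicInt.valuation_mul`). Insert into `hmax`: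
`K * (v ψ + codim Q) + 2 * v φ ≤ K * v ψ + 2 * (v φ + codim U)`, so `K * codim Q ≤ 2 * codim U`
(`codim U + finrank U = n`, `codim Q + finrank Q = r`).
-/

set_option autoImplicit false

open Module

namespace QSys

theorem star_of_max2 (p : ℕ) [Fact p.Prime] (α' β' n r : ℕ)
    (f : QuadraticMap ℤ_[p] (Fin n → ℤ_[p]) (Fin r → ℤ_[p]))
    (φ : (Fin n → ℤ_[p]) →ₗ[ℤ_[p]] (Fin n → ℤ_[p])) (ψ : (Fin r → ℤ_[p]) →ₗ[ℤ_[p]] (Fin r → ℤ_[p]))
    (g : QuadraticMap ℤ_[p] (Fin n → ℤ_[p]) (Fin r → ℤ_[p]))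
    (hφ : LinearMap.det φ ≠ 0) (hψ : LinearMap.det ψ ≠ 0) (h : ∀ x, ψ (g x) = f (φ x))
    (hmax : ∀ (φ' : (Fin n → ℤ_[p]) →ₗ[ℤ_[p]] (Fin n → ℤ_[p]))
      (ψ' : (Fin r → ℤ_[p]) →ₗ[ℤ_[p]] (Fin r → ℤ_[p]))
      (g' : QuadraticMap ℤ_[p] (Fin n → ℤ_[p]) (Fin r → ℤ_[p])),
      LinearMap.det φ' ≠ 0 → LinearMap.det ψ' ≠ 0 → (∀ x, ψ' (g' x) = f (φ' x)) →
      α' * (LinearMap.det ψ').valuation + β' * (LinearMap.det φ).valuation ≤
        α' * (LinearMap.det ψ).valuation + β' * (LinearMap.det φ').valuation)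
    (gb : (Fin n → ZMod p) → (Fin r → ZMod p)) (hgb : ∀ x, gb (redv p x) = redv p (g x))
    (U : Submodule (ZMod p) (Fin n → ZMod p)) (Q : Submodule (ZMod p) (Fin r → ZMod p))
    (hUQ : ∀ x ∈ U, gb x ∈ Q) :
    α' * r + β' * finrank (ZMod p) U ≤ β' * n + α' * finrank (ZMod p) Q := by
  obtain ⟨α, hα0, hαU, hαv⟩ := exists_lift_sub p U
  obtain ⟨β, hβ0, hβQ, hβv⟩ := exists_lift_sub p Q
  have hr : ∀ x, g (α x) ∈ LinearMap.range β := by
    intro x
    rw [hβQ, ← hgb]
    exact hUQ _ ((hαU (α x)).1 ⟨x, rfl⟩)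
  obtain ⟨g', hg'⟩ := factor p g α β (inj_of_det p β hβ0) hr
  have hφα : LinearMap.det (φ ∘ₗ α) ≠ 0 := by
    rw [LinearMap.det_comp]; exact mul_ne_zero hφ hα0
  have hψβ : LinearMap.det (ψ ∘ₗ β) ≠ 0 := by
    rw [LinearMap.det_comp]; exact mul_ne_zero hψ hβ0
  have h1 := hmax (φ ∘ₗ α) (ψ ∘ₗ β) g' hφα hψβ (by
    intro x
    rw [LinearMap.comp_apply, LinearMap.comp_apply, hg' x, h])
  have h2 : (LinearMap.det (φ ∘ₗ α)).valuation
      = (LinearMap.det φ).valuation + (LinearMap.det α).valuation := by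
    rw [LinearMap.det_comp, PadicInt.valuation_mul hφ hα0]
  have h3 : (LinearMap.det (ψ ∘ₗ β)).valuation
      = (LinearMap.det ψ).valuation + (LinearMap.det β).valuation := by
    rw [LinearMap.det_comp, PadicInt.valuation_mul hψ hβ0]
  rw [h2, h3, Nat.mul_add, Nat.mul_add] at h1
  have h4 : α' * r = α' * (LinearMap.det β).valuation + α' * finrank (ZMod p) Q := by
    rw [← Nat.mul_add, hβv]
  have h5 : β' * n = β' * (LinearMap.det α).valuation + β' * finrank (ZMod p) U := by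
    rw [← Nat.mul_add, hαv]
  linarith

end QSys
end

section

/-!
QF-10. Compactness: a system without nontrivial zero is bounded away from zero on primitive vectors.

PROOF. Suppose that for every `m` there is `x` with some coordinate not divisible by `p` and
`p^m ∣ f x k` for all `k`. The sets `C m = {x | (∃ i, ¬ p ∣ x i) ∧ ∀ k, p^m ∣ f x k}` are nonempty, decreasing
and closed in the compact space `Fin n → ℤ_[p]` (closed: `f` is continuous, being a polynomial map, and the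
set of multiples of `p^m` is clopen; or directly: if `x ≡ x' mod p^(m+1)` then `x ∈ C m ↔ x' ∈ C m`, because
`f (x + p^(m+1) z) = f x + p^(2m+2) f z + p^(m+1) polar f x z`). A common point `x` is nonzero (some coordinate is
not divisible by `p`) and `f x k` is divisible by all `p^m`, so `f x = 0`: contradiction with `h`.
-/

set_option autoImplicit false

namespace QSys

theorem continuous_quad (p : ℕ) [Fact p.Prime] {n r : ℕ}
    (f : QuadraticMap ℤ_[p] (Fin n → ℤ_[p]) (Fin r → ℤ_[p])) : Continuous (fun x => f x) := by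
  obtain ⟨B, rfl⟩ := LinearMap.BilinMap.toQuadraticMap_surjective f
  have h1 : ∀ x : Fin n → ℤ_[p], (LinearMap.BilinMap.toQuadraticMap B) x
      = ∑ i, x i • (B (fun j => if i = j then 1 else 0)) x := by
    intro x
    rw [LinearMap.BilinMap.toQuadraticMap_apply]
    conv_lhs => rw [LinearMap.pi_apply_eq_sum_univ B x]
    simp [LinearMap.sum_apply]
  have h2 : (fun x => (LinearMap.BilinMap.toQuadraticMap B) x)
      = fun x : Fin n → ℤ_[p] => ∑ i, x i • (B (fun j => if i = j then 1 else 0)) x := funext h1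
  rw [h2]
  refine continuous_finset_sum _ fun i _ => ?_
  exact (continuous_apply i).smul (LinearMap.continuous_on_pi _)

theorem exists_level (p : ℕ) [Fact p.Prime] {n r : ℕ}
    (f : QuadraticMap ℤ_[p] (Fin n → ℤ_[p]) (Fin r → ℤ_[p])) (h : ∀ x, f x = 0 → x = 0) :
    ∃ m : ℕ, ∀ x : Fin n → ℤ_[p], (∃ i, ¬ (p : ℤ_[p]) ∣ x i) → ∃ k, ¬ (p : ℤ_[p]) ^ m ∣ f x k := by
  by_contra hcon
  push Not at hcon
  have hf := continuous_quad p f
  let C : ℕ → Set (Fin n → ℤ_[p]) :=
    fun m => {x | ∃ i, ¬ (p : ℤ_[p]) ∣ x i} ∩ {x | ∀ k, (p : ℤ_[p]) ^ m ∣ f x k}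
  have hA : IsClosed {x : Fin n → ℤ_[p] | ∃ i, ¬ (p : ℤ_[p]) ∣ x i} := by
    have : {x : Fin n → ℤ_[p] | ∃ i, ¬ (p : ℤ_[p]) ∣ x i} = ⋃ i, {x | 1 ≤ ‖x i‖} := by
      ext x
      simp only [Set.mem_setOf_eq, Set.mem_iUnion]
      refine exists_congr fun i => ?_
      rw [← PadicInt.norm_lt_one_iff_dvd, not_lt]
    rw [this]
    exact isClosed_iUnion_of_finite fun i =>
      isClosed_le continuous_const ((continuous_apply i).norm)
  have hB : ∀ m : ℕ, IsClosed {x : Fin n → ℤ_[p] | ∀ k, (p : ℤ_[p]) ^ m ∣ f x k} := by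
    intro m
    have : {x : Fin n → ℤ_[p] | ∀ k, (p : ℤ_[p]) ^ m ∣ f x k}
        = ⋂ k, {x | ‖f x k‖ ≤ (p : ℝ) ^ (-(m : ℤ))} := by
      ext x
      simp only [Set.mem_setOf_eq, Set.mem_iInter]
      refine forall_congr' fun k => ?_
      rw [PadicInt.norm_le_pow_iff_mem_span_pow, Ideal.mem_span_singleton]
    rw [this]
    exact isClosed_iInter fun k =>
      isClosed_le (((continuous_apply k).comp hf).norm) continuous_const
  have hne : (⋂ m, C m).Nonempty := by
    refine IsCompact.nonempty_iInter_of_sequence_nonempty_isCompact_isClosed C ?_ ?_ ?_ ?_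
    · intro m x hx
      refine ⟨hx.1, fun k => ?_⟩
      exact (pow_dvd_pow _ (Nat.le_succ m)).trans (hx.2 k)
    · intro m
      obtain ⟨x, hx, hx'⟩ := hcon m
      exact ⟨x, hx, hx'⟩
    · exact (hA.inter (hB 0)).isCompact
    · intro m
      exact hA.inter (hB m)
  obtain ⟨x, hx⟩ := hne
  rw [Set.mem_iInter] at hx
  have hx0 : f x = 0 := by
    funext k
    have hk : ∀ m : ℕ, ‖f x k‖ ≤ (p : ℝ) ^ (-(m : ℤ)) := by
      intro m
      rw [PadicInt.norm_le_pow_iff_mem_span_pow, Ideal.mem_span_singleton]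
      exact (hx m).2 k
    have hlim : Filter.Tendsto (fun m : ℕ => (p : ℝ) ^ (-(m : ℤ))) Filter.atTop (nhds 0) := by
      have hp1 : (1 : ℝ) < p := by exact_mod_cast (Fact.out : p.Prime).one_lt
      have := tendsto_pow_atTop_nhds_zero_of_lt_one (r := (p : ℝ)⁻¹) (by positivity)
        (inv_lt_one_of_one_lt₀ hp1)
      refine this.congr fun m => ?_
      rw [zpow_neg, zpow_natCast, inv_pow]
    have h0 : ‖f x k‖ ≤ 0 := ge_of_tendsto' hlim hk
    simpa using norm_le_zero_iff.mp h0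
  have hxz : x = 0 := h x hx0
  obtain ⟨i, hi⟩ := (hx 0).1
  apply hi
  rw [hxz]
  simp

end QSys
end
end

section

/-!
QF-19. Scaling a system of quadratic forms over `ℚ_[p]` to an integral system.

PROOF. Every `f i` is given by coefficients: for `x = ∑ x_j e_j`,
`f i x = ∑_j x_j^2 f i (e_j) + ∑_{j<l} x_j x_l polar (f i) e_j e_l` (e.g. `QuadraticMap.toBilin` of the standard basis,
`QuadraticMap.toQuadraticMap_toBilin`, or `QuadraticMap.map_sum`). Choose `N` such that `p^N` times all the finitely many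
coefficients are in `ℤ_[p]` (norm `≤ 1`; e.g. `norm (p^N) = p^(-N)` tends to `0`). Then for `x : Fin n → ℤ_[p]` (coerced)
`p^N * f i x` has norm `≤ 1`; define `F x i` as that element of `ℤ_[p]`. It is a quadratic map (homogeneity and
bilinearity of the polar form can be checked after the injective coercion to `ℚ_[p]`; `QuadraticMap.ofPolar`).
-/

set_option autoImplicit false

namespace QSys

/-- the quadratic form in coordinates -/
theorem form_coord {p : ℕ} [Fact p.Prime] {n : ℕ} (q : QuadraticForm ℚ_[p] (Fin n → ℚ_[p]))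
    (x : Fin n → ℚ_[p]) :
    q x = ∑ j, ∑ l, (2⁻¹ * QuadraticMap.polar q (Pi.single j 1) (Pi.single l 1)) * x j * x l := by
  have h1 : QuadraticMap.polarBilin q x x = 2 • q x := QuadraticMap.polar_self q x
  have hx : x = ∑ j, x j • (Pi.single j (1 : ℚ_[p]) : Fin n → ℚ_[p]) := by
    rw [← pi_eq_sum_univ' x]
  have h2 : QuadraticMap.polarBilin q x x =
      ∑ j, ∑ l, QuadraticMap.polar q (Pi.single j 1) (Pi.single l 1) * x j * x l := by
    conv_lhs => rw [hx]
    simp only [map_sum, LinearMap.sum_apply, map_smul, LinearMap.smul_apply, smul_eq_mul,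
      QuadraticMap.polarBilin_apply_apply, Finset.mul_sum]
    rw [Finset.sum_comm]
    refine Finset.sum_congr rfl fun j _ => Finset.sum_congr rfl fun l _ => ?_
    ring
  have h3 : q x = 2⁻¹ * QuadraticMap.polarBilin q x x := by
    rw [h1, nsmul_eq_mul]
    push_cast
    rw [← mul_assoc, inv_mul_cancel₀ (by norm_num), one_mul]
  rw [h3, h2, Finset.mul_sum]
  refine Finset.sum_congr rfl fun j _ => ?_
  rw [Finset.mul_sum]
  refine Finset.sum_congr rfl fun l _ => ?_
  ring

/-- a common denominator -/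
theorem exists_pow {p : ℕ} [Fact p.Prime] {ι : Type*} [Fintype ι] (c : ι → ℚ_[p]) :
    ∃ N : ℕ, ∀ i, ‖(p : ℚ_[p]) ^ N * c i‖ ≤ 1 := by
  have hp : (1 : ℝ) < p := by exact_mod_cast (Fact.out : p.Prime).one_lt
  obtain ⟨N, hN⟩ := pow_unbounded_of_one_lt (∑ i, ‖c i‖) hp
  refine ⟨N, fun i => ?_⟩
  rw [norm_mul, norm_pow, Padic.norm_p, inv_pow]
  have h1 : ‖c i‖ ≤ ∑ i, ‖c i‖ := Finset.single_le_sum (f := fun i => ‖c i‖)
    (fun i _ => norm_nonneg _) (Finset.mem_univ i)
  have h2 : (0 : ℝ) < (p : ℝ) ^ N := by positivity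
  rw [inv_mul_le_iff₀ h2, mul_one]
  linarith

/-- Scaling of a system of quadratic forms over `ℚ_[p]` to an integral system. -/
theorem exists_integral (p : ℕ) [Fact p.Prime] (r n : ℕ)
    (f : Fin r → QuadraticForm ℚ_[p] (Fin n → ℚ_[p])) :
    ∃ (N : ℕ) (F : QuadraticMap ℤ_[p] (Fin n → ℤ_[p]) (Fin r → ℤ_[p])),
      ∀ (x : Fin n → ℤ_[p]) (i : Fin r),
        ((F x i : ℤ_[p]) : ℚ_[p]) = (p : ℚ_[p]) ^ N * f i (fun j => ((x j : ℤ_[p]) : ℚ_[p])) := by
  obtain ⟨N, hN⟩ := exists_pow (p := p) (fun t : Fin r × Fin n × Fin n =>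
    2⁻¹ * QuadraticMap.polar (f t.1) (Pi.single t.2.1 1) (Pi.single t.2.2 1))
  let C : Fin r → Fin n → Fin n → ℤ_[p] := fun i j l => ⟨_, hN (i, j, l)⟩
  let B : (Fin n → ℤ_[p]) →ₗ[ℤ_[p]] (Fin n → ℤ_[p]) →ₗ[ℤ_[p]] (Fin r → ℤ_[p]) :=
    LinearMap.mk₂ ℤ_[p] (fun x y i => ∑ j, ∑ l, C i j l * x j * y l)
      (fun x x' y => by
        ext i
        simp only [Pi.add_apply, mul_add, add_mul, Finset.sum_add_distrib])
      (fun c x y => by
        ext i
        simp only [Pi.smul_apply, smul_eq_mul, Finset.mul_sum]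
        refine Finset.sum_congr rfl fun j _ => Finset.sum_congr rfl fun l _ => ?_
        ring)
      (fun x y y' => by
        ext i
        simp only [Pi.add_apply, mul_add, Finset.sum_add_distrib])
      (fun c x y => by
        ext i
        simp only [Pi.smul_apply, smul_eq_mul, Finset.mul_sum]
        refine Finset.sum_congr rfl fun j _ => Finset.sum_congr rfl fun l _ => ?_
        ring)
  refine ⟨N, LinearMap.BilinMap.toQuadraticMap B, fun x i => ?_⟩
  have h1 : LinearMap.BilinMap.toQuadraticMap B x i = ∑ j, ∑ l, C i j l * x j * x l := rfl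
  rw [h1, form_coord (f i), PadicInt.coe_sum, Finset.mul_sum]
  refine Finset.sum_congr rfl fun j _ => ?_
  rw [PadicInt.coe_sum, Finset.mul_sum]
  refine Finset.sum_congr rfl fun l _ => ?_
  rw [PadicInt.coe_mul, PadicInt.coe_mul]
  have h2 : ((C i j l : ℤ_[p]) : ℚ_[p]) = (p : ℚ_[p]) ^ N *
    (2⁻¹ * QuadraticMap.polar (f i) (Pi.single j 1) (Pi.single l 1)) := rfl
  rw [h2]
  ring

end QSys
end
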