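import Pool.Agent.Lib.MP_c77682_nt.Gauss

/-!
QF-6. Number of zeros of a system of quadratic functions in terms of the numbers of elements of low
rank in the family `TT B`.

PROOF. `g : V → W`, `B` its polar map. For `x ∈ V` and `l` in the dual `W*` of `W`,
`∑_{l ∈ W*} e (l (g x)) = p^{dim W}` if `g x = 0` and `0` otherwise (orthogonality; `W*` separates
points). So `p^{dim W} * #{x | g x = 0} = ∑_l S(l)`, `S(l) = ∑_x e (l (g x))`, and `gauss_bound` with
`h = l ∘ g`, `b = TT B l` gives `‖S(l)‖ ≤ p^{dim V - rk (TT B) l / 2}`; `S(0) = p^{dim V}`.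
* upper bound: `p^{dim W} * #zeros ≤ ∑_l p^{dim V - rk l / 2} = ∑_{ρ = 0}^{dim V} #{l | rk l = ρ}
  p^{dim V - ρ/2}` and `#{l | rk l = ρ} ≤ lowCard (TT B) ρ` (`rk ≤ dim V`).
* lower bound: the sum over `l ≠ 0` has norm `≤ ∑_{ρ = k}^{dim V} lowCard ρ * p^{dim V - ρ/2}` because
  every `l ≠ 0` has rank `≥ k`.
-/

set_option autoImplicit false
set_option linter.unusedSectionVars false

open Module

namespace QSys

variable (p : ℕ) [Fact p.Prime] {V W : Type} [AddCommGroup V] [Module (ZMod p) V]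
  [FiniteDimensional (ZMod p) V] [AddCommGroup W] [Module (ZMod p) W] [FiniteDimensional (ZMod p) W]

private theorem cnt_card_dual [Fintype (Dual (ZMod p) W)] :
    Fintype.card (Dual (ZMod p) W) = p ^ finrank (ZMod p) W := by
  rw [Module.card_eq_pow_finrank (K := ZMod p), ZMod.card, Subspace.dual_finrank_eq]

private theorem cnt_orth [Fintype (Dual (ZMod p) W)] [DecidableEq W] (w : W) :
    ∑ l : Dual (ZMod p) W, (ZMod.stdAddChar (l w) : ℂ) =
      if w = 0 then (p : ℂ) ^ finrank (ZMod p) W else 0 := by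
  split_ifs with h
  · subst h
    simp only [map_zero, AddChar.map_zero_eq_one, Finset.sum_const, Finset.card_univ,
      cnt_card_dual p, nsmul_eq_mul, mul_one]
    push_cast
    rfl
  · let ev : Dual (ZMod p) W →+ ZMod p := (Dual.eval (ZMod p) W w).toAddMonoidHom
    let ψ : AddChar (Dual (ZMod p) W) ℂ := (ZMod.stdAddChar (N := p)).compAddMonoidHom ev
    have hψ : ψ ≠ 1 := by
      intro h1
      obtain ⟨l, hl⟩ : ∃ l : Dual (ZMod p) W, l w ≠ 0 := by
        by_contra hc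
        push Not at hc
        exact h ((Module.forall_dual_apply_eq_zero_iff (ZMod p) w).1 hc)
      have h2 : ψ l = 1 := by rw [h1]; rfl
      have h3 : (ZMod.stdAddChar (l w) : ℂ) = ZMod.stdAddChar (0 : ZMod p) := by
        rw [AddChar.map_zero_eq_one]
        exact h2
      exact hl (ZMod.injective_stdAddChar h3)
    have := AddChar.sum_eq_zero_of_ne_one hψ
    exact this

private theorem cnt_main [Fintype V] [Fintype (Dual (ZMod p) W)] (g : V → W) :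
    (p : ℂ) ^ finrank (ZMod p) W * (Nat.card {x : V // g x = 0} : ℂ) =
      ∑ l : Dual (ZMod p) W, ∑ x : V, (ZMod.stdAddChar (l (g x)) : ℂ) := by
  classical
  rw [Finset.sum_comm]
  simp only [cnt_orth p]
  rw [← Finset.sum_filter, Finset.sum_const, nsmul_eq_mul, mul_comm, Nat.card_eq_fintype_card,
    Fintype.card_subtype]

private theorem cnt_S_bound [Fintype V] (g : V → W) (B : V →ₗ[ZMod p] V →ₗ[ZMod p] W)
    (hB : ∀ x y, g (x + y) = g x + g y + B x y) (l : Dual (ZMod p) W) :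
    ‖∑ x : V, (ZMod.stdAddChar (l (g x)) : ℂ)‖ ≤
      (p : ℝ) ^ ((finrank (ZMod p) V : ℝ) - (rk (TT B) l : ℝ) / 2) := by
  have := gauss_bound p (R := V) (fun x => l (g x)) (TT B l) (by
    intro x y
    simp only [hB, map_add]
    rfl)
  exact this

private theorem cnt_rk_le (B : V →ₗ[ZMod p] V →ₗ[ZMod p] W) (l : Dual (ZMod p) W) :
    rk (TT B) l ≤ finrank (ZMod p) V := by
  unfold rk
  exact LinearMap.finrank_range_le _

private theorem cnt_low [Fintype (Dual (ZMod p) W)] (B : V →ₗ[ZMod p] V →ₗ[ZMod p] W)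
    (s : Finset (Dual (ZMod p) W)) (I : Finset ℕ) (hI : ∀ l ∈ s, rk (TT B) l ∈ I) (f : ℕ → ℝ)
    (hf : ∀ n, 0 ≤ f n) :
    ∑ l ∈ s, f (rk (TT B) l) ≤ ∑ ρ ∈ I, (lowCard (TT B) ρ : ℝ) * f ρ := by
  classical
  calc ∑ l ∈ s, f (rk (TT B) l)
      ≤ ∑ l ∈ s, ∑ ρ ∈ I, (if rk (TT B) l ≤ ρ then f ρ else 0) := by
        refine Finset.sum_le_sum fun l hl => ?_
        have h1 : (if rk (TT B) l ≤ rk (TT B) l then f (rk (TT B) l) else 0) ≤
            ∑ ρ ∈ I, (if rk (TT B) l ≤ ρ then f ρ else 0) :=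
          Finset.single_le_sum (f := fun ρ => if rk (TT B) l ≤ ρ then f ρ else 0)
            (fun ρ _ => by
              split_ifs
              · exact hf ρ
              · exact le_refl _) (hI l hl)
        simpa using h1
    _ = ∑ ρ ∈ I, ∑ l ∈ s, (if rk (TT B) l ≤ ρ then f ρ else 0) := Finset.sum_comm
    _ ≤ ∑ ρ ∈ I, ∑ l : Dual (ZMod p) W, (if rk (TT B) l ≤ ρ then f ρ else 0) := by
        refine Finset.sum_le_sum fun ρ _ => ?_
        refine Finset.sum_le_sum_of_subset_of_nonneg (Finset.subset_univ _) fun l _ _ => ?_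
        split_ifs
        · exact hf ρ
        · exact le_refl _
    _ = ∑ ρ ∈ I, (lowCard (TT B) ρ : ℝ) * f ρ := by
        refine Finset.sum_congr rfl fun ρ _ => ?_
        rw [← Finset.sum_filter, Finset.sum_const, nsmul_eq_mul, lowCard,
          Nat.card_eq_fintype_card, Fintype.card_subtype]

private theorem cnt_finite_dual : Finite (Dual (ZMod p) W) :=
  Module.finite_of_finite (ZMod p)

theorem count_upper (g : V → W) (B : V →ₗ[ZMod p] V →ₗ[ZMod p] W)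
    (hB : ∀ x y, g (x + y) = g x + g y + B x y) :
    (Nat.card {x : V // g x = 0} : ℝ) ≤
      (p : ℝ) ^ ((finrank (ZMod p) V : ℝ) - (finrank (ZMod p) W : ℝ)) *
        ∑ ρ ∈ Finset.range (finrank (ZMod p) V + 1), (lowCard (TT B) ρ : ℝ) * (p : ℝ) ^ (-(ρ : ℝ) / 2) := by
  have : Finite V := Module.finite_of_finite (ZMod p)
  have : Finite (Dual (ZMod p) W) := cnt_finite_dual p
  have : Fintype V := Fintype.ofFinite V
  have : Fintype (Dual (ZMod p) W) := Fintype.ofFinite _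
  have hp0 : (0 : ℝ) < p := by exact_mod_cast (Fact.out : p.Prime).pos
  set D : ℝ := (finrank (ZMod p) V : ℝ) with hD
  set E : ℝ := (finrank (ZMod p) W : ℝ) with hE
  have hpE : (0 : ℝ) < (p : ℝ) ^ E := Real.rpow_pos_of_pos hp0 _
  have hmain := cnt_main p g
  have hn : (p : ℝ) ^ E * (Nat.card {x : V // g x = 0} : ℝ) =
      ‖∑ l : Dual (ZMod p) W, ∑ x : V, (ZMod.stdAddChar (l (g x)) : ℂ)‖ := by
    rw [← hmain, norm_mul, norm_pow, Complex.norm_natCast, Complex.norm_natCast, hE,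
      Real.rpow_natCast]
  have h1 : ‖∑ l : Dual (ZMod p) W, ∑ x : V, (ZMod.stdAddChar (l (g x)) : ℂ)‖ ≤
      ∑ l : Dual (ZMod p) W, (p : ℝ) ^ (D - (rk (TT B) l : ℝ) / 2) :=
    (norm_sum_le _ _).trans (Finset.sum_le_sum fun l _ => cnt_S_bound p g B hB l)
  have h2 : ∑ l : Dual (ZMod p) W, (p : ℝ) ^ (D - (rk (TT B) l : ℝ) / 2) ≤
      ∑ ρ ∈ Finset.range (finrank (ZMod p) V + 1),
        (lowCard (TT B) ρ : ℝ) * (p : ℝ) ^ (D - (ρ : ℝ) / 2) :=
    cnt_low p B Finset.univ _ (fun l _ => Finset.mem_range.2 (Nat.lt_succ_of_le (cnt_rk_le p B l)))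
      (fun ρ => (p : ℝ) ^ (D - (ρ : ℝ) / 2)) (fun n => (Real.rpow_pos_of_pos hp0 _).le)
  have h3 : (p : ℝ) ^ E * ((p : ℝ) ^ (D - E) *
        ∑ ρ ∈ Finset.range (finrank (ZMod p) V + 1), (lowCard (TT B) ρ : ℝ) * (p : ℝ) ^ (-(ρ : ℝ) / 2)) =
      ∑ ρ ∈ Finset.range (finrank (ZMod p) V + 1),
        (lowCard (TT B) ρ : ℝ) * (p : ℝ) ^ (D - (ρ : ℝ) / 2) := by
    rw [← mul_assoc, ← Real.rpow_add hp0, Finset.mul_sum]
    refine Finset.sum_congr rfl fun ρ _ => ?_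
    have : (p : ℝ) ^ (D - (ρ : ℝ) / 2) = (p : ℝ) ^ (E + (D - E)) * (p : ℝ) ^ (-(ρ : ℝ) / 2) := by
      rw [← Real.rpow_add hp0]
      congr 1
      ring
    rw [this]
    ring
  refine le_of_mul_le_mul_left ?_ hpE
  rw [h3, hn]
  exact h1.trans h2

theorem count_lower (g : V → W) (B : V →ₗ[ZMod p] V →ₗ[ZMod p] W)
    (hB : ∀ x y, g (x + y) = g x + g y + B x y) (k : ℕ)
    (hk : ∀ l : Dual (ZMod p) W, l ≠ 0 → k ≤ rk (TT B) l) :
    (p : ℝ) ^ ((finrank (ZMod p) V : ℝ) - (finrank (ZMod p) W : ℝ)) *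
        (1 - ∑ ρ ∈ Finset.Icc k (finrank (ZMod p) V),
          (lowCard (TT B) ρ : ℝ) * (p : ℝ) ^ (-(ρ : ℝ) / 2)) ≤
      (Nat.card {x : V // g x = 0} : ℝ) := by
  classical
  have : Finite V := Module.finite_of_finite (ZMod p)
  have : Finite (Dual (ZMod p) W) := cnt_finite_dual p
  have : Fintype V := Fintype.ofFinite V
  have : Fintype (Dual (ZMod p) W) := Fintype.ofFinite _
  have hp0 : (0 : ℝ) < p := by exact_mod_cast (Fact.out : p.Prime).pos
  set D : ℝ := (finrank (ZMod p) V : ℝ) with hD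
  set E : ℝ := (finrank (ZMod p) W : ℝ) with hE
  have hpE : (0 : ℝ) < (p : ℝ) ^ E := Real.rpow_pos_of_pos hp0 _
  have hmain := cnt_main p g
  have hn : (p : ℝ) ^ E * (Nat.card {x : V // g x = 0} : ℝ) =
      ‖∑ l : Dual (ZMod p) W, ∑ x : V, (ZMod.stdAddChar (l (g x)) : ℂ)‖ := by
    rw [← hmain, norm_mul, norm_pow, Complex.norm_natCast, Complex.norm_natCast, hE,
      Real.rpow_natCast]
  have h0 : ∑ x : V, (ZMod.stdAddChar ((0 : Dual (ZMod p) W) (g x)) : ℂ) =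
      (((p : ℝ) ^ D : ℝ) : ℂ) := by
    simp only [LinearMap.zero_apply, AddChar.map_zero_eq_one, Finset.sum_const, Finset.card_univ,
      nsmul_eq_mul, mul_one]
    rw [hD, Real.rpow_natCast, Module.card_eq_pow_finrank (K := ZMod p) (V := V), ZMod.card]
    push_cast
    rfl
  have hsplit : ∑ l : Dual (ZMod p) W, ∑ x : V, (ZMod.stdAddChar (l (g x)) : ℂ) =
      (((p : ℝ) ^ D : ℝ) : ℂ) +
        ∑ l ∈ Finset.univ.erase (0 : Dual (ZMod p) W), ∑ x : V, (ZMod.stdAddChar (l (g x)) : ℂ) := by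
    rw [← Finset.add_sum_erase Finset.univ _ (Finset.mem_univ (0 : Dual (ZMod p) W)), h0]
  have h1 : ‖∑ l ∈ Finset.univ.erase (0 : Dual (ZMod p) W),
        ∑ x : V, (ZMod.stdAddChar (l (g x)) : ℂ)‖ ≤
      ∑ l ∈ Finset.univ.erase (0 : Dual (ZMod p) W), (p : ℝ) ^ (D - (rk (TT B) l : ℝ) / 2) :=
    (norm_sum_le _ _).trans (Finset.sum_le_sum fun l _ => cnt_S_bound p g B hB l)
  have h2 : ∑ l ∈ Finset.univ.erase (0 : Dual (ZMod p) W), (p : ℝ) ^ (D - (rk (TT B) l : ℝ) / 2) ≤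
      ∑ ρ ∈ Finset.Icc k (finrank (ZMod p) V),
        (lowCard (TT B) ρ : ℝ) * (p : ℝ) ^ (D - (ρ : ℝ) / 2) :=
    cnt_low p B _ _ (fun l hl => Finset.mem_Icc.2 ⟨hk l (Finset.ne_of_mem_erase hl),
      cnt_rk_le p B l⟩)
      (fun ρ => (p : ℝ) ^ (D - (ρ : ℝ) / 2)) (fun n => (Real.rpow_pos_of_pos hp0 _).le)
  have hpD : ‖(((p : ℝ) ^ D : ℝ) : ℂ)‖ = (p : ℝ) ^ D := by
    rw [Complex.norm_real, Real.norm_of_nonneg (Real.rpow_pos_of_pos hp0 _).le]
  have h4 : (p : ℝ) ^ D - ∑ ρ ∈ Finset.Icc k (finrank (ZMod p) V),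
        (lowCard (TT B) ρ : ℝ) * (p : ℝ) ^ (D - (ρ : ℝ) / 2) ≤
      (p : ℝ) ^ E * (Nat.card {x : V // g x = 0} : ℝ) := by
    rw [hn, hsplit]
    have h5 := norm_sub_le (((((p : ℝ) ^ D : ℝ) : ℂ)) +
      ∑ l ∈ Finset.univ.erase (0 : Dual (ZMod p) W), ∑ x : V, (ZMod.stdAddChar (l (g x)) : ℂ))
      (∑ l ∈ Finset.univ.erase (0 : Dual (ZMod p) W), ∑ x : V, (ZMod.stdAddChar (l (g x)) : ℂ))
    rw [add_sub_cancel_right, hpD] at h5
    linarith
  have h3 : (p : ℝ) ^ E * ((p : ℝ) ^ (D - E) *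
        (1 - ∑ ρ ∈ Finset.Icc k (finrank (ZMod p) V),
          (lowCard (TT B) ρ : ℝ) * (p : ℝ) ^ (-(ρ : ℝ) / 2))) =
      (p : ℝ) ^ D - ∑ ρ ∈ Finset.Icc k (finrank (ZMod p) V),
        (lowCard (TT B) ρ : ℝ) * (p : ℝ) ^ (D - (ρ : ℝ) / 2) := by
    rw [← mul_assoc, ← Real.rpow_add hp0, mul_sub, mul_one, Finset.mul_sum]
    have hED : E + (D - E) = D := by ring
    rw [hED]
    congr 1
    refine Finset.sum_congr rfl fun ρ _ => ?_
    have : (p : ℝ) ^ (D - (ρ : ℝ) / 2) = (p : ℝ) ^ D * (p : ℝ) ^ (-(ρ : ℝ) / 2) := by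
      rw [← Real.rpow_add hp0]
      congr 1
      ring
    rw [this]
    ring
  refine le_of_mul_le_mul_left ?_ hpE
  rw [h3]
  exact h4

end QSys
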