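import Pool.Agent.Lib.MP_c77682_nt.Stab

/-!
QF-2. The dichotomy.

PROOF. `S = {l : L | rk T l ≤ ρ}` (finite set), `o l l' = finrank (range (T l) ⊓ range (T l'))`.

Case (i): some `l₁ ∈ S` has at least `(1 - 1/M) |S|` elements `l ∈ S` with `o l l₁ ≥ t + 1`, i.e.
`(M - 1) * |S| ≤ M * #{l ∈ S | t + 1 ≤ o l l₁}`. Put `J = range (T l₁)`, of dimension `≤ ρ`. The range
of `quot T J l` is the image of `range (T l)` under `J.mkQ`, of dimension
`rk T l - finrank (range (T l) ⊓ J) ≤ ρ - (t + 1)` (use `finrank (map mkQ R) + finrank (R ⊓ J) =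
finrank R`). So all these `l` are counted by `lowCard (quot T J) (ρ - (t + 1))`.

Case (ii): otherwise for every `l₁ ∈ S` we have `M * #{l ∈ S | o l l₁ ≤ t} ≥ |S|` (the complement has
fewer than `(1 - 1/M)|S|` elements: `M * (|S| - bad) > M|S| - (M-1)|S| = |S|`). Summing over `l₁`:
`M * #{(l, l') ∈ S × S | o l l' ≤ t} ≥ |S|^2`. Map a good pair `(l, l')` to `m = l - l'`, which lies in
`S' = {m | rk T m ≤ 2ρ}` (the range of `T l - T l'` is contained in `range (T l) ⊔ range (T l')`). For
`m ∈ S'` let `H_m = ker (T m)`; `finrank V = finrank H_m + rk T m ≤ finrank H_m + 2ρ`. If `(l, l')` is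
good and `l - l' = m` then for `x ∈ H_m` we have `T l x = T l' x`, so
`range (restr T H_m l) ≤ range (T l) ⊓ range (T l')` and `rk (restr T H_m) l ≤ t`; and `l' = l - m` is
determined by `l`. So at most `lowCard (restr T H_m) t` good pairs map to `m`. Choose `m₀ ∈ S'` for which
`lowCard (restr T H_m) t` is largest: the number of good pairs is
`≤ |S'| * lowCard (restr T H_{m₀}) t` (`Finset.card_le_mul_card_image` or
`Finset.card_eq_sum_card_fiberwise`).
-/

set_option autoImplicit false

open Module

namespace QSys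

variable {F L V Y : Type} [Field F] [Finite F] [AddCommGroup L] [Module F L] [FiniteDimensional F L]
  [AddCommGroup V] [Module F V] [FiniteDimensional F V]
  [AddCommGroup Y] [Module F Y] [FiniteDimensional F Y]

omit [Finite F] [FiniteDimensional F L] [FiniteDimensional F V] in
private theorem finrank_mkQ_map (R J : Submodule F Y) :
    finrank F (R.map J.mkQ) + finrank F (R ⊓ J : Submodule F Y) = finrank F R := by
  have h := LinearMap.finrank_range_add_finrank_ker (J.mkQ ∘ₗ R.subtype)
  have h1 : LinearMap.range (J.mkQ ∘ₗ R.subtype) = R.map J.mkQ := by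
    rw [LinearMap.range_comp, Submodule.range_subtype]
  have h2 : LinearMap.ker (J.mkQ ∘ₗ R.subtype) = J.comap R.subtype := by
    rw [LinearMap.ker_comp, Submodule.ker_mkQ]
  have h3 : finrank F (J.comap R.subtype) = finrank F (R ⊓ J : Submodule F Y) := by
    rw [← Submodule.map_comap_subtype, Submodule.finrank_map_subtype_eq]
  rw [h1, h2, h3] at h
  exact h

private theorem lowCard_eq [Fintype L] (T : L →ₗ[F] V →ₗ[F] Y) (ρ : ℕ)
    [DecidablePred fun l => rk T l ≤ ρ] :
    lowCard T ρ = (Finset.univ.filter (fun l => rk T l ≤ ρ)).card := by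
  unfold lowCard
  rw [Nat.card_eq_fintype_card, Fintype.card_subtype]

private theorem rk_sub_le (T : L →ₗ[F] V →ₗ[F] Y) (l l' : L) :
    rk T (l - l') ≤ rk T l + rk T l' := by
  unfold rk
  have h : LinearMap.range (T (l - l')) ≤ LinearMap.range (T l) ⊔ LinearMap.range (T l') := by
    rintro _ ⟨x, rfl⟩
    rw [map_sub, LinearMap.sub_apply, sub_eq_add_neg]
    exact Submodule.add_mem_sup ⟨x, rfl⟩ (Submodule.neg_mem _ ⟨x, rfl⟩)
  exact (Submodule.finrank_mono h).trans (Submodule.finrank_add_le_finrank_add_finrank _ _)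

theorem dich (T : L →ₗ[F] V →ₗ[F] Y) (ρ t M : ℕ) (hM : 1 ≤ M) (ht : t + 1 ≤ ρ) :
    (∃ J : Submodule F Y, finrank F J ≤ ρ ∧
      (M - 1) * lowCard T ρ ≤ M * lowCard (quot T J) (ρ - (t + 1))) ∨
    (∃ H : Submodule F V, finrank F V ≤ finrank F H + 2 * ρ ∧
      (lowCard T ρ) ^ 2 ≤ M * (lowCard T (2 * ρ) * lowCard (restr T H) t)) := by
  classical
  haveI : Finite L := Module.finite_of_finite F
  haveI : Fintype L := Fintype.ofFinite L
  set o : L → L → ℕ := fun l l' =>
    finrank F (LinearMap.range (T l) ⊓ LinearMap.range (T l') : Submodule F Y) with ho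
  set S : Finset L := Finset.univ.filter (fun l => rk T l ≤ ρ) with hS
  have hSc : lowCard T ρ = S.card := lowCard_eq T ρ
  by_cases h : ∃ l₁ ∈ S, (M - 1) * S.card ≤ M * (S.filter (fun l => t + 1 ≤ o l l₁)).card
  · obtain ⟨l₁, hl₁, hc⟩ := h
    left
    rw [hS, Finset.mem_filter] at hl₁
    refine ⟨LinearMap.range (T l₁), hl₁.2, ?_⟩
    rw [hSc]
    refine hc.trans (Nat.mul_le_mul_left M ?_)
    rw [lowCard_eq]
    refine Finset.card_le_card fun l hl => ?_
    rw [Finset.mem_filter, hS, Finset.mem_filter] at hl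
    rw [Finset.mem_filter]
    refine ⟨Finset.mem_univ _, ?_⟩
    have h1 := finrank_mkQ_map (LinearMap.range (T l)) (LinearMap.range (T l₁))
    have h2 : rk (quot T (LinearMap.range (T l₁))) l =
        finrank F ((LinearMap.range (T l)).map (LinearMap.range (T l₁)).mkQ) := by
      unfold rk
      rw [← LinearMap.range_comp]
      rfl
    have h3 : finrank F (LinearMap.range (T l)) ≤ ρ := hl.1.2
    have h4 : t + 1 ≤ finrank F
        (LinearMap.range (T l) ⊓ LinearMap.range (T l₁) : Submodule F Y) := hl.2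
    rw [h2]
    omega
  · right
    push Not at h
    have hgood : ∀ l₁ ∈ S, S.card ≤ M * (S.filter (fun l => o l l₁ ≤ t)).card := by
      intro l₁ hl₁
      have h1 := h l₁ hl₁
      have h2 := Finset.card_filter_add_card_filter_not (s := S) (fun l => t + 1 ≤ o l l₁)
      have h3 : S.filter (fun l => ¬ t + 1 ≤ o l l₁) = S.filter (fun l => o l l₁ ≤ t) := by
        refine Finset.filter_congr fun l _ => ?_
        omega
      rw [h3] at h2
      obtain ⟨M', rfl⟩ : ∃ M', M = M' + 1 := ⟨M - 1, by omega⟩
      rw [Nat.add_sub_cancel] at h1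
      nlinarith
    set P : Finset (L × L) := (S ×ˢ S).filter (fun p => o p.1 p.2 ≤ t) with hP
    have hP1 : S.card ^ 2 ≤ M * P.card := by
      have h1 : P.card = ∑ l₁ ∈ S, (P.filter (fun p => p.2 = l₁)).card := by
        refine Finset.card_eq_sum_card_fiberwise (f := Prod.snd) (t := S) fun p hp => ?_
        have hp' : p ∈ P := hp
        rw [hP, Finset.mem_filter, Finset.mem_product] at hp'
        exact hp'.1.2
      have h2 : ∀ l₁ ∈ S, (P.filter (fun p => p.2 = l₁)).card =
          (S.filter (fun l => o l l₁ ≤ t)).card := by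
        intro l₁ hl₁
        symm
        refine Finset.card_bij (fun l _ => (l, l₁)) ?_ ?_ ?_
        · intro l hl
          rw [Finset.mem_filter] at hl
          rw [Finset.mem_filter, hP, Finset.mem_filter, Finset.mem_product]
          exact ⟨⟨⟨hl.1, hl₁⟩, hl.2⟩, rfl⟩
        · intro a _ b _ hab
          exact (Prod.mk.inj hab).1
        · rintro ⟨a, b⟩ hab
          rw [Finset.mem_filter, hP, Finset.mem_filter, Finset.mem_product] at hab
          obtain ⟨⟨⟨ha, hb⟩, hab2⟩, hb2⟩ := hab
          have hb3 : b = l₁ := hb2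
          subst hb3
          exact ⟨a, Finset.mem_filter.2 ⟨ha, hab2⟩, rfl⟩
      rw [h1, Finset.sum_congr rfl h2, Finset.mul_sum, sq, ← smul_eq_mul, ← Finset.sum_const]
      exact Finset.sum_le_sum hgood
    set S' : Finset L := Finset.univ.filter (fun m => rk T m ≤ 2 * ρ) with hS'
    have hS'c : lowCard T (2 * ρ) = S'.card := lowCard_eq T (2 * ρ)
    have hne : S'.Nonempty := by
      refine ⟨0, ?_⟩
      rw [hS', Finset.mem_filter]
      refine ⟨Finset.mem_univ _, ?_⟩
      unfold rk
      rw [map_zero, LinearMap.range_zero, finrank_bot]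
      exact Nat.zero_le _
    obtain ⟨m₀, hm₀, hmax⟩ := Finset.exists_max_image S'
      (fun m => lowCard (restr T (LinearMap.ker (T m))) t) hne
    refine ⟨LinearMap.ker (T m₀), ?_, ?_⟩
    · have h1 := LinearMap.finrank_range_add_finrank_ker (T m₀)
      rw [hS', Finset.mem_filter] at hm₀
      have h2 : finrank F (LinearMap.range (T m₀)) ≤ 2 * ρ := hm₀.2
      omega
    · rw [hSc, hS'c]
      refine hP1.trans (Nat.mul_le_mul_left M ?_)
      have h1 : P.card = ∑ m ∈ S', (P.filter (fun p => p.1 - p.2 = m)).card := by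
        refine Finset.card_eq_sum_card_fiberwise (f := fun p : L × L => p.1 - p.2) (t := S')
          fun p hp => ?_
        have hp' : p ∈ P := hp
        rw [hP, Finset.mem_filter, Finset.mem_product, hS, Finset.mem_filter,
          Finset.mem_filter] at hp'
        show p.1 - p.2 ∈ S'
        rw [hS', Finset.mem_filter]
        refine ⟨Finset.mem_univ _, (rk_sub_le T _ _).trans ?_⟩
        have := hp'.1.1.2
        have := hp'.1.2.2
        omega
      rw [h1, ← smul_eq_mul, ← Finset.sum_const]
      refine Finset.sum_le_sum fun m hm => ?_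
      refine le_trans ?_ (hmax m hm)
      show (P.filter (fun p => p.1 - p.2 = m)).card ≤ lowCard (restr T (LinearMap.ker (T m))) t
      rw [lowCard_eq]
      refine Finset.card_le_card_of_injOn Prod.fst ?_ ?_
      · rintro ⟨a, b⟩ hab
        have hab' : (a, b) ∈ P.filter (fun p => p.1 - p.2 = m) := hab
        rw [Finset.mem_filter, hP, Finset.mem_filter] at hab'
        obtain ⟨⟨_, hab2⟩, hab3⟩ := hab'
        have hab4 : a - b = m := hab3
        have hab5 : finrank F (LinearMap.range (T a) ⊓ LinearMap.range (T b) : Submodule F Y)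
          ≤ t := hab2
        show a ∈ _
        rw [Finset.mem_coe, Finset.mem_filter]
        refine ⟨Finset.mem_univ _, le_trans ?_ hab5⟩
        unfold rk
        refine Submodule.finrank_mono ?_
        rintro _ ⟨x, rfl⟩
        rw [restr_apply]
        refine ⟨⟨x, rfl⟩, ⟨x, ?_⟩⟩
        obtain ⟨x, hx⟩ := x
        have h2 : T m x = 0 := hx
        have h2' : T (a - b) x = 0 := by rw [hab4]; exact h2
        rw [map_sub, LinearMap.sub_apply, sub_eq_zero] at h2'
        exact h2'.symm
      · rintro ⟨a, b⟩ hab ⟨a', b'⟩ hab' he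
        have h3 : (a, b) ∈ P.filter (fun p => p.1 - p.2 = m) := hab
        have h4 : (a', b') ∈ P.filter (fun p => p.1 - p.2 = m) := hab'
        rw [Finset.mem_filter] at h3 h4
        have h5 : a - b = m := h3.2
        have h6 : a' - b' = m := h4.2
        have h7 : a = a' := he
        subst h7
        have h8 : b = b' := by
          have : a - b = a - b' := h5.trans h6.symm
          exact sub_right_injective this
        rw [h8]

end QSys
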