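import Pool.Agent.Lib.MP_c77682_nt.MaxTriple
import Pool.Agent.Lib.MP_c77682_nt.Integral

/-!
QF-18. The theorem over `ℤ_[p]` (`main_int`, the job); `main_padic` is done.

PROOF of `main_int`: strong induction on `r`. If `r = 0` take `x = 1` (constant vector, nonzero as `0 < n`). Let `r ≥ 1`,
`c = Nat.clog 2 r`, `k = 249 + 50 c`, `L₀ = 10 + 2 c`. `24 L₀ = 240 + 48 c ≤ k`; `r ≤ 2^c` (`Nat.le_pow_clog`), and
`(249 + 50 c) ≤ 2^(10 + c)` (induction on `c`), so `k r ≤ 2^(10+2c)`. `2 (k+1) = 500 + 100 c ≥ 500 + 100 clog 2 j` for `j < r`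
(`Nat.clog_mono_right`), so the induction hypothesis applies to `2 (k+1) j + 1` variables. Restrict `f` to the first
`2 (k+1) r ≤ n` coordinates (`f.comp` with the linear map extending by zero; injective). `induction_step` gives a zero.
-/

set_option autoImplicit false

namespace QSys

private theorem pow_bound (c : ℕ) : 249 + 50 * c ≤ 2 ^ (10 + c) := by
  induction c with
  | zero => norm_num
  | succ c ih =>
    have h1 : 2 ^ (10 + (c + 1)) = 2 * 2 ^ (10 + c) := by ring
    rw [h1]
    have h2 : 50 ≤ 2 ^ (10 + c) := by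
      calc 50 ≤ 2 ^ 10 := by norm_num
        _ ≤ 2 ^ (10 + c) := Nat.pow_le_pow_right (by norm_num) (by omega)
    omega

theorem main_int (p : ℕ) [Fact p.Prime] : ∀ (r n : ℕ), 0 < n → (500 + 100 * Nat.clog 2 r) * r ≤ n →
    ∀ f : QuadraticMap ℤ_[p] (Fin n → ℤ_[p]) (Fin r → ℤ_[p]), ∃ x, x ≠ 0 ∧ f x = 0 := by
  intro r
  induction r using Nat.strong_induction_on with
  | _ r ih =>
    intro n hn hle f
    rcases Nat.eq_zero_or_pos r with h0 | hr
    · subst h0
      refine ⟨fun _ => 1, ?_, ?_⟩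
      · intro h
        have := congrFun h ⟨0, hn⟩
        simp at this
      · funext i
        exact i.elim0
    · set c := Nat.clog 2 r with hc
      have hrc : r ≤ 2 ^ c := Nat.le_pow_clog (by norm_num) r
      have h1 : 24 * (10 + 2 * c) ≤ 249 + 50 * c := by omega
      have h2 : (249 + 50 * c) * r ≤ 2 ^ (10 + 2 * c) := by
        calc (249 + 50 * c) * r ≤ 2 ^ (10 + c) * 2 ^ c := Nat.mul_le_mul (pow_bound c) hrc
          _ = 2 ^ (10 + 2 * c) := by rw [← pow_add]; congr 1; ring
      have hkk : 2 * ((249 + 50 * c) + 1) = 500 + 100 * c := by ring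
      have hP : ∀ j < r, ∀ h : QuadraticMap ℤ_[p]
          (Fin (2 * ((249 + 50 * c) + 1) * j + 1) → ℤ_[p]) (Fin j → ℤ_[p]),
          ∃ x, x ≠ 0 ∧ h x = 0 := by
        intro j hj h
        apply ih j hj _ (Nat.succ_pos _)
        rw [hkk]
        have h3 : Nat.clog 2 j ≤ c := Nat.clog_mono_right 2 hj.le
        have h4 : (500 + 100 * Nat.clog 2 j) * j ≤ (500 + 100 * c) * j :=
          Nat.mul_le_mul_right _ (by omega)
        omega
      have hn' : 2 * ((249 + 50 * c) + 1) * r ≤ n := by rw [hkk]; exact hle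
      let E : (Fin (2 * ((249 + 50 * c) + 1) * r) → ℤ_[p]) →ₗ[ℤ_[p]] (Fin n → ℤ_[p]) :=
        { toFun := fun x i => if h : (i : ℕ) < 2 * ((249 + 50 * c) + 1) * r then x ⟨i, h⟩ else 0
          map_add' := by
            intro x y
            funext i
            by_cases h : (i : ℕ) < 2 * ((249 + 50 * c) + 1) * r
            · simp [h]
            · simp [h]
          map_smul' := by
            intro a x
            funext i
            by_cases h : (i : ℕ) < 2 * ((249 + 50 * c) + 1) * r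
            · simp [h]
            · simp [h] }
      obtain ⟨x, hx, hx0⟩ := induction_step p (249 + 50 * c) (10 + 2 * c) r hr (by omega) h1 h2 hP
        (f.comp E)
      refine ⟨E x, ?_, hx0⟩
      intro h
      apply hx
      funext i
      have hi := congrFun h ⟨i, lt_of_lt_of_le i.2 hn'⟩
      have hE : E x ⟨i, lt_of_lt_of_le i.2 hn'⟩ = x i := by
        show (if h : (i : ℕ) < 2 * ((249 + 50 * c) + 1) * r then x ⟨i, h⟩ else 0) = x i
        rw [dif_pos i.2]
      rw [hE] at hi
      exact hi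

theorem main_padic (p : ℕ) [Fact p.Prime] (r n : ℕ) (hn : 0 < n)
    (h : (500 + 100 * Nat.clog 2 r) * r ≤ n) (f : Fin r → QuadraticForm ℚ_[p] (Fin n → ℚ_[p])) :
    ∃ x, x ≠ 0 ∧ ∀ i, f i x = 0 := by
  obtain ⟨N, F, hF⟩ := exists_integral p r n f
  obtain ⟨x, hx, hx0⟩ := main_int p r n hn h F
  refine ⟨fun j => ((x j : ℤ_[p]) : ℚ_[p]), ?_, ?_⟩
  · intro h0
    apply hx
    funext j
    have := congrFun h0 j
    simpa using this
  · intro i
    have h1 := hF x i
    rw [hx0] at h1
    have h2 : (p : ℚ_[p]) ^ N ≠ 0 := pow_ne_zero _ (by exact_mod_cast (Fact.out : p.Prime).ne_zero)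
    have h3 : (p : ℚ_[p]) ^ N * f i (fun j => ((x j : ℤ_[p]) : ℚ_[p])) = 0 := by
      rw [← h1]; simp
    exact (mul_eq_zero.mp h3).resolve_left h2

end QSys
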