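import Mathlib

/-!
QF-7. Three numerical series. `P = p` as a real number `≥ 2`, `ℓ = log₂ L ≥ 0`.

PROOFS. (`log₂ = Real.logb 2`.)
* `series1`: `2 log₂ ρ ≤ ρ/8 + 7` for all `ρ ≥ 1` (maximum of `2 log₂ ρ - ρ/8` at `ρ = 16/ln 2 ≈ 23.1`,
  value `≈ 6.17`; or tangent line: `log₂ ρ ≤ log₂ 16 + (ρ-16)/(16 ln 2) ≤ 4 + ρ/11 - ...`, anything
  giving `≤ 7` is fine: e.g. `log y ≤ y/a - 1 + log a` with `a = 23`). So each term is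
  `≤ P^(11 + ℓ - ρ/8) ≤ P^(11+ℓ) * 2^(-ρ/8)` (as `P ≥ 2` and the exponent `-ρ/8 ≤ 0`), the geometric sum
  `∑_{ρ≥1} 2^(-ρ/8) = 1/(2^(1/8)-1) ≤ 12 ≤ 2^4 ≤ P^4`, so the sum is `≤ P^(15+ℓ)` and
  `1 + P^(15+ℓ) ≤ 2 P^(15+ℓ) ≤ P^(16+ℓ)`. (`2^(1/8) ≥ 1 + 1/12` since `(13/12)^8 ≤ 2`: `(13/12)^8 = 1.897`.)
* `series2`: `ℓ ≤ log₂ ρ - 4.5` for `ρ ≥ k ≥ 24 L` (`log₂ 24 ≥ 4.5`, i.e. `24^2 ≥ 2^9 = 512`). The exponent
  is `≤ -ρ/4 - 0.5 + 3 log₂ ρ ≤ -ρ/8` because `3 log₂ ρ ≤ ρ/8 + 0.5` for `ρ ≥ 240` (at 240: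
  `23.73 ≤ 30.5`; tangent line at 256: `log₂ ρ ≤ 8 + (ρ-256)/(256 ln 2) ≤ 8 + (ρ - 256)/177` for `ρ ≥ 256`,
  resp. `log₂ ρ ≤ 8` for `ρ ≤ 256`). So the sum is `≤ ∑_{ρ ≥ 240} 2^(-ρ/8) = 2^(-30)/(1 - 2^(-1/8)) < 1/4`.
* `series3`: with `ρ ≥ k ≥ 24L ≥ 240`: `2ρ/k ≤ ρ/120`; here the term is `P` to the power
  `ρ/4 + 4 + ℓ + 2log₂ρ - ρ + 2ρ/k + 16 + ℓ ≤ -0.75ρ + 2ρ/k + 20 + 2ℓ + 2log₂ρ
   ≤ -0.75ρ + ρ/120 + 20 - 9 + 4 log₂ρ ≤ -ρ/2` since `4 log₂ρ + 11 ≤ 0.24 ρ` for `ρ ≥ 240`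
  (`31.63 + 11 ≤ 57.6`). So the sum is `≤ ∑_{ρ≥240} 2^(-ρ/2) < 1/4`.
-/

set_option autoImplicit false

namespace QSys

theorem logb_two_tan (x : ℝ) (hx : 0 < x) (n : ℕ) :
    Real.logb 2 x ≤ n + (x / 2 ^ n - 1) / Real.log 2 := by
  have h2 : (0:ℝ) < Real.log 2 := Real.log_pos (by norm_num)
  have h1 : Real.log x = n * Real.log 2 + Real.log (x / 2 ^ n) := by
    rw [Real.log_div hx.ne' (by positivity), Real.log_pow]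
    ring
  have h3 : Real.log (x / 2 ^ n) ≤ x / 2 ^ n - 1 := Real.log_le_sub_one_of_pos (by positivity)
  unfold Real.logb
  rw [h1, add_div, mul_div_assoc, div_self h2.ne', mul_one]
  gcongr

theorem logb_two_tan4 (x : ℝ) (hx : 0 < x) (hx1 : x ≤ 1000) :
    Real.logb 2 x ≤ 2.558 + 0.0902 * x := by
  have h := logb_two_tan x hx 4
  have h2 := Real.log_two_gt_d9
  have h3 := Real.log_two_lt_d9
  have h4 : (0:ℝ) < Real.log 2 := by linarith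
  refine h.trans ?_
  have h5 : (x / 2 ^ 4 - 1) / Real.log 2 ≤ -1.442 + 0.0902 * x := by
    rw [div_le_iff₀ h4]
    nlinarith
  norm_num at h5 ⊢
  linarith

theorem logb_two_tan5 (x : ℝ) (hx : 0 < x) :
    Real.logb 2 x ≤ 3.558 + 0.0452 * x := by
  have h := logb_two_tan x hx 5
  have h2 := Real.log_two_gt_d9
  have h3 := Real.log_two_lt_d9
  have h4 : (0:ℝ) < Real.log 2 := by linarith
  refine h.trans ?_
  have h5 : (x / 2 ^ 5 - 1) / Real.log 2 ≤ -1.442 + 0.0452 * x := by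
    rw [div_le_iff₀ h4]
    nlinarith
  norm_num at h5 ⊢
  linarith

theorem logb_two_tan8 (x : ℝ) (hx : 0 < x) :
    Real.logb 2 x ≤ 6.558 + 0.0057 * x := by
  have h := logb_two_tan x hx 8
  have h2 := Real.log_two_gt_d9
  have h3 := Real.log_two_lt_d9
  have h4 : (0:ℝ) < Real.log 2 := by linarith
  refine h.trans ?_
  have h5 : (x / 2 ^ 8 - 1) / Real.log 2 ≤ -1.442 + 0.0057 * x := by
    rw [div_le_iff₀ h4]
    nlinarith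
  norm_num at h5 ⊢
  linarith

theorem geom_bound (k N : ℕ) :
    ∑ ρ ∈ Finset.Icc k N, ((12:ℝ) / 13) ^ ρ ≤ 13 * ((12:ℝ) / 13) ^ k := by
  rcases le_or_gt k N with h | h
  · have h1 : Finset.Icc k N = Finset.Ico k (N + 1) := by
      ext x; simp only [Finset.mem_Icc, Finset.mem_Ico]; omega
    rw [h1, geom_sum_Ico (by norm_num) (by omega)]
    have h2 : (0:ℝ) < (12 / 13 : ℝ) ^ (N + 1) := by positivity
    have h3 : (((12:ℝ) / 13) ^ (N + 1) - (12 / 13) ^ k) / (12 / 13 - 1)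
        = 13 * ((12 / 13 : ℝ) ^ k) - 13 * (12 / 13 : ℝ) ^ (N + 1) := by ring
    rw [h3]
    linarith
  · rw [Finset.Icc_eq_empty (by omega), Finset.sum_empty]
    positivity

theorem two_rpow_bound (ρ : ℕ) : (2:ℝ) ^ (-(ρ : ℝ) / 8) ≤ ((12:ℝ) / 13) ^ ρ := by
  have h1 : (2:ℝ) ^ (-(ρ : ℝ) / 8) = ((2:ℝ) ^ (-(1:ℝ) / 8)) ^ ρ := by
    rw [← Real.rpow_natCast, ← Real.rpow_mul (by norm_num)]
    congr 1
    ring
  rw [h1]
  apply pow_le_pow_left₀ (by positivity)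
  have h2 : ((2:ℝ) ^ (-(1:ℝ) / 8)) ^ 8 = 1 / 2 := by
    rw [← Real.rpow_natCast, ← Real.rpow_mul (by norm_num)]
    norm_num
  have h3 : ((2:ℝ) ^ (-(1:ℝ) / 8)) ^ 8 ≤ ((12:ℝ) / 13) ^ 8 := by
    rw [h2]; norm_num
  exact le_of_pow_le_pow_left₀ (by norm_num) (by norm_num) h3

theorem P_rpow_le (P : ℝ) (hP : 2 ≤ P) (e : ℝ) (ρ : ℕ) (he : e ≤ -(ρ : ℝ) / 8) :
    P ^ e ≤ ((12:ℝ) / 13) ^ ρ := by
  have hρ : (0:ℝ) ≤ ρ := Nat.cast_nonneg ρ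
  calc P ^ e ≤ P ^ (-(ρ : ℝ) / 8) := Real.rpow_le_rpow_of_exponent_le (by linarith) he
    _ ≤ 2 ^ (-(ρ : ℝ) / 8) := Real.rpow_le_rpow_of_nonpos (by norm_num) hP (by linarith)
    _ ≤ _ := two_rpow_bound ρ

theorem geom_240 (k : ℕ) (hk : 240 ≤ k) : 13 * ((12:ℝ) / 13) ^ k ≤ 1 / 4 := by
  have h1 : ((12:ℝ) / 13) ^ k ≤ ((12:ℝ) / 13) ^ 240 :=
    pow_le_pow_of_le_one (by norm_num) (by norm_num) hk
  have h2 : 13 * ((12:ℝ) / 13) ^ 240 ≤ 1 / 4 := by norm_num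
  linarith

theorem logb_L_bound (L ρ : ℕ) (hL : 1 ≤ L) (h : 24 * L ≤ ρ) :
    Real.logb 2 L ≤ Real.logb 2 ρ - 4.5 := by
  have hL' : (0:ℝ) < L := by exact_mod_cast hL
  have h1 : (24:ℝ) * L ≤ ρ := by exact_mod_cast h
  have h2 : Real.logb 2 (24 * L) ≤ Real.logb 2 ρ :=
    Real.logb_le_logb_of_le (by norm_num) (by positivity) h1
  rw [Real.logb_mul (by norm_num) hL'.ne'] at h2
  have h3 : (4.5:ℝ) ≤ Real.logb 2 24 := by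
    rw [Real.le_logb_iff_rpow_le (by norm_num) (by norm_num)]
    have h4 : ((2:ℝ) ^ (4.5:ℝ)) ^ 2 = 512 := by
      rw [← Real.rpow_natCast, ← Real.rpow_mul (by norm_num)]
      norm_num
    have h5 : ((2:ℝ) ^ (4.5:ℝ)) ^ 2 ≤ 24 ^ 2 := by rw [h4]; norm_num
    exact le_of_pow_le_pow_left₀ (by norm_num) (by norm_num) h5
  linarith

theorem series1 (P : ℝ) (hP : 2 ≤ P) (L : ℕ) (hL : 1 ≤ L) (N : ℕ) :
    1 + ∑ ρ ∈ Finset.Icc 1 N,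
      P ^ ((ρ : ℝ) / 4 + 4 + Real.logb 2 L + 2 * Real.logb 2 ρ) * P ^ (-(ρ : ℝ) / 2) ≤
      P ^ (16 + Real.logb 2 L) := by
  have hP0 : 0 < P := by linarith
  have hℓ : 0 ≤ Real.logb 2 L := Real.logb_nonneg (by norm_num) (by exact_mod_cast hL)
  have h1 : ∑ ρ ∈ Finset.Icc 1 N,
      P ^ ((ρ : ℝ) / 4 + 4 + Real.logb 2 L + 2 * Real.logb 2 ρ) * P ^ (-(ρ : ℝ) / 2) ≤
      ∑ ρ ∈ Finset.Icc 1 N, P ^ (11 + Real.logb 2 L) * ((12:ℝ) / 13) ^ ρ := by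
    apply Finset.sum_le_sum
    intro ρ hρ
    have hρ1 : 1 ≤ ρ := (Finset.mem_Icc.mp hρ).1
    have hρ' : (1:ℝ) ≤ ρ := by exact_mod_cast hρ1
    rw [← Real.rpow_add hP0]
    have h2 : 2 * Real.logb 2 ρ ≤ ρ / 8 + 7 := by
      rcases le_or_gt (ρ : ℝ) 20 with h | h
      · have := logb_two_tan4 ρ (by linarith) (by linarith)
        linarith
      · have := logb_two_tan5 ρ (by linarith)
        linarith
    have h3 : (ρ : ℝ) / 4 + 4 + Real.logb 2 L + 2 * Real.logb 2 ρ + -(ρ : ℝ) / 2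
        = (11 + Real.logb 2 L) + ((ρ : ℝ) / 4 - 7 + 2 * Real.logb 2 ρ - ρ / 2) := by ring
    rw [h3, Real.rpow_add hP0]
    gcongr
    apply P_rpow_le P hP
    linarith
  rw [← Finset.mul_sum] at h1
  have h4 := geom_bound 1 N
  have h5 : ∑ ρ ∈ Finset.Icc 1 N, ((12:ℝ) / 13) ^ ρ ≤ 12 := by
    refine h4.trans ?_; norm_num
  have h6 : P ^ (11 + Real.logb 2 L) * ∑ ρ ∈ Finset.Icc 1 N, ((12:ℝ) / 13) ^ ρ
      ≤ P ^ (11 + Real.logb 2 L) * 12 := by gcongr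
  have h7 : P ^ (16 + Real.logb 2 L) = P ^ (11 + Real.logb 2 L) * P ^ 5 := by
    rw [← Real.rpow_natCast P 5, ← Real.rpow_add hP0]
    congr 1
    push_cast
    ring
  have h8 : (32:ℝ) ≤ P ^ 5 := by
    calc (32:ℝ) = 2 ^ 5 := by norm_num
      _ ≤ P ^ 5 := by gcongr
  have h9 : 1 ≤ P ^ (11 + Real.logb 2 L) := Real.one_le_rpow (by linarith) (by linarith)
  rw [h7]
  nlinarith

theorem series2 (P : ℝ) (hP : 2 ≤ P) (L k : ℕ) (hL : 10 ≤ L) (hk : 24 * L ≤ k) (N : ℕ) :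
    ∑ ρ ∈ Finset.Icc k N,
      P ^ ((ρ : ℝ) / 4 + 4 + Real.logb 2 L + 2 * Real.logb 2 ρ) * P ^ (-(ρ : ℝ) / 2) ≤ 1 / 4 := by
  have hP0 : 0 < P := by linarith
  have h1 : ∑ ρ ∈ Finset.Icc k N,
      P ^ ((ρ : ℝ) / 4 + 4 + Real.logb 2 L + 2 * Real.logb 2 ρ) * P ^ (-(ρ : ℝ) / 2) ≤
      ∑ ρ ∈ Finset.Icc k N, ((12:ℝ) / 13) ^ ρ := by
    apply Finset.sum_le_sum
    intro ρ hρ
    have hρk : k ≤ ρ := (Finset.mem_Icc.mp hρ).1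
    have hρ1 : 240 ≤ ρ := by omega
    have hρ' : (240:ℝ) ≤ ρ := by exact_mod_cast hρ1
    rw [← Real.rpow_add hP0]
    apply P_rpow_le P hP
    have h2 := logb_L_bound L ρ (by omega) (by omega)
    have h3 := logb_two_tan8 ρ (by linarith)
    linarith
  refine h1.trans ((geom_bound k N).trans (geom_240 k (by omega)))

theorem series3 (P : ℝ) (hP : 2 ≤ P) (L k : ℕ) (hL : 10 ≤ L) (hk : 24 * L ≤ k) (N : ℕ) :
    ∑ ρ ∈ Finset.Icc k N,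
      P ^ ((ρ : ℝ) / 4 + 4 + Real.logb 2 L + 2 * Real.logb 2 ρ) *
        P ^ (-(ρ : ℝ) + 2 * ρ / k + 16 + Real.logb 2 L) ≤ 1 / 4 := by
  have hP0 : 0 < P := by linarith
  have h1 : ∑ ρ ∈ Finset.Icc k N,
      P ^ ((ρ : ℝ) / 4 + 4 + Real.logb 2 L + 2 * Real.logb 2 ρ) *
        P ^ (-(ρ : ℝ) + 2 * ρ / k + 16 + Real.logb 2 L) ≤
      ∑ ρ ∈ Finset.Icc k N, ((12:ℝ) / 13) ^ ρ := by
    apply Finset.sum_le_sum
    intro ρ hρ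
    have hρk : k ≤ ρ := (Finset.mem_Icc.mp hρ).1
    have hρ1 : 240 ≤ ρ := by omega
    have hρ' : (240:ℝ) ≤ ρ := by exact_mod_cast hρ1
    have hk1 : 240 ≤ k := by omega
    have hk' : (240:ℝ) ≤ k := by exact_mod_cast hk1
    rw [← Real.rpow_add hP0]
    apply P_rpow_le P hP
    have h2 := logb_L_bound L ρ (by omega) (by omega)
    have h3 := logb_two_tan8 ρ (by linarith)
    have h4 : 2 * (ρ : ℝ) / k ≤ ρ / 120 := by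
      rw [div_le_div_iff₀ (by linarith) (by norm_num)]
      nlinarith
    linarith
  refine h1.trans ((geom_bound k N).trans (geom_240 k (by omega)))

end QSys
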