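import Pool.Agent.Lib.MP_c77682_nt.Stab

/-!
QF-8. Stability of the family `TT B` of a quadratic function satisfying (**).

PROOF of `stable_TT`. Let `A ≤ W*`, `H ≤ V`, `J ≤ V*` with `TT B a x ∈ J` for `a ∈ A`, `x ∈ H`. Let
`U₀ = J.dualCoannihilator = {y | ∀ j ∈ J, j y = 0}`, `finrank U₀ + finrank J = finrank V`, and
`U = H ⊓ U₀`; `finrank H + finrank U₀ ≤ finrank V + finrank U`. For `a ∈ A`, `x, y ∈ U`:
`a (B x y) = 0`. Let `Q = A.dualCoannihilator = {w | ∀ a ∈ A, a w = 0}`, `finrank Q + finrank A =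
finrank W`. The map `U → W ⧸ Q`, `x ↦ g x mod Q`, is additive (`g (x+y) = g x + g y + B x y` and
`B x y ∈ Q`), hence `ZMod p`-linear (`AddMonoidHom.toZModLinearMap`). Let `U'` be (the image in `V` of) its
kernel: `finrank U ≤ finrank U' + finrank (W ⧸ Q) = finrank U' + finrank A`. `g x ∈ Q` for `x ∈ U'`, so the
hypothesis gives `(k+1) * finrank W + finrank U' ≤ finrank V + (k+1) * finrank Q`, i.e.
`(k+1) * finrank A + finrank U' ≤ finrank V`. Add up: `k * finrank A + finrank H ≤ finrank V + finrank J`.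

PROOF of `stable_TT_restrict`. Let `A ≤ W*`, `H ≤ R`, `J ≤ R*` with `a (B x ·)|_R ∈ J`. Apply stability of
`TT B` to `A`, `H.map R.subtype` (dimension `finrank H`) and `J' =` preimage of `J` under the surjective
restriction map `V* → R*` (`R.subtype.dualMap`), whose kernel has dimension `finrank V - finrank R ≤ d`:
`finrank J' ≤ finrank J + d`. So `k * finrank A + finrank H ≤ finrank V + finrank J + d ≤
finrank R + d + finrank J + d`.
-/

set_option autoImplicit false

open Module

namespace QSys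

variable (p : ℕ) [Fact p.Prime] {V W : Type} [AddCommGroup V] [Module (ZMod p) V]
  [FiniteDimensional (ZMod p) V] [AddCommGroup W] [Module (ZMod p) W] [FiniteDimensional (ZMod p) W]

theorem stable_TT (g : V → W) (B : V →ₗ[ZMod p] V →ₗ[ZMod p] W)
    (hB : ∀ x y, g (x + y) = g x + g y + B x y) (k : ℕ)
    (hstar : ∀ (U : Submodule (ZMod p) V) (Q : Submodule (ZMod p) W), (∀ x ∈ U, g x ∈ Q) →
      (k + 1) * finrank (ZMod p) W + finrank (ZMod p) U ≤
        finrank (ZMod p) V + (k + 1) * finrank (ZMod p) Q) :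
    Stable (TT B) k 0 := by
  intro A H J hT
  set U₀ : Submodule (ZMod p) V := J.dualCoannihilator with hU₀
  have h1 : finrank (ZMod p) J + finrank (ZMod p) U₀ = finrank (ZMod p) V :=
    Subspace.finrank_add_finrank_dualCoannihilator_eq J
  set U : Submodule (ZMod p) V := H ⊓ U₀ with hU
  have h2 : finrank (ZMod p) ↥(H ⊔ U₀) + finrank (ZMod p) U =
      finrank (ZMod p) H + finrank (ZMod p) U₀ := Submodule.finrank_sup_add_finrank_inf_eq H U₀
  have h3 : finrank (ZMod p) ↥(H ⊔ U₀) ≤ finrank (ZMod p) V := Submodule.finrank_le _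
  set Q : Submodule (ZMod p) W := A.dualCoannihilator with hQ
  have h4 : finrank (ZMod p) A + finrank (ZMod p) Q = finrank (ZMod p) W :=
    Subspace.finrank_add_finrank_dualCoannihilator_eq A
  have h5 : finrank (ZMod p) (W ⧸ Q) + finrank (ZMod p) Q = finrank (ZMod p) W :=
    Submodule.finrank_quotient_add_finrank Q
  have hBQ : ∀ x ∈ U, ∀ y ∈ U, B x y ∈ Q := by
    intro x hx y hy
    rw [hQ, Submodule.mem_dualCoannihilator]
    intro a ha
    have h6 := hT a ha x hx.1
    have h7 := (Submodule.mem_dualCoannihilator (Φ := J) y).1 hy.2 _ h6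
    simpa using h7
  have hg0 : ∀ x y : V, x ∈ U → y ∈ U →
      Q.mkQ (g (x + y)) = Q.mkQ (g x) + Q.mkQ (g y) := by
    intro x y hx hy
    rw [hB, map_add, map_add]
    have : Q.mkQ (B x y) = 0 := by
      rw [Submodule.mkQ_apply, Submodule.Quotient.mk_eq_zero]
      exact hBQ x hx y hy
    rw [this, add_zero]
  let φ : U →+ (W ⧸ Q) := AddMonoidHom.mk' (fun x => Q.mkQ (g x.1))
    (fun x y => by
      have := hg0 x.1 y.1 x.2 y.2
      simpa using this)
  let ψ : U →ₗ[ZMod p] (W ⧸ Q) := φ.toZModLinearMap p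
  have hψ : ∀ x : U, ψ x = Q.mkQ (g x.1) := fun x => rfl
  have h8 : finrank (ZMod p) (LinearMap.range ψ) + finrank (ZMod p) (LinearMap.ker ψ) =
      finrank (ZMod p) U := LinearMap.finrank_range_add_finrank_ker ψ
  have h9 : finrank (ZMod p) (LinearMap.range ψ) ≤ finrank (ZMod p) (W ⧸ Q) :=
    Submodule.finrank_le _
  have h10 := hstar ((LinearMap.ker ψ).map U.subtype) Q (by
    intro x hx
    obtain ⟨y, hy, rfl⟩ := hx
    have h11 : ψ y = 0 := hy
    rw [hψ, Submodule.mkQ_apply, Submodule.Quotient.mk_eq_zero] at h11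
    exact h11)
  have h12 : finrank (ZMod p) ↥((LinearMap.ker ψ).map U.subtype) =
      finrank (ZMod p) (LinearMap.ker ψ) :=
    Submodule.finrank_map_subtype_eq U (LinearMap.ker ψ)
  rw [h12] at h10
  rw [← h4] at h10
  have h13 : (k + 1) * (finrank (ZMod p) A + finrank (ZMod p) Q) =
      k * finrank (ZMod p) A + finrank (ZMod p) A + (k + 1) * finrank (ZMod p) Q := by ring
  rw [h13] at h10
  omega

theorem stable_TT_restrict (B : V →ₗ[ZMod p] V →ₗ[ZMod p] W) (k : ℕ) (h : Stable (TT B) k 0)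
    (R : Submodule (ZMod p) V) (d : ℕ) (hd : finrank (ZMod p) V ≤ finrank (ZMod p) R + d) :
    Stable (TT (B.domRestrict₁₂ R R)) k (2 * d) := by
  intro A H J hT
  let ρ : Dual (ZMod p) V →ₗ[ZMod p] Dual (ZMod p) R := R.subtype.dualMap
  have hρ : Function.Surjective ρ := LinearMap.dualMap_surjective_of_injective R.subtype_injective
  have h1 := h A (H.map R.subtype) (J.comap ρ) (by
    intro a ha x hx
    obtain ⟨y, hy, rfl⟩ := hx
    have h2 := hT a ha y hy
    rw [Submodule.mem_comap]
    have h3 : ρ (TT B a (R.subtype y)) = TT (B.domRestrict₁₂ R R) a y := by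
      ext z
      rfl
    rw [h3]
    exact h2)
  have h4 : finrank (ZMod p) ↥(H.map R.subtype) = finrank (ZMod p) H :=
    Submodule.finrank_map_subtype_eq R H
  have h5 : finrank (ZMod p) (LinearMap.range ρ) + finrank (ZMod p) (LinearMap.ker ρ) =
      finrank (ZMod p) (Dual (ZMod p) V) := LinearMap.finrank_range_add_finrank_ker ρ
  rw [LinearMap.range_eq_top.2 hρ, finrank_top, Subspace.dual_finrank_eq,
    Subspace.dual_finrank_eq] at h5
  let σ : ↥(J.comap ρ) →ₗ[ZMod p] J := ρ.restrict (p := J.comap ρ) (q := J) (fun x hx => hx)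
  have h6 : finrank (ZMod p) (LinearMap.range σ) + finrank (ZMod p) (LinearMap.ker σ) =
      finrank (ZMod p) ↥(J.comap ρ) := LinearMap.finrank_range_add_finrank_ker σ
  have h7 : finrank (ZMod p) (LinearMap.range σ) ≤ finrank (ZMod p) J := Submodule.finrank_le _
  have h8 : finrank (ZMod p) (LinearMap.ker σ) ≤ finrank (ZMod p) (LinearMap.ker ρ) := by
    have h9 : (LinearMap.ker σ).map (J.comap ρ).subtype ≤ LinearMap.ker ρ := by
      rintro _ ⟨y, hy, rfl⟩
      have h10 : σ y = 0 := hy
      have h11 : ((σ y : J) : Dual (ZMod p) R) = 0 := by rw [h10]; rfl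
      exact h11
    have h12 := Submodule.finrank_mono h9
    rwa [Submodule.finrank_map_subtype_eq (J.comap ρ) (LinearMap.ker σ)] at h12
  omega

end QSys
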