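import Pool.Agent.Lib.MP_c77682_nt.Prop4
import Pool.Agent.Lib.MP_c77682_nt.Count
import Pool.Agent.Lib.MP_c77682_nt.Series
import Pool.Agent.Lib.MP_c77682_nt.StabTT

/-!
Nonsingular zeros over `F_p` (assembly, helper64).
-/

set_option autoImplicit false

open Module

namespace QSys

variable (p : ℕ) [Fact p.Prime] {V W : Type} [AddCommGroup V] [Module (ZMod p) V]
  [FiniteDimensional (ZMod p) V] [AddCommGroup W] [Module (ZMod p) W] [FiniteDimensional (ZMod p) W]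

/-- The bound of `prop4` for `ZMod p` with the parameters used here. -/
theorem prop4' (k r L₀ : ℕ) (hL : 10 ≤ L₀) (hk : 24 * L₀ ≤ k) (hr : 1 ≤ r)
    (hkr : k * r ≤ 2 ^ L₀)
    {L V' Y : Type} [AddCommGroup L] [Module (ZMod p) L] [FiniteDimensional (ZMod p) L]
    [AddCommGroup V'] [Module (ZMod p) V'] [FiniteDimensional (ZMod p) V']
    [AddCommGroup Y] [Module (ZMod p) Y] [FiniteDimensional (ZMod p) Y]
    (T : L →ₗ[ZMod p] V' →ₗ[ZMod p] Y) (c : ℕ) (hLr : finrank (ZMod p) L ≤ r)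
    (hT : Stable T k c) (ρ : ℕ) (hρ : 1 ≤ ρ) :
    (lowCard T ρ : ℝ) ≤ (p : ℝ) ^ ((c : ℝ) / k) *
      (p : ℝ) ^ ((ρ : ℝ) / 4 + 4 + Real.logb 2 L₀ + 2 * Real.logb 2 ρ) := by
  have hp1 : (1 : ℝ) ≤ (p : ℝ) := by exact_mod_cast (Fact.out : p.Prime).one_lt.le
  have hp0 : (0 : ℝ) < (p : ℝ) := by linarith
  have hk0 : (0 : ℝ) < (k : ℝ) := by
    have : 0 < k := by omega
    exact_mod_cast this
  have h := prop4 (F := ZMod p) k r L₀ hL (by omega) hr hkr T c hLr hT ρ hρ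
  rw [Nat.card_zmod] at h
  refine h.trans ?_
  rw [← Real.rpow_add hp0]
  apply Real.rpow_le_rpow_of_exponent_le hp1
  have h1 : 6 * (L₀ : ℝ) * ρ / k ≤ (ρ : ℝ) / 4 := by
    rw [div_le_div_iff₀ hk0 (by norm_num)]
    have h2 : (24 : ℝ) * L₀ ≤ k := by exact_mod_cast hk
    have h3 : (0 : ℝ) ≤ (ρ : ℝ) := Nat.cast_nonneg _
    nlinarith
  linarith

theorem exists_nonsing (g : V → W) (B : V →ₗ[ZMod p] V →ₗ[ZMod p] W)
    (hB : ∀ x y, g (x + y) = g x + g y + B x y) (k L₀ : ℕ) (hW : 1 ≤ finrank (ZMod p) W)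
    (hL : 10 ≤ L₀) (hk : 24 * L₀ ≤ k) (hkr : k * finrank (ZMod p) W ≤ 2 ^ L₀)
    (hstar : ∀ (U : Submodule (ZMod p) V) (Q : Submodule (ZMod p) W), (∀ x ∈ U, g x ∈ Q) →
      (k + 1) * finrank (ZMod p) W + finrank (ZMod p) U ≤
        finrank (ZMod p) V + (k + 1) * finrank (ZMod p) Q) :
    ∃ x : V, g x = 0 ∧ Function.Surjective (B x) := by
  classical
  by_contra hcon
  push Not at hcon
  have hp2 : (2 : ℝ) ≤ (p : ℝ) := by exact_mod_cast (Fact.out : p.Prime).two_le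
  have hp1 : (1 : ℝ) ≤ (p : ℝ) := by linarith
  have hp0 : (0 : ℝ) < (p : ℝ) := by linarith
  have hk1 : 1 ≤ k := by omega
  have hk0 : (0 : ℝ) < (k : ℝ) := by exact_mod_cast hk1
  have hfV : Finite V := Module.finite_of_finite (ZMod p)
  have hfW : Finite (Dual (ZMod p) W) := Module.finite_of_finite (ZMod p)
  let _ := Fintype.ofFinite V
  let _ := Fintype.ofFinite (Dual (ZMod p) W)
  have hdual : finrank (ZMod p) (Dual (ZMod p) W) = finrank (ZMod p) W :=
    Subspace.dual_finrank_eq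
  have hst : Stable (TT B) k 0 := stable_TT p g B hB k hstar
  have hrk : ∀ l : Dual (ZMod p) W, l ≠ 0 → k ≤ rk (TT B) l := fun l hl => by
    simpa using le_rk (TT B) k 0 hst l hl
  -- (1)
  have h1 : ∀ ρ : ℕ, 1 ≤ ρ → (lowCard (TT B) ρ : ℝ) ≤
      (p : ℝ) ^ ((ρ : ℝ) / 4 + 4 + Real.logb 2 L₀ + 2 * Real.logb 2 ρ) := by
    intro ρ hρ
    have h := prop4' p k _ L₀ hL hk hW hkr (TT B) 0 hdual.le hst ρ hρ
    simpa using h
  -- (2)
  have h2 := count_lower p g B hB k hrk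
  have h2' : ∑ ρ ∈ Finset.Icc k (finrank (ZMod p) V),
      (lowCard (TT B) ρ : ℝ) * (p : ℝ) ^ (-(ρ : ℝ) / 2) ≤ 1 / 4 := by
    refine le_trans (Finset.sum_le_sum fun ρ hρ => ?_)
      (series2 (p : ℝ) hp2 L₀ k hL hk (finrank (ZMod p) V))
    rw [Finset.mem_Icc] at hρ
    exact mul_le_mul_of_nonneg_right (h1 ρ (by omega)) (Real.rpow_nonneg hp0.le _)
  -- (3)
  have h3 : ∀ l : Dual (ZMod p) W, l ≠ 0 →
      (Nat.card {x : V // x ∈ LinearMap.ker (TT B l) ∧ g x = 0} : ℝ) ≤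
        (p : ℝ) ^ ((finrank (ZMod p) V : ℝ) - (finrank (ZMod p) W : ℝ)) *
        (p : ℝ) ^ (-(rk (TT B) l : ℝ) + 2 * (rk (TT B) l : ℝ) / k + 16 + Real.logb 2 L₀) := by
    intro l hl
    have hrn : rk (TT B) l + finrank (ZMod p) (LinearMap.ker (TT B l)) = finrank (ZMod p) V :=
      LinearMap.finrank_range_add_finrank_ker (TT B l)
    have hs := stable_TT_restrict p B k hst (LinearMap.ker (TT B l)) (rk (TT B) l) (by omega)
    have hc := count_upper p (fun x : LinearMap.ker (TT B l) => g x)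
      (B.domRestrict₁₂ (LinearMap.ker (TT B l)) (LinearMap.ker (TT B l)))
      (fun x y => hB x y)
    have hcard : Nat.card {x : V // x ∈ LinearMap.ker (TT B l) ∧ g x = 0} =
        Nat.card {x : LinearMap.ker (TT B l) // g x = 0} :=
      Nat.card_congr (Equiv.subtypeSubtypeEquivSubtypeInter _ _).symm
    rw [hcard]
    refine hc.trans ?_
    -- bound of the sum
    have hz : (lowCard (TT (B.domRestrict₁₂ (LinearMap.ker (TT B l)) (LinearMap.ker (TT B l)))) 0 : ℝ)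
        ≤ (p : ℝ) ^ (((2 * rk (TT B) l : ℕ) : ℝ) / k) := by
      have h := lowCard_zero _ k (2 * rk (TT B) l) hs
      rw [Nat.card_zmod] at h
      have h' : ((lowCard (TT (B.domRestrict₁₂ (LinearMap.ker (TT B l))
          (LinearMap.ker (TT B l)))) 0 : ℝ)) ^ k ≤ (p : ℝ) ^ (2 * rk (TT B) l) := by
        exact_mod_cast h
      have h4 : ((p : ℝ) ^ (((2 * rk (TT B) l : ℕ) : ℝ) / k)) ^ k = (p : ℝ) ^ (2 * rk (TT B) l) := by
        rw [← Real.rpow_natCast, ← Real.rpow_mul hp0.le, div_mul_cancel₀ _ hk0.ne',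
          Real.rpow_natCast]
      rw [← h4] at h'
      exact le_of_pow_le_pow_left₀ (by omega) (Real.rpow_nonneg hp0.le _) h'
    have hsum : ∑ ρ ∈ Finset.range (finrank (ZMod p) (LinearMap.ker (TT B l)) + 1),
        (lowCard (TT (B.domRestrict₁₂ (LinearMap.ker (TT B l)) (LinearMap.ker (TT B l)))) ρ : ℝ) *
          (p : ℝ) ^ (-(ρ : ℝ) / 2) ≤
        (p : ℝ) ^ (((2 * rk (TT B) l : ℕ) : ℝ) / k) * (p : ℝ) ^ (16 + Real.logb 2 L₀) := by
      rw [Finset.range_eq_Ico, Finset.sum_eq_sum_Ico_succ_bot (by omega)]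
      have hIco : Finset.Ico (0 + 1) (finrank (ZMod p) (LinearMap.ker (TT B l)) + 1) =
          Finset.Icc 1 (finrank (ZMod p) (LinearMap.ker (TT B l))) := by
        ext x
        simp only [Finset.mem_Ico, Finset.mem_Icc]
        omega
      rw [hIco]
      have hz' : (lowCard (TT (B.domRestrict₁₂ (LinearMap.ker (TT B l))
          (LinearMap.ker (TT B l)))) 0 : ℝ) * (p : ℝ) ^ (-((0 : ℕ) : ℝ) / 2) ≤
          (p : ℝ) ^ (((2 * rk (TT B) l : ℕ) : ℝ) / k) := by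
        simpa using hz
      have hrest : ∑ ρ ∈ Finset.Icc 1 (finrank (ZMod p) (LinearMap.ker (TT B l))),
          (lowCard (TT (B.domRestrict₁₂ (LinearMap.ker (TT B l)) (LinearMap.ker (TT B l)))) ρ : ℝ) *
          (p : ℝ) ^ (-(ρ : ℝ) / 2) ≤ (p : ℝ) ^ (((2 * rk (TT B) l : ℕ) : ℝ) / k) *
          ∑ ρ ∈ Finset.Icc 1 (finrank (ZMod p) (LinearMap.ker (TT B l))),
            (p : ℝ) ^ ((ρ : ℝ) / 4 + 4 + Real.logb 2 L₀ + 2 * Real.logb 2 ρ) *
              (p : ℝ) ^ (-(ρ : ℝ) / 2) := by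
        rw [Finset.mul_sum]
        refine Finset.sum_le_sum fun ρ hρ => ?_
        rw [Finset.mem_Icc] at hρ
        rw [← mul_assoc]
        exact mul_le_mul_of_nonneg_right
          (prop4' p k _ L₀ hL hk hW hkr _ (2 * rk (TT B) l) hdual.le hs ρ hρ.1)
          (Real.rpow_nonneg hp0.le _)
      have hser := series1 (p : ℝ) hp2 L₀ (by omega) (finrank (ZMod p) (LinearMap.ker (TT B l)))
      calc _ ≤ (p : ℝ) ^ (((2 * rk (TT B) l : ℕ) : ℝ) / k) +
            (p : ℝ) ^ (((2 * rk (TT B) l : ℕ) : ℝ) / k) *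
            ∑ ρ ∈ Finset.Icc 1 (finrank (ZMod p) (LinearMap.ker (TT B l))),
            (p : ℝ) ^ ((ρ : ℝ) / 4 + 4 + Real.logb 2 L₀ + 2 * Real.logb 2 ρ) *
              (p : ℝ) ^ (-(ρ : ℝ) / 2) := add_le_add hz' hrest
        _ = (p : ℝ) ^ (((2 * rk (TT B) l : ℕ) : ℝ) / k) * (1 +
            ∑ ρ ∈ Finset.Icc 1 (finrank (ZMod p) (LinearMap.ker (TT B l))),
            (p : ℝ) ^ ((ρ : ℝ) / 4 + 4 + Real.logb 2 L₀ + 2 * Real.logb 2 ρ) *
              (p : ℝ) ^ (-(ρ : ℝ) / 2)) := by ring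
        _ ≤ _ := mul_le_mul_of_nonneg_left hser (Real.rpow_nonneg hp0.le _)
    refine (mul_le_mul_of_nonneg_left hsum (Real.rpow_nonneg hp0.le _)).trans (le_of_eq ?_)
    rw [← Real.rpow_add hp0, ← Real.rpow_add hp0, ← Real.rpow_add hp0]
    congr 1
    have hrn' : (rk (TT B) l : ℝ) + (finrank (ZMod p) (LinearMap.ker (TT B l)) : ℝ) =
        (finrank (ZMod p) V : ℝ) := by exact_mod_cast hrn
    push_cast
    linarith
  -- (4)
  have hsub : (Finset.univ.filter (fun x : V => g x = 0)) ⊆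
      (Finset.univ.filter (fun l : Dual (ZMod p) W => l ≠ 0)).biUnion
        (fun l => Finset.univ.filter (fun x : V => x ∈ LinearMap.ker (TT B l) ∧ g x = 0)) := by
    intro x hx
    have hx0 : g x = 0 := (Finset.mem_filter.1 hx).2
    have hns := hcon x hx0
    have hlt : LinearMap.range (B x) < ⊤ := by
      rw [lt_top_iff_ne_top]
      intro h
      exact hns (LinearMap.range_eq_top.1 h)
    obtain ⟨l, hl0, hl⟩ := Submodule.exists_le_ker_of_lt_top _ hlt
    rw [Finset.mem_biUnion]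
    refine ⟨l, Finset.mem_filter.2 ⟨Finset.mem_univ _, hl0⟩, Finset.mem_filter.2
      ⟨Finset.mem_univ _, ?_, hx0⟩⟩
    rw [LinearMap.mem_ker]
    ext y
    exact LinearMap.mem_ker.1 (hl ⟨y, rfl⟩)
  have hN : (Nat.card {x : V // g x = 0} : ℝ) ≤
      ∑ l ∈ Finset.univ.filter (fun l : Dual (ZMod p) W => l ≠ 0),
        (p : ℝ) ^ ((finrank (ZMod p) V : ℝ) - (finrank (ZMod p) W : ℝ)) *
        (p : ℝ) ^ (-(rk (TT B) l : ℝ) + 2 * (rk (TT B) l : ℝ) / k + 16 + Real.logb 2 L₀) := by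
    have hN1 : Nat.card {x : V // g x = 0} ≤
        ∑ l ∈ Finset.univ.filter (fun l : Dual (ZMod p) W => l ≠ 0),
          Nat.card {x : V // x ∈ LinearMap.ker (TT B l) ∧ g x = 0} := by
      rw [Nat.card_eq_fintype_card, Fintype.card_subtype]
      refine (Finset.card_le_card hsub).trans (Finset.card_biUnion_le.trans (le_of_eq ?_))
      refine Finset.sum_congr rfl fun l _ => ?_
      rw [Nat.card_eq_fintype_card, Fintype.card_subtype]
    calc (Nat.card {x : V // g x = 0} : ℝ) ≤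
        ((∑ l ∈ Finset.univ.filter (fun l : Dual (ZMod p) W => l ≠ 0),
          Nat.card {x : V // x ∈ LinearMap.ker (TT B l) ∧ g x = 0} : ℕ) : ℝ) := by
          exact_mod_cast hN1
      _ = ∑ l ∈ Finset.univ.filter (fun l : Dual (ZMod p) W => l ≠ 0),
          (Nat.card {x : V // x ∈ LinearMap.ker (TT B l) ∧ g x = 0} : ℝ) := by push_cast; rfl
      _ ≤ _ := Finset.sum_le_sum fun l hl => h3 l (Finset.mem_filter.1 hl).2
  have hgroup : ∑ l ∈ Finset.univ.filter (fun l : Dual (ZMod p) W => l ≠ 0),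
      (p : ℝ) ^ (-(rk (TT B) l : ℝ) + 2 * (rk (TT B) l : ℝ) / k + 16 + Real.logb 2 L₀) ≤ 1 / 4 := by
    have hmaps : ∀ l ∈ Finset.univ.filter (fun l : Dual (ZMod p) W => l ≠ 0),
        rk (TT B) l ∈ Finset.Icc k (finrank (ZMod p) V) := by
      intro l hl
      rw [Finset.mem_Icc]
      exact ⟨hrk l (Finset.mem_filter.1 hl).2, rk_le _ _⟩
    rw [← Finset.sum_fiberwise_of_maps_to hmaps]
    refine le_trans (Finset.sum_le_sum fun d hd => ?_)
      (series3 (p : ℝ) hp2 L₀ k hL hk (finrank (ZMod p) V))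
    rw [Finset.mem_Icc] at hd
    have e1 : ∑ l ∈ (Finset.univ.filter (fun l : Dual (ZMod p) W => l ≠ 0)).filter
        (fun l => rk (TT B) l = d),
        (p : ℝ) ^ (-(rk (TT B) l : ℝ) + 2 * (rk (TT B) l : ℝ) / k + 16 + Real.logb 2 L₀) =
        (((Finset.univ.filter (fun l : Dual (ZMod p) W => l ≠ 0)).filter
        (fun l => rk (TT B) l = d)).card : ℝ) *
        (p : ℝ) ^ (-(d : ℝ) + 2 * (d : ℝ) / k + 16 + Real.logb 2 L₀) := by
      rw [Finset.sum_congr rfl (g := fun _ =>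
        (p : ℝ) ^ (-(d : ℝ) + 2 * (d : ℝ) / k + 16 + Real.logb 2 L₀))]
      · rw [Finset.sum_const, nsmul_eq_mul]
      · intro l hl
        rw [(Finset.mem_filter.1 hl).2]
    rw [e1]
    refine mul_le_mul_of_nonneg_right ?_ (Real.rpow_nonneg hp0.le _)
    refine le_trans ?_ (h1 d (by omega))
    have e2 : ((Finset.univ.filter (fun l : Dual (ZMod p) W => l ≠ 0)).filter
        (fun l => rk (TT B) l = d)).card ≤ lowCard (TT B) d := by
      rw [lowCard, Nat.card_eq_fintype_card, Fintype.card_subtype]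
      refine Finset.card_le_card fun l hl => ?_
      exact Finset.mem_filter.2 ⟨Finset.mem_univ _, (Finset.mem_filter.1 hl).2.le⟩
    exact_mod_cast e2
  rw [← Finset.mul_sum] at hN
  have hpos : 0 < (p : ℝ) ^ ((finrank (ZMod p) V : ℝ) - (finrank (ZMod p) W : ℝ)) :=
    Real.rpow_pos_of_pos hp0 _
  have hA := h2.trans (hN.trans (mul_le_mul_of_nonneg_left hgroup hpos.le))
  have hB' := le_of_mul_le_mul_left hA hpos
  linarith

end QSys
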