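import Pool.Agent.Lib.MP_c77682_nt.LiftSub
import Pool.Agent.Lib.MP_c77682_nt.Factor

/-!
QF-16. A triple of maximal energy satisfies (**) (Lemma 7 of the paper).

PROOF. Take `α` from `exists_lift_sub` for `U` and `β` for `Q`. For every `x`, `redv p (α x) ∈ U`, so
`redv p (g (α x)) = gb (redv p (α x)) ∈ Q` and `g (α x) ∈ range β`. `factor` gives `g'` with `β (g' x) = g (α x)`. Then
`(φ ∘ α, ψ ∘ β, g')` satisfies `ψ (β (g' x)) = ψ (g (α x)) = f (φ (α x))`, determinants multiply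
(`LinearMap.det_comp`), valuations add (`PadicInt.valuation_mul`). Insert into `hmax`:
`K * (v ψ + codim Q) + 2 * v φ ≤ K * v ψ + 2 * (v φ + codim U)`, so `K * codim Q ≤ 2 * codim U`
(`codim U + finrank U = n`, `codim Q + finrank Q = r`).
-/

set_option autoImplicit false

open Module

namespace QSys

theorem star_of_max (p : ℕ) [Fact p.Prime] (K n r : ℕ)
    (f : QuadraticMap ℤ_[p] (Fin n → ℤ_[p]) (Fin r → ℤ_[p]))
    (φ : (Fin n → ℤ_[p]) →ₗ[ℤ_[p]] (Fin n → ℤ_[p])) (ψ : (Fin r → ℤ_[p]) →ₗ[ℤ_[p]] (Fin r → ℤ_[p]))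
    (g : QuadraticMap ℤ_[p] (Fin n → ℤ_[p]) (Fin r → ℤ_[p]))
    (hφ : LinearMap.det φ ≠ 0) (hψ : LinearMap.det ψ ≠ 0) (h : ∀ x, ψ (g x) = f (φ x))
    (hmax : ∀ (φ' : (Fin n → ℤ_[p]) →ₗ[ℤ_[p]] (Fin n → ℤ_[p]))
      (ψ' : (Fin r → ℤ_[p]) →ₗ[ℤ_[p]] (Fin r → ℤ_[p]))
      (g' : QuadraticMap ℤ_[p] (Fin n → ℤ_[p]) (Fin r → ℤ_[p])),
      LinearMap.det φ' ≠ 0 → LinearMap.det ψ' ≠ 0 → (∀ x, ψ' (g' x) = f (φ' x)) →
      K * (LinearMap.det ψ').valuation + 2 * (LinearMap.det φ).valuation ≤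
        K * (LinearMap.det ψ).valuation + 2 * (LinearMap.det φ').valuation)
    (gb : (Fin n → ZMod p) → (Fin r → ZMod p)) (hgb : ∀ x, gb (redv p x) = redv p (g x))
    (U : Submodule (ZMod p) (Fin n → ZMod p)) (Q : Submodule (ZMod p) (Fin r → ZMod p))
    (hUQ : ∀ x ∈ U, gb x ∈ Q) :
    K * r + 2 * finrank (ZMod p) U ≤ 2 * n + K * finrank (ZMod p) Q := by
  obtain ⟨α, hα0, hαU, hαv⟩ := exists_lift_sub p U
  obtain ⟨β, hβ0, hβQ, hβv⟩ := exists_lift_sub p Q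
  have hr : ∀ x, g (α x) ∈ LinearMap.range β := by
    intro x
    rw [hβQ, ← hgb]
    exact hUQ _ ((hαU (α x)).1 ⟨x, rfl⟩)
  obtain ⟨g', hg'⟩ := factor p g α β (inj_of_det p β hβ0) hr
  have hφα : LinearMap.det (φ ∘ₗ α) ≠ 0 := by
    rw [LinearMap.det_comp]; exact mul_ne_zero hφ hα0
  have hψβ : LinearMap.det (ψ ∘ₗ β) ≠ 0 := by
    rw [LinearMap.det_comp]; exact mul_ne_zero hψ hβ0
  have h1 := hmax (φ ∘ₗ α) (ψ ∘ₗ β) g' hφα hψβ (by
    intro x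
    rw [LinearMap.comp_apply, LinearMap.comp_apply, hg' x, h])
  have h2 : (LinearMap.det (φ ∘ₗ α)).valuation
      = (LinearMap.det φ).valuation + (LinearMap.det α).valuation := by
    rw [LinearMap.det_comp, PadicInt.valuation_mul hφ hα0]
  have h3 : (LinearMap.det (ψ ∘ₗ β)).valuation
      = (LinearMap.det ψ).valuation + (LinearMap.det β).valuation := by
    rw [LinearMap.det_comp, PadicInt.valuation_mul hψ hβ0]
  rw [h2, h3, Nat.mul_add, Nat.mul_add] at h1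
  have h4 : K * r = K * (LinearMap.det β).valuation + K * finrank (ZMod p) Q := by
    rw [← Nat.mul_add, hβv]
  omega

end QSys
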