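import Pool.Agent.Lib.MP_c77682_nt.BoundE
import Pool.Agent.Lib.MP_c77682_nt.StarMax
import Pool.Agent.Lib.MP_c77682_nt.Cpt
import Pool.Agent.Lib.MP_c77682_nt.Hensel
import Pool.Agent.Lib.MP_c77682_nt.NonSing

/-!
QF-17. The induction step (Sections 3 and 4 of the paper).

PROOF. By contradiction: `f x = 0 → x = 0`. `exists_level` gives `m`. By `bound_energy` the integers
`K * v(det ψ) - 2 * v(det φ)` for the triples `(φ, ψ, g)` are bounded above by `K r m`; the triple `(id, id, f)` exists; so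
there is a triple with the largest value (e.g. `Int.exists_greatest_of_bdd`). `exists_red` gives `gb`, `Bb`; `star_of_max`
with `K = 2 * (k + 1)` gives, for all `U`, `Q` with `gb U ⊆ Q`,
`(k+1) * r + finrank U ≤ n + (k+1) * finrank Q` where `n = K * r`. `exists_nonsing` gives `xb` with `gb xb = 0` and
`Bb xb` surjective. Lift `xb = redv p x0`. `p ∣ g x0 k`; for every `w` there is `y` with
`Bb xb (redv p y) = redv p w`, i.e. `p ∣ polar g x0 y k - w k`. `hensel` gives `x ≡ x0 mod p` with `g x = 0`. `x ≠ 0`: otherwise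
`xb = redv p x0 = redv p 0 = 0`, and `Bb 0 = 0` is not surjective as `r ≥ 1`. So `φ x ≠ 0` (`inj_of_det`) and
`f (φ x) = ψ (g x) = ψ 0 = 0`: contradiction.
-/

set_option autoImplicit false

open Module

namespace QSys

theorem induction_step (p : ℕ) [Fact p.Prime] (k L₀ r : ℕ) (hr : 1 ≤ r) (hL : 10 ≤ L₀)
    (hk : 24 * L₀ ≤ k) (hkr : k * r ≤ 2 ^ L₀)
    (hP : ∀ j < r, ∀ h : QuadraticMap ℤ_[p] (Fin (2 * (k + 1) * j + 1) → ℤ_[p]) (Fin j → ℤ_[p]),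
      ∃ x, x ≠ 0 ∧ h x = 0)
    (f : QuadraticMap ℤ_[p] (Fin (2 * (k + 1) * r) → ℤ_[p]) (Fin r → ℤ_[p])) :
    ∃ x, x ≠ 0 ∧ f x = 0 := by
  by_contra hcon
  push Not at hcon
  have hf0 : ∀ x, f x = 0 → x = 0 := by
    intro x hx
    by_contra hx0
    exact hcon x hx0 hx
  obtain ⟨m, hm⟩ := exists_level p f hf0
  have hbdd : ∃ b : ℤ, ∀ z : ℤ, (∃ (φ : (Fin (2 * (k + 1) * r) → ℤ_[p]) →ₗ[ℤ_[p]] (Fin (2 * (k + 1) * r) → ℤ_[p]))
      (ψ : (Fin r → ℤ_[p]) →ₗ[ℤ_[p]] (Fin r → ℤ_[p]))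
      (g : QuadraticMap ℤ_[p] (Fin (2 * (k + 1) * r) → ℤ_[p]) (Fin r → ℤ_[p])),
      LinearMap.det φ ≠ 0 ∧ LinearMap.det ψ ≠ 0 ∧ (∀ x, ψ (g x) = f (φ x)) ∧
      z = ((2 * (k + 1) * (LinearMap.det ψ).valuation : ℕ) : ℤ) - ((2 * (LinearMap.det φ).valuation : ℕ) : ℤ)) →
      z ≤ b := by
    refine ⟨((2 * (k + 1) * r * m : ℕ) : ℤ), ?_⟩
    rintro z ⟨φ, ψ, g, hφ, hψ, h, rfl⟩
    have h1 := bound_energy p (2 * (k + 1)) r m f hm hP φ ψ g hφ hψ h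
    have h2 : ((2 * (k + 1) * (LinearMap.det ψ).valuation : ℕ) : ℤ) ≤
        ((2 * (LinearMap.det φ).valuation + 2 * (k + 1) * r * m : ℕ) : ℤ) := by exact_mod_cast h1
    rw [Nat.cast_add] at h2
    linarith
  have hinh : ∃ z : ℤ, (∃ (φ : (Fin (2 * (k + 1) * r) → ℤ_[p]) →ₗ[ℤ_[p]] (Fin (2 * (k + 1) * r) → ℤ_[p]))
      (ψ : (Fin r → ℤ_[p]) →ₗ[ℤ_[p]] (Fin r → ℤ_[p]))
      (g : QuadraticMap ℤ_[p] (Fin (2 * (k + 1) * r) → ℤ_[p]) (Fin r → ℤ_[p])),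
      LinearMap.det φ ≠ 0 ∧ LinearMap.det ψ ≠ 0 ∧ (∀ x, ψ (g x) = f (φ x)) ∧
      z = ((2 * (k + 1) * (LinearMap.det ψ).valuation : ℕ) : ℤ) - ((2 * (LinearMap.det φ).valuation : ℕ) : ℤ)) := by
    refine ⟨_, LinearMap.id, LinearMap.id, f, ?_, ?_, fun x => rfl, rfl⟩
    · rw [LinearMap.det_id]; exact one_ne_zero
    · rw [LinearMap.det_id]; exact one_ne_zero
  obtain ⟨z, ⟨φ, ψ, g, hφ, hψ, h, rfl⟩, hmaxz⟩ := Int.exists_greatest_of_bdd hbdd hinh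
  have hmax : ∀ (φ' : (Fin (2 * (k + 1) * r) → ℤ_[p]) →ₗ[ℤ_[p]] (Fin (2 * (k + 1) * r) → ℤ_[p]))
      (ψ' : (Fin r → ℤ_[p]) →ₗ[ℤ_[p]] (Fin r → ℤ_[p]))
      (g' : QuadraticMap ℤ_[p] (Fin (2 * (k + 1) * r) → ℤ_[p]) (Fin r → ℤ_[p])),
      LinearMap.det φ' ≠ 0 → LinearMap.det ψ' ≠ 0 → (∀ x, ψ' (g' x) = f (φ' x)) →
      2 * (k + 1) * (LinearMap.det ψ').valuation + 2 * (LinearMap.det φ).valuation ≤
        2 * (k + 1) * (LinearMap.det ψ).valuation + 2 * (LinearMap.det φ').valuation := by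
    intro φ' ψ' g' hφ' hψ' h'
    have h1 := hmaxz _ ⟨φ', ψ', g', hφ', hψ', h', rfl⟩
    have h2 : ((2 * (k + 1) * (LinearMap.det ψ').valuation : ℕ) : ℤ) + ((2 * (LinearMap.det φ).valuation : ℕ) : ℤ) ≤
        ((2 * (k + 1) * (LinearMap.det ψ).valuation : ℕ) : ℤ) + ((2 * (LinearMap.det φ').valuation : ℕ) : ℤ) := by
      linarith
    exact_mod_cast h2
  obtain ⟨gb, Bb, hgbadd, hgb, hBb⟩ := exists_red p g
  have hfr : finrank (ZMod p) (Fin r → ZMod p) = r := by simp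
  have hfn : finrank (ZMod p) (Fin (2 * (k + 1) * r) → ZMod p) = 2 * (k + 1) * r := by simp
  have hstar : ∀ (U : Submodule (ZMod p) (Fin (2 * (k + 1) * r) → ZMod p))
      (Q : Submodule (ZMod p) (Fin r → ZMod p)), (∀ x ∈ U, gb x ∈ Q) →
      (k + 1) * finrank (ZMod p) (Fin r → ZMod p) + finrank (ZMod p) U ≤
        finrank (ZMod p) (Fin (2 * (k + 1) * r) → ZMod p) + (k + 1) * finrank (ZMod p) Q := by
    intro U Q hUQ
    have h1 := star_of_max p (2 * (k + 1)) (2 * (k + 1) * r) r f φ ψ g hφ hψ h hmax gb hgb U Q hUQ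
    rw [hfr, hfn]
    have h2 : 2 * ((k + 1) * r + finrank (ZMod p) U) ≤
        2 * (2 * (k + 1) * r + (k + 1) * finrank (ZMod p) Q) := by
      calc 2 * ((k + 1) * r + finrank (ZMod p) U) = 2 * (k + 1) * r + 2 * finrank (ZMod p) U := by ring
        _ ≤ 2 * (2 * (k + 1) * r) + 2 * (k + 1) * finrank (ZMod p) Q := h1
        _ = _ := by ring
    omega
  obtain ⟨xb, hxb0, hxbs⟩ := exists_nonsing p gb Bb hgbadd k L₀ (by rw [hfr]; exact hr) hL hk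
    (by rw [hfr]; exact hkr) hstar
  obtain ⟨x0, rfl⟩ := redv_surj p xb
  have hz : redv p (0 : Fin r → ℤ_[p]) = 0 := by
    funext i; simp [redv]
  have hzn : redv p (0 : Fin (2 * (k + 1) * r) → ℤ_[p]) = 0 := by
    funext i; simp [redv]
  have hg0 : ∀ i, (p : ℤ_[p]) ∣ g x0 i := by
    have h1 : redv p (g x0) = redv p 0 := by rw [← hgb, hxb0, hz]
    rw [redv_eq_iff] at h1
    intro i
    simpa using h1 i
  have hs : ∀ w : Fin r → ℤ_[p], ∃ y : Fin (2 * (k + 1) * r) → ℤ_[p],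
      ∀ i, (p : ℤ_[p]) ∣ QuadraticMap.polar g x0 y i - w i := by
    intro w
    obtain ⟨yb, hyb⟩ := hxbs (redv p w)
    obtain ⟨y, rfl⟩ := redv_surj p yb
    refine ⟨y, ?_⟩
    rw [hBb, redv_eq_iff] at hyb
    exact hyb
  obtain ⟨x, hx1, hx2⟩ := hensel p g x0 hg0 hs
  have hx0 : x ≠ 0 := by
    rintro rfl
    have h1 : redv p (0 : Fin (2 * (k + 1) * r) → ℤ_[p]) = redv p x0 := (redv_eq_iff p _ _).2 hx1
    rw [hzn] at h1
    rw [← h1, map_zero] at hxbs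
    obtain ⟨y, hy⟩ := hxbs (fun _ => 1)
    have h2 := congrFun hy ⟨0, hr⟩
    simp at h2
  have hφx : φ x ≠ 0 := by
    intro h1
    exact hx0 (inj_of_det p φ hφ (by rw [h1, map_zero]))
  exact hcon (φ x) hφx (by rw [← h, hx2, map_zero])

end QSys
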