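import Pool.Agent.Lib.MP_c77682_nt.Dich
import Pool.Agent.Lib.MP_c77682_nt.AnaStep

/-!
QF-4. The bound for the number of elements of low rank.

PROOF. `q = Nat.card F ≥ 2`, so `Real.logb q y ≤ Real.logb 2 y` for `y ≥ 1`. Put
`E j = max 0 (r - j * s0 L₀)` and prove by induction on `j` (for all spaces, `T`, `c` and all `ρ`
at the same time)

  CLAIM j : `1 ≤ ρ`, `ρ ≤ k r` (as reals), `finrank L ≤ r`, `Stable T k c` imply
  `Real.logb q (lowCard T ρ) ≤ Phi k r L₀ ρ + c/k + Gam L₀ ρ + E j`.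

* `j = 0`: `lowCard T ρ ≤ q ^ r`, `E 0 = r` (`r ≥ 0`) and the other terms are nonnegative.
* Step. If `2 ρ > k r`: `logb q (lowCard) ≤ r < 2ρ/k ≤ 30 ρ/k ≤ Phi` (`phi_ge`). Otherwise put
  `t = ρ / (2 L₀)` (natural division), so `t + 1 ≤ ρ` and `2L₀ t ≤ ρ < 2L₀ (t+1)`, and apply `dich` with
  `M = 2 L₀`.
  - case (i), `ρ' = ρ - (t+1)`: `lowCard T ρ ≤ (2L₀/(2L₀-1)) * lowCard (quot T J) ρ'`, so
    `logb q (lowCard T ρ) ≤ s0 L₀ + logb q (lowCard (quot T J) ρ')`; `quot T J` is `(k, c+ρ)`-stable. If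
    `ρ' = 0` use `lowCard_zero` (`logb q ≤ (c+ρ)/k`) and `stepI0`; if `ρ' ≥ 1` use CLAIM j and `stepI1`
    (`2L₀ρ' ≤ (2L₀-1)ρ` from `2L₀(t+1) > ρ`).
  - case (ii): `2 logb q (lowCard T ρ) ≤ logb q (2L₀) + logb q (lowCard T (2ρ)) +
    logb q (lowCard (restr T H) t)`, `restr T H` is `(k, c+2ρ)`-stable; CLAIM j for `2ρ ≤ k r` and, if
    `t ≥ 1`, CLAIM j for `t`, then `stepII1`; if `t = 0` use `lowCard_zero` and `stepII0`.
  In all cases the result is `≤ Phi + c/k + Gam + max 0 (E j - s0)`, and `max 0 (E j - s0) = E (j+1)`.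
* For large `j` we have `E j = 0` (Archimedean, `s0_pos`). So for `1 ≤ ρ ≤ k r`:
  `logb q (lowCard T ρ) ≤ Phi + c/k + Gam ≤ 6L₀ρ/k + c/k + 4 + log₂L₀ + 2log₂ρ` (`phi_le`). For `ρ > k r`:
  `logb q ≤ r ≤ ρ/k`. Finally pass from `logb` to `rpow` (`Real.logb_le_iff_le_rpow`).
-/

set_option autoImplicit false

open Module

namespace QSys

theorem p4_two_le_card (F : Type) [Field F] [Finite F] : 2 ≤ Nat.card F := Finite.one_lt_card

theorem p4_logb_le_two (F : Type) [Field F] [Finite F] (y : ℝ) (hy : 1 ≤ y) :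
    Real.logb (Nat.card F) y ≤ Real.logb 2 y := by
  have h2 : (2:ℝ) ≤ Nat.card F := by exact_mod_cast p4_two_le_card F
  have hl2 : 0 < Real.log 2 := Real.log_pos (by norm_num)
  have hlq : Real.log 2 ≤ Real.log (Nat.card F) := Real.log_le_log (by norm_num) h2
  unfold Real.logb
  exact div_le_div_of_nonneg_left (Real.log_nonneg hy) hl2 hlq

theorem p4_logb_le_r {F : Type} [Field F] [Finite F] (r : ℕ)
    {L V Y : Type} [AddCommGroup L] [Module F L] [FiniteDimensional F L]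
    [AddCommGroup V] [Module F V] [FiniteDimensional F V]
    [AddCommGroup Y] [Module F Y] [FiniteDimensional F Y]
    (T : L →ₗ[F] V →ₗ[F] Y) (hLr : finrank F L ≤ r) (ρ : ℕ) :
    Real.logb (Nat.card F) (lowCard T ρ) ≤ r := by
  have h2 : (1:ℝ) < Nat.card F := by
    have := p4_two_le_card F
    exact_mod_cast this
  have h1 : 1 ≤ lowCard T ρ := one_le_lowCard T ρ
  have h1' : (0:ℝ) < lowCard T ρ := by exact_mod_cast h1
  rw [Real.logb_le_iff_le_rpow h2 h1', Real.rpow_natCast]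
  have h3 : lowCard T ρ ≤ (Nat.card F) ^ (finrank F L) := lowCard_le T ρ
  have h4 : (Nat.card F) ^ (finrank F L) ≤ (Nat.card F) ^ r :=
    Nat.pow_le_pow_right (by have := p4_two_le_card F; omega) hLr
  exact_mod_cast h3.trans h4

theorem p4_logb_zero {F : Type} [Field F] [Finite F] (k : ℕ) (hk : 1 ≤ k)
    {L V Y : Type} [AddCommGroup L] [Module F L] [FiniteDimensional F L]
    [AddCommGroup V] [Module F V] [FiniteDimensional F V]
    [AddCommGroup Y] [Module F Y] [FiniteDimensional F Y]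
    (T : L →ₗ[F] V →ₗ[F] Y) (c : ℕ) (hT : Stable T k c) :
    Real.logb (Nat.card F) (lowCard T 0) ≤ (c : ℝ) / k := by
  have h2 : (1:ℝ) < Nat.card F := by
    have := p4_two_le_card F
    exact_mod_cast this
  have h0 : (0:ℝ) < Real.log (Nat.card F) := Real.log_pos h2
  have h1 : 1 ≤ lowCard T 0 := one_le_lowCard T 0
  have h1' : (0:ℝ) < lowCard T 0 := by exact_mod_cast h1
  have h3 : ((lowCard T 0 : ℝ)) ^ k ≤ (Nat.card F : ℝ) ^ c := by
    exact_mod_cast lowCard_zero T k c hT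
  have h4 : (k : ℝ) * Real.log (lowCard T 0) ≤ c * Real.log (Nat.card F) := by
    have := Real.log_le_log (pow_pos h1' k) h3
    rwa [Real.log_pow, Real.log_pow] at this
  have hk' : (0:ℝ) < k := by exact_mod_cast hk
  unfold Real.logb
  rw [div_le_div_iff₀ h0 hk']
  linarith

theorem p4_phi_nonneg (k r L : ℕ) (hk : 1 ≤ k) (hL : 10 ≤ L) (x : ℝ) (hx : 0 < x)
    (hxr : x ≤ k * r) : 0 ≤ Phi k r L x := by
  have h := phi_ge k r L hk hL x hx hxr
  have h0 : 0 ≤ 30 * x / k := by positivity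
  linarith

theorem p4_gam_ge (L : ℕ) (hL : 10 ≤ L) (x : ℝ) (hx : 1 ≤ x) : 4 ≤ Gam L x := by
  have h := logb_L_ge L hL
  have h0 : 0 ≤ Real.logb 2 x := Real.logb_nonneg (by norm_num) hx
  unfold Gam
  linarith

theorem p4_max (a s : ℝ) : max 0 (max 0 a - s) ≤ max 0 (a - s) ∨ s < 0 := by
  by_cases hs : s < 0
  · exact Or.inr hs
  · left
    push Not at hs
    rcases le_total 0 a with h | h
    · rw [max_eq_right h]
    · rw [max_eq_left h, max_eq_left (by linarith)]
      exact le_max_left _ _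

theorem p4_claim {F : Type} [Field F] [Finite F] (k r L₀ : ℕ) (hL : 10 ≤ L₀) (hk : 1 ≤ k)
    (hr : 1 ≤ r) (hkr : k * r ≤ 2 ^ L₀) (j : ℕ) :
    ∀ {L V Y : Type} [AddCommGroup L] [Module F L] [FiniteDimensional F L]
    [AddCommGroup V] [Module F V] [FiniteDimensional F V]
    [AddCommGroup Y] [Module F Y] [FiniteDimensional F Y]
    (T : L →ₗ[F] V →ₗ[F] Y) (c : ℕ) (_ : finrank F L ≤ r) (_ : Stable T k c) (ρ : ℕ)
    (_ : 1 ≤ ρ) (_ : (ρ : ℝ) ≤ k * r),
    Real.logb (Nat.card F) (lowCard T ρ) ≤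
      Phi k r L₀ ρ + c / k + Gam L₀ ρ + max 0 (r - j * s0 L₀) := by
  have hk' : (0:ℝ) < k := by exact_mod_cast hk
  have hr' : (0:ℝ) ≤ r := by positivity
  have h2 : (1:ℝ) < Nat.card F := by
    have := p4_two_le_card F
    exact_mod_cast this
  induction j with
  | zero =>
    intro L V Y _ _ _ _ _ _ _ _ _ T c hLr hT ρ hρ hρr
    have h1 := p4_logb_le_r r T hLr ρ
    have hρ' : (1:ℝ) ≤ ρ := by exact_mod_cast hρ
    have h3 := p4_phi_nonneg k r L₀ hk hL ρ (by linarith) hρr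
    have h4 := p4_gam_ge L₀ hL ρ hρ'
    have h5 : (0:ℝ) ≤ c / k := by positivity
    rw [Nat.cast_zero, zero_mul, sub_zero, max_eq_right hr']
    linarith
  | succ j ih =>
    intro L V Y _ _ _ _ _ _ _ _ _ T c hLr hT ρ hρ hρr
    have hs := s0_pos L₀ hL
    have hρ' : (1:ℝ) ≤ ρ := by exact_mod_cast hρ
    set E : ℝ := max 0 (r - j * s0 L₀) with hE
    have hE0 : 0 ≤ E := le_max_left _ _
    -- the target error term
    have hEs : max 0 (E - s0 L₀) ≤ max 0 (r - ((j+1:ℕ):ℝ) * s0 L₀) := by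
      rcases p4_max (r - j * s0 L₀) (s0 L₀) with h | h
      · have e : (r:ℝ) - ((j+1:ℕ):ℝ) * s0 L₀ = r - j * s0 L₀ - s0 L₀ := by
          push_cast; ring
        rw [e]; exact h
      · linarith
    have hEs0 : 0 ≤ max 0 (E - s0 L₀) := le_max_left _ _
    have hEs1 : E - s0 L₀ ≤ max 0 (E - s0 L₀) := le_max_right _ _
    have hc0 : (0:ℝ) ≤ c / k := by positivity
    have hG := p4_gam_ge L₀ hL ρ hρ'
    by_cases h2ρ : (k:ℝ) * r < 2 * ρ
    · have h1 := p4_logb_le_r r T hLr ρ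
      have h3 := phi_ge k r L₀ hk hL ρ (by linarith) hρr
      have h4 : (r:ℝ) ≤ 30 * ρ / k := by
        rw [le_div_iff₀ hk']
        nlinarith
      linarith
    push Not at h2ρ
    have hML : 1 ≤ 2 * L₀ := by omega
    set t : ℕ := ρ / (2 * L₀) with ht
    have htle : 2 * L₀ * t ≤ ρ := Nat.mul_div_le ρ (2 * L₀)
    have htlt : ρ < 2 * L₀ * (t + 1) := by
      have := Nat.lt_mul_div_succ ρ (show 0 < 2 * L₀ by omega)
      exact this
    have ht1 : t + 1 ≤ ρ := by
      rcases Nat.eq_zero_or_pos t with h | h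
      · omega
      · have : 20 * t ≤ 2 * L₀ * t := Nat.mul_le_mul_right t (by omega)
        omega
    have hLow : (0:ℝ) < lowCard T ρ := by
      have : 1 ≤ lowCard T ρ := one_le_lowCard T ρ
      exact_mod_cast this
    have hL₀r : (10:ℝ) ≤ L₀ := by exact_mod_cast hL
    rcases dich T ρ t (2 * L₀) hML ht1 with ⟨J, hJ, hcard⟩ | ⟨H, hH, hcard⟩
    · -- case (i)
      have hst : Stable (quot T J) k (c + ρ) := stable_quot T k c hT J ρ hJ
      have hA : (0:ℝ) < lowCard (quot T J) (ρ - (t + 1)) := by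
        have : 1 ≤ lowCard (quot T J) (ρ - (t + 1)) := one_le_lowCard _ _
        exact_mod_cast this
      have hcard' : (2 * (L₀:ℝ) - 1) * lowCard T ρ ≤
          2 * L₀ * lowCard (quot T J) (ρ - (t + 1)) := by
        have h := (Nat.cast_le (α := ℝ)).mpr hcard
        rw [Nat.cast_mul, Nat.cast_mul, Nat.cast_sub hML, Nat.cast_mul] at h
        simpa using h
      have hpos : (0:ℝ) < 2 * L₀ - 1 := by linarith
      have hratio : (lowCard T ρ : ℝ) ≤
          (2 * L₀ / (2 * L₀ - 1)) * lowCard (quot T J) (ρ - (t + 1)) := by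
        rw [div_mul_eq_mul_div, le_div_iff₀ hpos]
        linarith
      have hq1 : (1:ℝ) ≤ 2 * L₀ / (2 * L₀ - 1) := by
        rw [le_div_iff₀ hpos]; linarith
      have hlog : Real.logb (Nat.card F) (lowCard T ρ) ≤
          s0 L₀ + Real.logb (Nat.card F) (lowCard (quot T J) (ρ - (t + 1))) := by
        have h1 := Real.logb_le_logb_of_le h2 hLow hratio
        rw [Real.logb_mul (by positivity) hA.ne'] at h1
        have h3 := p4_logb_le_two F _ hq1
        have h4 : s0 L₀ = Real.logb 2 (2 * L₀ / (2 * L₀ - 1)) := rfl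
        linarith
      rcases Nat.eq_zero_or_pos (ρ - (t + 1)) with h0 | h0
      · rw [h0] at hlog
        have h5 := p4_logb_zero k hk (quot T J) (c + ρ) hst
        have h6 := stepI0 k r L₀ hk hr hL ρ c hρ' hρr
        push_cast at h5
        linarith
      · have hle : ((ρ - (t + 1) : ℕ) : ℝ) = ρ - (t + 1) := by
          rw [Nat.cast_sub ht1]; push_cast; ring
        have htlt' : (ρ:ℝ) < 2 * L₀ * (t + 1) := by exact_mod_cast htlt
        have hyx : 2 * (L₀:ℝ) * ((ρ - (t + 1) : ℕ) : ℝ) ≤ (2 * L₀ - 1) * ρ := by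
          rw [hle]; nlinarith
        have hy1 : (1:ℝ) ≤ ((ρ - (t + 1) : ℕ) : ℝ) := by exact_mod_cast h0
        have hyr : ((ρ - (t + 1) : ℕ) : ℝ) ≤ k * r := by
          have : ((ρ - (t + 1) : ℕ) : ℝ) ≤ ρ := by exact_mod_cast Nat.sub_le _ _
          linarith
        have h5 := ih (quot T J) (c + ρ) hLr hst (ρ - (t + 1)) h0 hyr
        have h6 := stepI1 k r L₀ hk hr hL ρ ((ρ - (t + 1) : ℕ) : ℝ) c E hy1 hyx hρr
        rw [Nat.cast_add] at h5
        linarith
    · -- case (ii)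
      have hst : Stable (restr T H) k (c + 2 * ρ) := stable_restr T k c hT H (2 * ρ) hH
      have hA : (0:ℝ) < lowCard T (2 * ρ) := by
        have : 1 ≤ lowCard T (2 * ρ) := one_le_lowCard _ _
        exact_mod_cast this
      have hB : (0:ℝ) < lowCard (restr T H) t := by
        have : 1 ≤ lowCard (restr T H) t := one_le_lowCard _ _
        exact_mod_cast this
      have hcard' : (lowCard T ρ : ℝ) ^ 2 ≤
          2 * L₀ * (lowCard T (2 * ρ) * lowCard (restr T H) t) := by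
        have h := (Nat.cast_le (α := ℝ)).mpr hcard
        push_cast at h
        exact h
      have hlog : 2 * Real.logb (Nat.card F) (lowCard T ρ) ≤
          Real.logb 2 (2 * L₀) + Real.logb (Nat.card F) (lowCard T (2 * ρ)) +
            Real.logb (Nat.card F) (lowCard (restr T H) t) := by
        have h1 := Real.logb_le_logb_of_le h2 (by positivity) hcard'
        rw [Real.logb_mul (by positivity) (by positivity), Real.logb_mul hA.ne' hB.ne',
          Real.logb_pow] at h1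
        have h3 := p4_logb_le_two F (2 * (L₀:ℝ)) (by linarith)
        push_cast at h1
        linarith
      have h2ρ1 : 1 ≤ 2 * ρ := by omega
      have hA' := ih T c hLr hT (2 * ρ) h2ρ1 (by push_cast; exact h2ρ)
      have e2 : ((2 * ρ : ℕ) : ℝ) = 2 * (ρ:ℝ) := by push_cast; ring
      rw [e2] at hA'
      rcases Nat.eq_zero_or_pos t with h0 | h0
      · rw [h0] at hlog
        have h5 := p4_logb_zero k hk (restr T H) (c + 2 * ρ) hst
        have h6 := stepII0 k r L₀ hk hr hL ρ c E hρ' hE0 h2ρ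
        push_cast at h5
        linarith
      · have ht1' : (1:ℝ) ≤ t := by exact_mod_cast h0
        have htle' : 2 * (L₀:ℝ) * t ≤ ρ := by exact_mod_cast htle
        have htr : (t:ℝ) ≤ k * r := by nlinarith
        have h5 := ih (restr T H) (c + 2 * ρ) hLr hst t h0 htr
        have h6 := stepII1 k r L₀ hk hr hL (by exact_mod_cast hkr) ρ t c E ht1' htle' h2ρ
        rw [Nat.cast_add, e2] at h5
        linarith

theorem prop4 {F : Type} [Field F] [Finite F] (k r L₀ : ℕ) (hL : 10 ≤ L₀) (hk : 1 ≤ k) (hr : 1 ≤ r)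
    (hkr : k * r ≤ 2 ^ L₀)
    {L V Y : Type} [AddCommGroup L] [Module F L] [FiniteDimensional F L]
    [AddCommGroup V] [Module F V] [FiniteDimensional F V]
    [AddCommGroup Y] [Module F Y] [FiniteDimensional F Y]
    (T : L →ₗ[F] V →ₗ[F] Y) (c : ℕ) (hLr : finrank F L ≤ r) (hT : Stable T k c) (ρ : ℕ) (hρ : 1 ≤ ρ) :
    (lowCard T ρ : ℝ) ≤ (Nat.card F : ℝ) ^
      (6 * (L₀ : ℝ) * ρ / k + c / k + 4 + Real.logb 2 L₀ + 2 * Real.logb 2 ρ) := by
  have hk' : (0:ℝ) < k := by exact_mod_cast hk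
  have h2 : (1:ℝ) < Nat.card F := by
    have := p4_two_le_card F
    exact_mod_cast this
  have hLow : (0:ℝ) < lowCard T ρ := by
    have : 1 ≤ lowCard T ρ := one_le_lowCard T ρ
    exact_mod_cast this
  have hρ' : (1:ℝ) ≤ ρ := by exact_mod_cast hρ
  have hc0 : (0:ℝ) ≤ c / k := by positivity
  rw [← Real.logb_le_iff_le_rpow h2 hLow]
  by_cases hρr : (ρ:ℝ) ≤ k * r
  · have hs := s0_pos L₀ hL
    obtain ⟨j, hj⟩ := exists_nat_ge ((r:ℝ) / s0 L₀)
    have h1 := p4_claim k r L₀ hL hk hr hkr j T c hLr hT ρ hρ hρr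
    have h3 : max 0 ((r:ℝ) - j * s0 L₀) = 0 := by
      rw [max_eq_left]
      rw [div_le_iff₀ hs] at hj
      linarith
    rw [h3] at h1
    have h4 := phi_le k r L₀ hk hr hkr ρ hρ'
    unfold Gam at h1
    linarith
  · push Not at hρr
    have h1 := p4_logb_le_r r T hLr ρ
    have h3 := logb_L_ge L₀ hL
    have h4 : 0 ≤ Real.logb 2 (ρ:ℝ) := Real.logb_nonneg (by norm_num) hρ'
    have hL₀r : (10:ℝ) ≤ L₀ := by exact_mod_cast hL
    have h5 : (r:ℝ) ≤ 6 * (L₀:ℝ) * ρ / k := by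
      rw [le_div_iff₀ hk']
      nlinarith
    linarith

end QSys
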