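import Pool.Agent.Lib.MP_c77682_nt.Defs

/-!
QF-1. Elementary properties of `Stable`, `rk`, `lowCard`. All spaces are finite dimensional over a
finite field `F`.

PROOFS.
* `stable_restr`: apply stability of `T` to `A`, `H'.map H.subtype`, `J` (dimension of the image under
  the injective map `H.subtype` is `finrank H'`).
* `stable_quot`: apply stability of `T` to `A`, `H`, `J'.comap J.mkQ`; its dimension is
  `finrank J' + finrank J` (rank-nullity for the surjective map `J'.comap J.mkQ → J'`, kernel `J`).
* `rk_restr_le`: the range of `T l` restricted to `H` is contained in the range of `T l`.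
* `le_rk`: take `A = span {l}` (dimension 1), `H = ker (T l)`, `J = ⊥`, and
  `finrank (ker) + finrank (range) = finrank V`.
* `lowCard_zero`: `{l | rk l ≤ 0} = {l | T l = 0}` is the kernel `A` of `T`; stability with `H = ⊤`,
  `J = ⊥` gives `k * finrank A ≤ c`; its cardinality is `q ^ finrank A`, so the `k`-th power of
  `lowCard T 0` is `q ^ (k * finrank A) ≤ q ^ c`.
* `lowCard_le`: the subtype injects into `L`, which has `q ^ finrank L` elements.
* `lowCard_mono`: inclusion.
* `one_le_lowCard`: `0` has rank `0`.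
-/

set_option autoImplicit false
set_option linter.unusedSectionVars false

open Module

namespace QSys

variable {F L V Y : Type} [Field F] [Finite F] [AddCommGroup L] [Module F L] [FiniteDimensional F L]
  [AddCommGroup V] [Module F V] [FiniteDimensional F V]
  [AddCommGroup Y] [Module F Y] [FiniteDimensional F Y]

theorem stable_restr (T : L →ₗ[F] V →ₗ[F] Y) (k c : ℕ) (h : Stable T k c) (H : Submodule F V)
    (d : ℕ) (hd : finrank F V ≤ finrank F H + d) : Stable (restr T H) k (c + d) := by
  intro A H' J hA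
  have h1 := h A (H'.map H.subtype) J (by
    intro l hl x hx
    obtain ⟨y, hy, rfl⟩ := Submodule.mem_map.1 hx
    exact hA l hl y hy)
  rw [Submodule.finrank_map_subtype_eq] at h1
  omega

private theorem finrank_comap_mkQ_le (J : Submodule F Y) (J' : Submodule F (Y ⧸ J)) :
    finrank F (J'.comap J.mkQ) ≤ finrank F J' + finrank F J := by
  have h1 := LinearMap.finrank_range_add_finrank_ker (J.mkQ.domRestrict (J'.comap J.mkQ))
  have h2 : finrank F (LinearMap.range (J.mkQ.domRestrict (J'.comap J.mkQ))) ≤ finrank F J' := by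
    refine Submodule.finrank_mono ?_
    rintro _ ⟨x, rfl⟩
    exact x.2
  have h3 : finrank F (LinearMap.ker (J.mkQ.domRestrict (J'.comap J.mkQ))) ≤ finrank F J := by
    have e : ∀ x : LinearMap.ker (J.mkQ.domRestrict (J'.comap J.mkQ)), (x.1.1 : Y) ∈ J := by
      intro x
      have hx : J.mkQ x.1.1 = 0 := x.2
      rwa [Submodule.mkQ_apply, Submodule.Quotient.mk_eq_zero] at hx
    let g : LinearMap.ker (J.mkQ.domRestrict (J'.comap J.mkQ)) →ₗ[F] J :=
      ((Submodule.subtype _).comp (Submodule.subtype _)).codRestrict J e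
    refine LinearMap.finrank_le_finrank_of_injective (f := g) ?_
    intro x y hxy
    have : (x.1.1 : Y) = y.1.1 := congrArg (fun z : J => (z : Y)) hxy
    exact Subtype.ext (Subtype.ext this)
  omega

theorem stable_quot (T : L →ₗ[F] V →ₗ[F] Y) (k c : ℕ) (h : Stable T k c) (J : Submodule F Y)
    (d : ℕ) (hd : finrank F J ≤ d) : Stable (quot T J) k (c + d) := by
  intro A H' J' hA
  have h1 := h A H' (J'.comap J.mkQ) (fun l hl x hx => hA l hl x hx)
  have h2 := finrank_comap_mkQ_le J J'
  omega

theorem le_rk (T : L →ₗ[F] V →ₗ[F] Y) (k c : ℕ) (h : Stable T k c) (l : L) (hl : l ≠ 0) :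
    k ≤ rk T l + c := by
  have h1 := h (F ∙ l) (LinearMap.ker (T l)) ⊥ (by
    intro l' hl' x hx
    obtain ⟨a, rfl⟩ := Submodule.mem_span_singleton.1 hl'
    rw [map_smul, LinearMap.smul_apply, LinearMap.mem_ker.1 hx, smul_zero]
    exact Submodule.zero_mem _)
  rw [finrank_span_singleton hl, finrank_bot, mul_one] at h1
  have h2 := LinearMap.finrank_range_add_finrank_ker (T l)
  unfold rk
  omega

theorem rk_le (T : L →ₗ[F] V →ₗ[F] Y) (l : L) : rk T l ≤ finrank F V :=
  LinearMap.finrank_range_le (T l)

theorem lowCard_zero (T : L →ₗ[F] V →ₗ[F] Y) (k c : ℕ) (h : Stable T k c) :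
    (lowCard T 0) ^ k ≤ (Nat.card F) ^ c := by
  have h1 := h (LinearMap.ker T) ⊤ ⊥ (by
    intro l hl x _
    rw [LinearMap.mem_ker.1 hl]
    exact Submodule.zero_mem _)
  rw [finrank_top, finrank_bot] at h1
  have h2 : lowCard T 0 = Nat.card (LinearMap.ker T) := by
    refine Nat.card_congr (Equiv.subtypeEquivRight fun l => ?_)
    unfold rk
    rw [Nat.le_zero, Submodule.finrank_eq_zero, LinearMap.range_eq_bot, LinearMap.mem_ker]
  rw [h2, Module.natCard_eq_pow_finrank (K := F) (V := LinearMap.ker T), ← pow_mul]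
  exact Nat.pow_le_pow_right Nat.card_pos (by rw [mul_comm]; omega)

theorem lowCard_le (T : L →ₗ[F] V →ₗ[F] Y) (ρ : ℕ) : lowCard T ρ ≤ (Nat.card F) ^ (finrank F L) := by
  have : Finite L := Module.finite_of_finite F
  rw [← Module.natCard_eq_pow_finrank (K := F) (V := L)]
  exact Nat.card_le_card_of_injective _ Subtype.val_injective

theorem lowCard_mono (T : L →ₗ[F] V →ₗ[F] Y) (ρ σ : ℕ) (h : ρ ≤ σ) :
    lowCard T ρ ≤ lowCard T σ := by
  have : Finite L := Module.finite_of_finite F
  exact Nat.card_le_card_of_injective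
    (fun l : {l : L // rk T l ≤ ρ} => (⟨l.1, l.2.trans h⟩ : {l : L // rk T l ≤ σ}))
    fun a b hab => Subtype.ext (congrArg (fun l : {l : L // rk T l ≤ σ} => (l : L)) hab)

theorem one_le_lowCard (T : L →ₗ[F] V →ₗ[F] Y) (ρ : ℕ) : 1 ≤ lowCard T ρ := by
  have : Finite L := Module.finite_of_finite F
  have : Nonempty {l : L // rk T l ≤ ρ} := ⟨⟨0, by
    unfold rk
    rw [map_zero, LinearMap.range_zero, finrank_bot]
    exact Nat.zero_le _⟩⟩
  exact Nat.card_pos

end QSys
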